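import Pool.Agent.W841.FF.Gr

/-! Elementary facts on the indicators. -/

set_option autoImplicit false

open Finset
open scoped Classical

namespace Pool.Agent.W841.FF

variable {V : Type}

theorem ad_symm (A : V → V → Prop) (u v : V) : ad A u v = ad A v u := by
  unfold ad
  congr 1
  exact propext or_comm

theorem ad_nonneg (A : V → V → Prop) (u v : V) : 0 ≤ ad A u v := by
  unfold ad; split_ifs <;> norm_num

theorem ad_le_one (A : V → V → Prop) (u v : V) : ad A u v ≤ 1 := by
  unfold ad; split_ifs <;> norm_num

theorem ar_nonneg (A : V → V → Prop) (u v : V) : 0 ≤ ar A u v := by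
  unfold ar; split_ifs <;> norm_num

theorem ar_le_one (A : V → V → Prop) (u v : V) : ar A u v ≤ 1 := by
  unfold ar; split_ifs <;> norm_num

theorem ad_eq {A : V → V → Prop} (hA : Good A) (u v : V) : ad A u v = ar A u v + ar A v u := by
  unfold ad ar
  by_cases h1 : A u v
  · have h2 := hA.1 u v h1
    simp [h1, h2]
  · by_cases h2 : A v u <;> simp [h1, h2]

theorem ad_self {A : V → V → Prop} (hA : Good A) (u : V) : ad A u u = 0 := by
  unfold ad
  have : ¬ (A u u ∨ A u u) := fun h => by
    rcases h with h | h <;> exact hA.1 u u h h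
  rw [if_neg this]

theorem ad_zero {A : V → V → Prop} {u v : V} (h : ¬ (A u v ∨ A v u)) : ad A u v = 0 := by
  unfold ad; simp [h]

theorem ad_one {A : V → V → Prop} {u v : V} (h : A u v ∨ A v u) : ad A u v = 1 := by
  unfold ad; simp [h]

theorem ar_one {A : V → V → Prop} {u v : V} (h : A u v) : ar A u v = 1 := by
  unfold ar; simp [h]

theorem ar_zero {A : V → V → Prop} {u v : V} (h : ¬ A u v) : ar A u v = 0 := by
  unfold ar; simp [h]

end Pool.Agent.W841.FF
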