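import Pool.Agent.W841.FF.Psd
import Pool.Agent.W841.FF.TabC4

/-! Kernel checks for the certificate C4. -/

set_option autoImplicit false
set_option maxRecDepth 100000

namespace Pool.Agent.W841.C4

open Pool.Agent.W841.FF

theorem leaves : (B3 fun r01 n01 => B3 fun r02 n02 => B3 fun r12 n12 =>
    chk4 (Q3 TQ) (Q1 TU) (lk TT) CST CH r01 n01 r02 n02 r12 n12) = true := by decide +kernel

theorem gram3 : nall 7 (fun r => nall 27 fun i => nall 27 fun j => gramOK TQ TL 27 r i j) = true := by
  decide +kernel

theorem gram1 : nall 27 (fun i => nall 27 fun j => gramOK TU TM 9 0 i j) = true := by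
  decide +kernel

theorem lin : (B3 fun r01 n01 => B3 fun r02 n02 => B3 fun r12 n12 =>
    Nat.beq (Nat.add (lk TT (cd r01 r02 r12)) (Nat.mul 216000000000 (chN r01 n01 r02 n02 r12 n12)))
    (Nat.add 140737488355328 (Nat.add (Nat.mul 540000000000 (fN r01 n01 r02 n02 r12 n12))
      (Nat.mul 72000000000 (eN r01 r02 r12))))) = true := by decide +kernel

end Pool.Agent.W841.C4
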