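import Pool.Agent.W841.FF.CertC1
import Pool.Agent.W841.FF.CertC4

/-! The two flag-algebra inequalities used. -/

set_option autoImplicit false
set_option maxRecDepth 100000

open Finset

namespace Pool.Agent.W841.FF

variable {V : Type} [Fintype V]

theorem boundA {A : V → V → Prop} (hA : Good A) {w : V → ℝ} (hw : ∀ v, 0 ≤ w v)
    (hs : ∑ v, w v = 1) :
    4 / 9 + 6017 / 100000 * (6535 / 10000 - EE A w) ≤ DD A w := by
  have h := flag_main hA hw hs C1.leaves 27 10 _ _ _ (Q3_gram C1.gram3) (Q1_gram C1.gram1)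
  rw [Ft_val hs (lk C1.TT) _ _ _ _ (t3_of hA C1.TT _ _ _ _ C1.lin), Fh_val hA hs] at h
  have hC : ((C1.CST : ℕ) : ℝ) = 8441636967406680 := by
    norm_num [C1.CST]
  have hH : ((C1.CH : ℕ) : ℝ) = 0 := by norm_num [C1.CH]
  rw [hC, hH] at h
  push_cast at h
  linarith

theorem boundB {A : V → V → Prop} (hA : Good A) {w : V → ℝ} (hw : ∀ v, 0 ≤ w v)
    (hs : ∑ v, w v = 1) :
    6 / 5 * (SS A w - 1 / 9 + (2 / 3 - EE A w) / 3) + 1 / 10 * HH A w ≤
      DD A w - 4 / 9 + 61 / 200000 := by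
  have h := flag_main hA hw hs C4.leaves 27 9 _ _ _ (Q3_gram C4.gram3) (Q1_gram C4.gram1)
  rw [Ft_val hs (lk C4.TT) _ _ _ _ (t3_of hA C4.TT _ _ _ _ C4.lin), Fh_val hA hs] at h
  have hC : ((C4.CST : ℕ) : ℝ) = 8441130948319680 := by
    norm_num [C4.CST]
  have hH : ((C4.CH : ℕ) : ℝ) = 9000000000 := by norm_num [C4.CH]
  rw [hC, hH] at h
  push_cast at h
  linarith

end Pool.Agent.W841.FF
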