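import Pool.Agent.W841.FF.Half

/-! The chain lemma. -/

set_option autoImplicit false

open Finset
open scoped Classical

namespace Pool.Agent.W841.FF

variable {V : Type}

noncomputable def NN (A : V → V → Prop) (w : V → ℝ) (Y : Finset V) : ℝ :=
  ∑ u ∈ Y, ∑ v ∈ Y, w u * w v * ad A u v
noncomputable def MM (A : V → V → Prop) (w : V → ℝ) (Y W : Finset V) : ℝ :=
  ∑ u ∈ Y, ∑ v ∈ W, w u * w v * (1 - ad A u v)
noncomputable def TT (A : V → V → Prop) (w : V → ℝ) (Y W : Finset V) : ℝ :=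
  NN A w Y + NN A w W + 4 * MM A w Y W

theorem NN_nonneg {A : V → V → Prop} {w : V → ℝ} (hw : ∀ v, 0 < w v) (Y : Finset V) :
    0 ≤ NN A w Y := sum_nonneg fun u _ => sum_nonneg fun v _ =>
      mul_nonneg (mul_nonneg (hw u).le (hw v).le) (ad_nonneg _ _ _)

theorem MM_nonneg {A : V → V → Prop} {w : V → ℝ} (hw : ∀ v, 0 < w v) (Y W : Finset V) :
    0 ≤ MM A w Y W := sum_nonneg fun u _ => sum_nonneg fun v _ =>
      mul_nonneg (mul_nonneg (hw u).le (hw v).le) (by linarith [ad_le_one A u v])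

theorem MM_symm (A : V → V → Prop) (w : V → ℝ) (Y W : Finset V) : MM A w Y W = MM A w W Y := by
  unfold MM
  rw [sum_comm]
  refine sum_congr rfl fun v _ => sum_congr rfl fun u _ => ?_
  rw [ad_symm]; ring

theorem TT_symm (A : V → V → Prop) (w : V → ℝ) (Y W : Finset V) : TT A w Y W = TT A w W Y := by
  unfold TT
  rw [MM_symm]; ring

theorem MM_erase {A : V → V → Prop} {w : V → ℝ} {Y W : Finset V} {y : V} (hy : y ∈ Y) :
    MM A w Y W = MM A w (Y.erase y) W + w y * ∑ u ∈ W, w u * (1 - ad A y u) := by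
  unfold MM
  rw [← sum_erase_add Y _ hy, mul_sum]
  congr 1
  exact sum_congr rfl fun u _ => by ring

theorem NN_erase {A : V → V → Prop} (hA : Good A) {w : V → ℝ} {Y : Finset V} {y : V} (hy : y ∈ Y) :
    NN A w Y = NN A w (Y.erase y) + 2 * (w y * ∑ u ∈ Y, w u * ad A y u) := by
  unfold NN
  have h1 : ∀ u, ∑ v ∈ Y, w u * w v * ad A u v =
      ∑ v ∈ Y.erase y, w u * w v * ad A u v + w u * w y * ad A u y := fun u =>
    (sum_erase_add Y _ hy).symm
  have h2 : ∑ u ∈ Y, w u * ad A y u = ∑ u ∈ Y.erase y, w u * ad A y u := by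
    rw [← sum_erase_add Y _ hy, ad_self hA]; ring
  rw [← sum_erase_add Y _ hy]
  simp only [h1]
  rw [sum_add_distrib, ad_self hA, h2]
  have h3 : ∑ x ∈ Y.erase y, w x * w y * ad A x y = w y * ∑ u ∈ Y.erase y, w u * ad A y u := by
    rw [mul_sum]
    exact sum_congr rfl fun u _ => by rw [ad_symm]; ring
  have h4 : ∑ v ∈ Y.erase y, w y * w v * ad A y v = w y * ∑ u ∈ Y.erase y, w u * ad A y u := by
    rw [mul_sum]
    exact sum_congr rfl fun u _ => by ring
  rw [h3, h4]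
  ring

/-- weight of adjacent vertices on the own side plus twice the weight of non-adjacent vertices on
the other side -/
noncomputable def dg (A : V → V → Prop) (w : V → ℝ) (Y W : Finset V) (y : V) : ℝ :=
  ∑ u ∈ Y, w u * ad A y u + 2 * ∑ u ∈ W, w u * (1 - ad A y u)

theorem TT_erase {A : V → V → Prop} (hA : Good A) {w : V → ℝ} {Y W : Finset V} {y : V}
    (hy : y ∈ Y) : TT A w Y W = TT A w (Y.erase y) W + 2 * (w y * dg A w Y W y) := by
  unfold TT dg
  rw [NN_erase hA hy, MM_erase hy]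
  ring

theorem TT_nonneg {A : V → V → Prop} {w : V → ℝ} (hw : ∀ v, 0 < w v) (Y W : Finset V) :
    0 ≤ TT A w Y W := by
  unfold TT
  linarith [NN_nonneg (A := A) hw Y, NN_nonneg (A := A) hw W, MM_nonneg (A := A) hw Y W]

/-- degree bound from minimality -/
theorem dg_le {A : V → V → Prop} (hA : Good A) {w : V → ℝ} (hw : ∀ v, 0 < w v) {Y W : Finset V}
    {y : V} (hy : y ∈ Y) {K L : ℝ} (hL : 0 < L) (hK : 0 ≤ K) (hT : TT A w Y W = K * L ^ 2)
    (hmin : w y < L → K * (L - w y) ^ 2 ≤ TT A w (Y.erase y) W) : dg A w Y W y ≤ K * L := by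
  have hwy := hw y
  have he := TT_erase hA (w := w) (W := W) hy
  rw [hT] at he
  by_cases h : w y < L
  · have h1 := hmin h
    have h2 : 2 * (w y * dg A w Y W y) ≤ 2 * (w y * (K * L)) := by
      nlinarith [mul_nonneg hK (sq_nonneg (w y))]
    have h3 : w y * dg A w Y W y ≤ w y * (K * L) := by linarith
    exact le_of_mul_le_mul_left h3 hwy
  · rw [not_lt] at h
    have h1 : 0 ≤ TT A w (Y.erase y) W := TT_nonneg hw _ _
    have h2 : 2 * (w y * dg A w Y W y) ≤ K * L ^ 2 := by linarith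
    have h3 : K * L ^ 2 ≤ w y * (K * L) := by
      have : K * L * L ≤ K * L * w y := mul_le_mul_of_nonneg_left h (mul_nonneg hK hL.le)
      nlinarith
    have h4 : w y * (2 * dg A w Y W y) ≤ w y * (K * L) := by linarith
    have h5 := le_of_mul_le_mul_left h4 hwy
    have h6 : 0 ≤ K * L := mul_nonneg hK hL.le
    linarith

theorem CL {A : V → V → Prop} (hA : Good A) {w : V → ℝ} (hw : ∀ v, 0 < w v)
    (Y W : Finset V) {L : ℝ} (hL : 0 < L) (hne : Y.Nonempty)
    (hY : ∀ y ∈ Y, L ≤ ∑ u ∈ W, w u * ar A y u) (hW : ∀ x ∈ W, L ≤ ∑ u ∈ Y, w u * ar A x u) :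
    3 / 8 * L ^ 2 ≤ TT A w Y W := by
  by_contra hlt
  rw [not_le] at hlt
  have hw0 : ∀ v, 0 ≤ w v := fun v => (hw v).le
  let del : Finset V × Finset V → ℝ := fun p =>
    (∑ v ∈ Y, w v - ∑ v ∈ p.1, w v) + (∑ v ∈ W, w v - ∑ v ∈ p.2, w v)
  let S := (Y.powerset ×ˢ W.powerset).filter (fun p => del p < L)
  have hYW : (Y, W) ∈ S := by
    simp only [S, mem_filter, mem_product, mem_powerset]
    refine ⟨⟨subset_rfl, subset_rfl⟩, ?_⟩
    simp only [del, sub_self, add_zero]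
    exact hL
  obtain ⟨p, hpS, hpmin⟩ := exists_min_image S (fun p => TT A w p.1 p.2 / (L - del p) ^ 2) ⟨_, hYW⟩
  obtain ⟨Y1, W1⟩ := p
  simp only [S, mem_filter, mem_product, mem_powerset] at hpS
  obtain ⟨⟨hY1, hW1⟩, hdel⟩ := hpS
  set L' := L - del (Y1, W1) with hL'def
  have hL' : 0 < L' := by linarith
  set K := TT A w Y1 W1 / L' ^ 2 with hKdef
  have hL'2 : 0 < L' ^ 2 := by positivity
  have hT : TT A w Y1 W1 = K * L' ^ 2 := by rw [hKdef]; field_simp
  have hK0 : 0 ≤ K := div_nonneg (TT_nonneg hw _ _) hL'2.le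
  have hK : K < 3 / 8 := by
    have h1 := hpmin _ hYW
    have h2 : del (Y, W) = 0 := by simp only [del, sub_self, add_zero]
    simp only [h2, sub_zero] at h1
    have h3 : TT A w Y W / L ^ 2 < 3 / 8 := by
      rw [div_lt_iff₀ (by positivity)]
      exact hlt
    exact lt_of_le_of_lt h1 h3
  have hmin : ∀ Y2 W2, Y2 ⊆ Y → W2 ⊆ W → del (Y2, W2) < L →
      K * (L - del (Y2, W2)) ^ 2 ≤ TT A w Y2 W2 := by
    intro Y2 W2 h1 h2 h3
    have h4 : (Y2, W2) ∈ S := by
      simp only [S, mem_filter, mem_product, mem_powerset]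
      exact ⟨⟨h1, h2⟩, h3⟩
    have h5 := hpmin _ h4
    have h6 : 0 < (L - del (Y2, W2)) ^ 2 := by
      have : 0 < L - del (Y2, W2) := by linarith
      positivity
    rw [le_div_iff₀ h6] at h5
    exact h5
  have dY : ∀ y ∈ Y1, dg A w Y1 W1 y ≤ K * L' := by
    intro y hy
    refine dg_le hA hw hy hL' hK0 hT ?_
    intro hlt'
    have e : del (Y1.erase y, W1) = del (Y1, W1) + w y := by
      simp only [del]
      rw [sum_erase_eq_sub hy]
      ring
    have h1 := hmin (Y1.erase y) W1 ((erase_subset _ _).trans hY1) hW1 (by rw [e]; linarith)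
    rw [e] at h1
    have : L - (del (Y1, W1) + w y) = L' - w y := by rw [hL'def]; ring
    rw [this] at h1
    exact h1
  have dW : ∀ x ∈ W1, dg A w W1 Y1 x ≤ K * L' := by
    intro x hx
    refine dg_le hA hw hx hL' hK0 (by rw [TT_symm]; exact hT) ?_
    intro hlt'
    have e : del (Y1, W1.erase x) = del (Y1, W1) + w x := by
      simp only [del]
      rw [sum_erase_eq_sub hx]
      ring
    have h1 := hmin Y1 (W1.erase x) hY1 ((erase_subset _ _).trans hW1) (by rw [e]; linarith)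
    rw [e] at h1
    have : L - (del (Y1, W1) + w x) = L' - w x := by rw [hL'def]; ring
    rw [this] at h1
    rw [TT_symm]
    exact h1
  have sY : 0 ≤ ∑ v ∈ Y, w v - ∑ v ∈ Y1, w v := by
    have := sum_le_sum_of_subset_of_nonneg hY1 (f := w) (fun v _ _ => hw0 v)
    linarith
  have sW : 0 ≤ ∑ v ∈ W, w v - ∑ v ∈ W1, w v := by
    have := sum_le_sum_of_subset_of_nonneg hW1 (f := w) (fun v _ _ => hw0 v)
    linarith
  have hdelv : del (Y1, W1) = (∑ v ∈ Y, w v - ∑ v ∈ Y1, w v) + (∑ v ∈ W, w v - ∑ v ∈ W1, w v) := rfl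
  -- out-weights in the small sets
  have oY : ∀ y ∈ Y1, L' ≤ ∑ u ∈ W1, w u * ar A y u := by
    intro y hy
    have h1 := hY y (hY1 hy)
    have h2 : ∑ u ∈ W1, w u * (1 - ar A y u) ≤ ∑ u ∈ W, w u * (1 - ar A y u) :=
      sum_le_sum_of_subset_of_nonneg hW1 (fun v _ _ => mul_nonneg (hw0 v)
        (by linarith [ar_le_one A y v]))
    simp only [mul_sub, mul_one, sum_sub_distrib] at h2
    linarith
  have oW : ∀ x ∈ W1, L' ≤ ∑ u ∈ Y1, w u * ar A x u := by
    intro x hx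
    have h1 := hW x (hW1 hx)
    have h2 : ∑ u ∈ Y1, w u * (1 - ar A x u) ≤ ∑ u ∈ Y, w u * (1 - ar A x u) :=
      sum_le_sum_of_subset_of_nonneg hY1 (fun v _ _ => mul_nonneg (hw0 v)
        (by linarith [ar_le_one A x v]))
    simp only [mul_sub, mul_one, sum_sub_distrib] at h2
    linarith
  -- non-emptiness
  have up : ∀ (Z : Finset V) (f : V → ℝ), (∀ v, f v ≤ 1) → ∑ u ∈ Z, w u * f u ≤ ∑ u ∈ Z, w u := by
    intro Z f hf
    refine sum_le_sum fun u _ => ?_
    have := mul_le_mul_of_nonneg_left (hf u) (hw0 u)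
    linarith
  have hW1ne : W1.Nonempty := by
    obtain ⟨y, hy⟩ := hne
    have h1 := hY y hy
    have h2 := up W (fun u => ar A y u) (fun v => ar_le_one A y v)
    have h3 : 0 < ∑ v ∈ W1, w v := by linarith
    exact nonempty_of_sum_ne_zero h3.ne'
  have hY1ne : Y1.Nonempty := by
    obtain ⟨x, hx⟩ := hW1ne
    by_contra h
    rw [not_nonempty_iff_eq_empty] at h
    have h1 := oW x hx
    rw [h, sum_empty] at h1
    linarith
  obtain ⟨y0, hy0, hy0min⟩ := exists_min_image Y1 (fun y => ∑ u ∈ W1, w u * ar A y u) hY1ne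
  -- the out-neighbourhood of y0
  have sumf : ∀ (Z : Finset V) (y : V), ∑ u ∈ Z.filter (fun u => A y u), w u = ∑ u ∈ Z, w u * ar A y u := by
    intro Z y
    rw [sum_filter]
    refine sum_congr rfl fun u _ => ?_
    unfold ar
    split_ifs <;> ring
  have hAs : (W1.filter (fun u => A y0 u)).Nonempty := by
    by_contra h
    rw [not_nonempty_iff_eq_empty] at h
    have h1 := sumf W1 y0
    rw [h, sum_empty] at h1
    have h2 := oY y0 hy0
    linarith
  obtain ⟨x0, hx0, hx0min⟩ := exists_min_image (W1.filter (fun u => A y0 u))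
    (fun x => ∑ u ∈ Y1, w u * ar A x u) hAs
  rw [mem_filter] at hx0
  obtain ⟨hx0W, hyx⟩ := hx0
  -- the two sets
  let A0 := (W1.filter (fun u => A y0 u)).filter (fun x => ¬ (A x0 x ∨ A x x0))
  let B0 := (Y1.filter (fun u => A x0 u)).filter (fun y => ¬ (A y0 y ∨ A y y0))
  have sumn : ∀ (Z : Finset V) (y z : V), ∑ u ∈ Z, w u * ar A y u - ∑ u ∈ Z, w u * ad A z u ≤
      ∑ u ∈ (Z.filter (fun u => A y u)).filter (fun x => ¬ (A z x ∨ A x z)), w u := by
    intro Z y z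
    rw [sum_filter, sum_filter, ← sum_sub_distrib]
    refine sum_le_sum fun u _ => ?_
    have := hw0 u
    by_cases h1 : A y u <;> by_cases h2 : (A z u ∨ A u z)
    · rw [ar_one h1, ad_one h2, if_pos h1, if_neg (not_not.mpr h2)]; linarith
    · rw [ar_one h1, ad_zero h2, if_pos h1, if_pos h2]; linarith
    · rw [ar_zero h1, ad_one h2, if_neg h1]; linarith
    · rw [ar_zero h1, ad_zero h2, if_neg h1]; linarith
  have hA0 : L' - ∑ u ∈ W1, w u * ad A x0 u ≤ ∑ u ∈ A0, w u := by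
    have := sumn W1 y0 x0
    have h2 := oY y0 hy0
    linarith
  have hB0 : L' - ∑ u ∈ Y1, w u * ad A y0 u ≤ ∑ u ∈ B0, w u := by
    have := sumn Y1 x0 y0
    have h2 := oW x0 hx0W
    linarith
  set n0 := ∑ u ∈ Y1, w u * (1 - ad A x0 u) with hn0
  set n1 := ∑ u ∈ W1, w u * (1 - ad A y0 u) with hn1
  set nY := ∑ u ∈ Y1, ∑ v ∈ Y1, w u * w v * ad A u v with hnY
  set nW := ∑ u ∈ W1, ∑ v ∈ W1, w u * w v * ad A u v with hnW
  set p := n0 / 2 + Real.sqrt (nY / 2 + n0 ^ 2 / 4) with hpdef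
  set q := n1 / 2 + Real.sqrt (nW / 2 + n1 ^ 2 / 4) with hqdef
  have hn0' : 0 ≤ n0 := sum_nonneg fun u _ => mul_nonneg (hw0 u) (by linarith [ad_le_one A x0 u])
  have hn1' : 0 ≤ n1 := sum_nonneg fun u _ => mul_nonneg (hw0 u) (by linarith [ad_le_one A y0 u])
  have hnY' : 0 ≤ nY := NN_nonneg (A := A) hw Y1
  have hnW' : 0 ≤ nW := NN_nonneg (A := A) hw W1
  -- the double count
  have hp1 : ∀ x ∈ A0, ∑ u ∈ Y1, w u * (ar A x0 u * ar A u x) ≤ p := by
    intro x hx
    simp only [A0, mem_filter] at hx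
    exact half hA hw Y1 x0 x hx.2 (hx0min x (mem_filter.mpr hx.1))
  have hq1 : ∀ y ∈ B0, ∑ u ∈ W1, w u * (ar A y0 u * ar A u y) ≤ q := by
    intro y hy
    simp only [B0, mem_filter] at hy
    exact half hA hw W1 y0 y hy.2 (hy0min y hy.1.1)
  have dc : (∑ x ∈ A0, w x) * (∑ y ∈ B0, w y) ≤
      (∑ x ∈ A0, w x) * p + (∑ y ∈ B0, w y) * q + MM A w Y1 W1 := by
    have e1 : (∑ x ∈ A0, w x) * (∑ y ∈ B0, w y) =
        ∑ x ∈ A0, ∑ y ∈ B0, w x * w y * ar A y x + ∑ x ∈ A0, ∑ y ∈ B0, w x * w y * ar A x y +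
        ∑ x ∈ A0, ∑ y ∈ B0, w x * w y * (1 - ad A x y) := by
      rw [sum_mul_sum, ← sum_add_distrib, ← sum_add_distrib]
      refine sum_congr rfl fun x _ => ?_
      rw [← sum_add_distrib, ← sum_add_distrib]
      refine sum_congr rfl fun y _ => ?_
      rw [ad_eq hA]; ring
    have e2 : ∑ x ∈ A0, ∑ y ∈ B0, w x * w y * ar A y x ≤ (∑ x ∈ A0, w x) * p := by
      rw [sum_mul]
      refine sum_le_sum fun x hx => ?_
      have h1 : ∑ y ∈ B0, w x * w y * ar A y x ≤ w x * ∑ u ∈ Y1, w u * (ar A x0 u * ar A u x) := by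
        rw [mul_sum]
        refine (sum_le_sum fun y hy => ?_).trans
          (sum_le_sum_of_subset_of_nonneg (s := B0) (t := Y1) ?_ ?_)
        · simp only [B0, mem_filter] at hy
          rw [ar_one hy.1.2]
          exact le_of_eq (by ring)
        · exact (filter_subset _ _).trans (filter_subset _ _)
        · intro u _ _
          exact mul_nonneg (hw0 x) (mul_nonneg (hw0 u) (mul_nonneg (ar_nonneg _ _ _) (ar_nonneg _ _ _)))
      exact h1.trans (mul_le_mul_of_nonneg_left (hp1 x hx) (hw0 x))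
    have e3 : ∑ x ∈ A0, ∑ y ∈ B0, w x * w y * ar A x y ≤ (∑ y ∈ B0, w y) * q := by
      rw [sum_comm, sum_mul]
      refine sum_le_sum fun y hy => ?_
      have h1 : ∑ x ∈ A0, w x * w y * ar A x y ≤ w y * ∑ u ∈ W1, w u * (ar A y0 u * ar A u y) := by
        rw [mul_sum]
        refine (sum_le_sum fun x hx => ?_).trans
          (sum_le_sum_of_subset_of_nonneg (s := A0) (t := W1) ?_ ?_)
        · simp only [A0, mem_filter] at hx
          rw [ar_one hx.1.2]
          exact le_of_eq (by ring)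
        · exact (filter_subset _ _).trans (filter_subset _ _)
        · intro u _ _
          exact mul_nonneg (hw0 y) (mul_nonneg (hw0 u) (mul_nonneg (ar_nonneg _ _ _) (ar_nonneg _ _ _)))
      exact h1.trans (mul_le_mul_of_nonneg_left (hq1 y hy) (hw0 y))
    have e4 : ∑ x ∈ A0, ∑ y ∈ B0, w x * w y * (1 - ad A x y) ≤ MM A w Y1 W1 := by
      rw [MM_symm]
      unfold MM
      refine (sum_le_sum_of_subset_of_nonneg (s := A0) (t := W1)
        ((filter_subset _ _).trans (filter_subset _ _)) ?_).trans (sum_le_sum fun x _ => ?_)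
      · intro u _ _
        exact sum_nonneg fun v _ => mul_nonneg (mul_nonneg (hw0 _) (hw0 _)) (by linarith [ad_le_one A u v])
      · exact sum_le_sum_of_subset_of_nonneg ((filter_subset _ _).trans (filter_subset _ _))
          (fun v _ _ => mul_nonneg (mul_nonneg (hw0 _) (hw0 _)) (by linarith [ad_le_one A x v]))
    rw [e1]
    linarith
  have hp0 : 0 ≤ p := by
    have := Real.sqrt_nonneg (nY / 2 + n0 ^ 2 / 4)
    linarith
  have hq0 : 0 ≤ q := by
    have := Real.sqrt_nonneg (nW / 2 + n1 ^ 2 / 4)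
    linarith
  have hp2 : p ^ 2 - n0 * p = nY / 2 := by
    have h1 : Real.sqrt (nY / 2 + n0 ^ 2 / 4) ^ 2 = nY / 2 + n0 ^ 2 / 4 :=
      Real.sq_sqrt (by positivity)
    have h2 : p ^ 2 - n0 * p = Real.sqrt (nY / 2 + n0 ^ 2 / 4) ^ 2 - n0 ^ 2 / 4 := by
      rw [hpdef]; ring
    rw [h2, h1]; ring
  have hq2 : q ^ 2 - n1 * q = nW / 2 := by
    have h1 : Real.sqrt (nW / 2 + n1 ^ 2 / 4) ^ 2 = nW / 2 + n1 ^ 2 / 4 :=
      Real.sq_sqrt (by positivity)
    have h2 : q ^ 2 - n1 * q = Real.sqrt (nW / 2 + n1 ^ 2 / 4) ^ 2 - n1 ^ 2 / 4 := by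
      rw [hqdef]; ring
    rw [h2, h1]; ring
  have hTe : nY + nW + 4 * MM A w Y1 W1 = K * L' ^ 2 := hT
  have b0 : ∑ u ∈ W1, w u * ad A x0 u + 2 * n0 ≤ K * L' := dW x0 hx0W
  have b1 : ∑ u ∈ Y1, w u * ad A y0 u + 2 * n1 ≤ K * L' := dY y0 hy0
  have v0 : 0 ≤ ∑ u ∈ W1, w u * ad A x0 u := sum_nonneg fun u _ => mul_nonneg (hw0 u) (ad_nonneg _ _ _)
  have v1 : 0 ≤ ∑ u ∈ Y1, w u * ad A y0 u := sum_nonneg fun u _ => mul_nonneg (hw0 u) (ad_nonneg _ _ _)
  exact num hL' hK hA0 hB0 b0 b1 v0 v1 hn0' hn1' (MM_nonneg hw _ _) hp0 hq0 hp2 hq2 hTe dc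

end Pool.Agent.W841.FF
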