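import Mathlib

/-! A numerical lemma for the chain argument. -/

set_option autoImplicit false

namespace Pool.Agent.W841.FF

theorem corner {L a b : ℝ} (ha : 5 / 8 * L ≤ a) (ha' : a ≤ L) (hb : 5 / 8 * L ≤ b) (hb' : b ≤ L) :
    3 / 8 * L ^ 2 ≤ 17 / 10 * (a * b) - (27 / 10 * a - 5 / 8 * L) ^ 2 / 8
      - (27 / 10 * b - 5 / 8 * L) ^ 2 / 8 := by
  have h1 := mul_nonneg (sub_nonneg.mpr ha) (sub_nonneg.mpr ha')
  have h2 := mul_nonneg (sub_nonneg.mpr hb) (sub_nonneg.mpr hb')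
  have h3 := mul_nonneg (sub_nonneg.mpr ha) (sub_nonneg.mpr hb)
  have h4 := mul_nonneg (sub_nonneg.mpr ha') (sub_nonneg.mpr hb')
  have h5 := mul_nonneg (sub_nonneg.mpr ha) (sub_nonneg.mpr hb')
  have h6 := mul_nonneg (sub_nonneg.mpr ha') (sub_nonneg.mpr hb)
  nlinarith [h1, h2, h3, h4, h5, h6]

theorem num {L K nY nW m A B n0 n1 v0 v1 p q : ℝ} (hL : 0 < L) (hK : K < 3 / 8)
    (hA : L - v0 ≤ A) (hB : L - v1 ≤ B) (h0 : v0 + 2 * n0 ≤ K * L) (h1 : v1 + 2 * n1 ≤ K * L)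
    (hv0 : 0 ≤ v0) (hv1 : 0 ≤ v1) (hn0 : 0 ≤ n0) (hn1 : 0 ≤ n1) (hm : 0 ≤ m) (hp : 0 ≤ p)
    (hq : 0 ≤ q) (hp2 : p ^ 2 - n0 * p = nY / 2) (hq2 : q ^ 2 - n1 * q = nW / 2)
    (hT : nY + nW + 4 * m = K * L ^ 2) (hmain : A * B ≤ A * p + B * q + m) : False := by
  have hKL : K * L < 3 / 8 * L := mul_lt_mul_of_pos_right hK hL
  set a := L - v0 with ha
  set b := L - v1 with hb
  have ha1 : 5 / 8 * L ≤ a := by linarith
  have hb1 : 5 / 8 * L ≤ b := by linarith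
  have ha2 : a ≤ L := by linarith
  have hb2 : b ≤ L := by linarith
  have ha0 : 0 < a := by linarith
  have hb0 : 0 < b := by linarith
  have hA0 : 0 < A := by linarith
  have hB0 : 0 < B := by linarith
  have key : a * b ≤ a * p + b * q + m := by
    have e1 : 1 ≤ p / B + q / A + m / (A * B) := by
      have : p / B + q / A + m / (A * B) = (A * p + B * q + m) / (A * B) := by
        field_simp
      rw [this, le_div_iff₀ (mul_pos hA0 hB0)]
      linarith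
    have e2 : p / B ≤ p / b := div_le_div_of_nonneg_left hp hb0 hB
    have e3 : q / A ≤ q / a := div_le_div_of_nonneg_left hq ha0 hA
    have e4 : m / (A * B) ≤ m / (a * b) :=
      div_le_div_of_nonneg_left hm (mul_pos ha0 hb0) (mul_le_mul hA hB hb0.le hA0.le)
    have e5 : 1 ≤ p / b + q / a + m / (a * b) := by linarith
    have e6 : p / b + q / a + m / (a * b) = (a * p + b * q + m) / (a * b) := by
      field_simp
    rw [e6, le_div_iff₀ (mul_pos ha0 hb0)] at e5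
    linarith
  have c := corner ha1 ha2 hb1 hb2
  have g0 : 2 * n0 * p ≤ (a - 5 / 8 * L) * p := mul_le_mul_of_nonneg_right (by linarith) hp
  have g1 : 2 * n1 * q ≤ (b - 5 / 8 * L) * q := mul_le_mul_of_nonneg_right (by linarith) hq
  have s1 : 0 ≤ (4 * p - (27 / 10 * a - 5 / 8 * L)) ^ 2 := sq_nonneg _
  have s2 : 0 ≤ (4 * q - (27 / 10 * b - 5 / 8 * L)) ^ 2 := sq_nonneg _
  have hL2 : 0 < L ^ 2 := by positivity
  have hK2 : K * L ^ 2 < 3 / 8 * L ^ 2 := mul_lt_mul_of_pos_right hK hL2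
  nlinarith [c, g0, g1, s1, s2, key, hK2]

end Pool.Agent.W841.FF
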