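import Pool.Agent.W841.FF.Psd
import Pool.Agent.W841.FF.TabC1

/-! Kernel checks for the certificate C1. -/

set_option autoImplicit false
set_option maxRecDepth 100000

namespace Pool.Agent.W841.C1

open Pool.Agent.W841.FF

theorem leaves : (B3 fun r01 n01 => B3 fun r02 n02 => B3 fun r12 n12 =>
    chk4 (Q3 TQ) (Q1 TU) (lk TT) CST CH r01 n01 r02 n02 r12 n12) = true := by decide +kernel

theorem gram3 : nall 7 (fun r => nall 27 fun i => nall 27 fun j => gramOK TQ TL 27 r i j) = true := by
  decide +kernel

theorem gram1 : nall 27 (fun i => nall 27 fun j => gramOK TU TM 10 0 i j) = true := by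
  decide +kernel

theorem lin : (B3 fun r01 n01 => B3 fun r02 n02 => B3 fun r12 n12 =>
    Nat.beq (Nat.add (lk TT (cd r01 r02 r12)) (Nat.mul 0 (chN r01 n01 r02 n02 r12 n12)))
    (Nat.add 140737488355328 (Nat.add (Nat.mul 540000000000 (fN r01 n01 r02 n02 r12 n12))
      (Nat.mul 10830600000 (eN r01 r02 r12))))) = true := by decide +kernel

end Pool.Agent.W841.C1
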