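import Mathlib

/-! A Young-type inequality for finite weighted sets. -/

set_option autoImplicit false

open Finset
open scoped Classical

namespace Pool.Agent.W841.FF

variable {V : Type}

noncomputable def Psi (S T : ℝ) : ℝ := S ^ 2 * T - (S ^ 3 - (max (S - T) 0) ^ 3) / 3

theorem Psi_symm (S T : ℝ) : Psi S T = Psi T S := by
  unfold Psi
  rcases le_total S T with h | h
  · rw [max_eq_right (by linarith : S - T ≤ 0), max_eq_left (by linarith : 0 ≤ T - S)]; ring
  · rw [max_eq_left (by linarith : 0 ≤ S - T), max_eq_right (by linarith : T - S ≤ 0)]; ring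

theorem Psi_step {S T z : ℝ} (hz : 0 ≤ z) : Psi S T ≤ Psi S (T - z) + z * S ^ 2 := by
  unfold Psi
  have h1 : max (S - T) 0 ≤ max (S - (T - z)) 0 := max_le_max (by linarith) le_rfl
  have h2 : (max (S - T) 0) ^ 3 ≤ (max (S - (T - z)) 0) ^ 3 :=
    pow_le_pow_left₀ (le_max_right _ _) h1 3
  nlinarith

theorem Psi_le {S T : ℝ} (hS : 0 ≤ S) (hT : 0 ≤ T) : Psi S T ≤ T * S ^ 2 := by
  unfold Psi
  have h1 : max (S - T) 0 ≤ S := max_le (by linarith) hS
  have h2 : (max (S - T) 0) ^ 3 ≤ S ^ 3 := pow_le_pow_left₀ (le_max_right _ _) h1 3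
  nlinarith

theorem max_sq_ge {S a : ℝ} (hS : 0 ≤ S) (ha : a ≤ 0) : S ^ 2 ≤ (max (S - a) 0) ^ 2 := by
  have h : S ≤ max (S - a) 0 := le_trans (by linarith) (le_max_left _ _)
  exact pow_le_pow_left₀ hS h 2

theorem young_aux (w : V → ℝ) (hw : ∀ v, 0 < w v) (n : ℕ) : ∀ (Y W : Finset V) (a b : V → ℝ)
    (S T : ℝ), Y.card + W.card = n → 0 ≤ S → 0 ≤ T →
    (∀ s t, 0 < s → s ≤ S → 0 < t → t ≤ T →
      (t ≤ ∑ y ∈ Y.filter (fun y => a y < s), w y ∨ s ≤ ∑ x ∈ W.filter (fun x => b x < t), w x)) →
    Psi S T ≤ ∑ y ∈ Y, w y * (max (S - a y) 0) ^ 2 + ∑ x ∈ W, w x * (max (T - b x) 0) ^ 2 := by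
  induction n with
  | zero =>
    intro Y W a b S T hc hS hT h
    have hY : Y = ∅ := card_eq_zero.mp (by omega)
    have hW : W = ∅ := card_eq_zero.mp (by omega)
    subst hY; subst hW
    simp only [sum_empty, add_zero]
    rcases eq_or_lt_of_le hS with h1 | h1
    · rw [← h1]
      have := Psi_le (le_refl (0 : ℝ)) hT
      simpa using this
    · rcases eq_or_lt_of_le hT with h2 | h2
      · rw [← h2]
        have := Psi_le hS (le_refl (0 : ℝ))
        simpa using this
      · have := h S T h1 le_rfl h2 le_rfl
        simp only [filter_empty, sum_empty] at this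
        rcases this with h3 | h3 <;> linarith
  | succ n ih =>
    intro Y W a b S T hc hS hT h
    have nnY : ∀ Z : Finset V, 0 ≤ ∑ y ∈ Z, w y * (max (S - a y) 0) ^ 2 := fun Z =>
      sum_nonneg fun y _ => mul_nonneg (hw y).le (sq_nonneg _)
    have nnW : ∀ Z : Finset V, 0 ≤ ∑ x ∈ Z, w x * (max (T - b x) 0) ^ 2 := fun Z =>
      sum_nonneg fun y _ => mul_nonneg (hw y).le (sq_nonneg _)
    rcases eq_or_lt_of_le hS with hS0 | hS0
    · have h1 := Psi_le hS hT
      rw [← hS0] at h1 ⊢
      have h2 := nnY Y
      have h3 := nnW W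
      rw [← hS0] at h2
      nlinarith
    rcases eq_or_lt_of_le hT with hT0 | hT0
    · have h1 := Psi_le hS hT
      rw [← hT0] at h1 ⊢
      have h2 := nnY Y
      have h3 := nnW W
      rw [← hT0] at h3
      nlinarith
    by_cases hy : ∃ y0 ∈ Y, a y0 ≤ 0
    · obtain ⟨y0, hy0, ha0⟩ := hy
      have e1 : ∑ y ∈ Y, w y * (max (S - a y) 0) ^ 2 =
          ∑ y ∈ Y.erase y0, w y * (max (S - a y) 0) ^ 2 + w y0 * (max (S - a y0) 0) ^ 2 :=
        (sum_erase_add Y _ hy0).symm
      have e2 : w y0 * S ^ 2 ≤ w y0 * (max (S - a y0) 0) ^ 2 :=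
        mul_le_mul_of_nonneg_left (max_sq_ge hS ha0) (hw y0).le
      by_cases hlt : T ≤ w y0
      · have h1 := Psi_le hS hT
        have h2 : T * S ^ 2 ≤ w y0 * S ^ 2 := mul_le_mul_of_nonneg_right hlt (sq_nonneg _)
        have h3 := nnY (Y.erase y0)
        have h4 := nnW W
        rw [e1]; linarith
      · rw [not_le] at hlt
        have hcard : (Y.erase y0).card + W.card = n := by
          rw [card_erase_of_mem hy0]
          have : 0 < Y.card := card_pos.mpr ⟨y0, hy0⟩
          omega
        have h1 := ih (Y.erase y0) W a (fun x => b x - w y0) S (T - w y0) hcard hS (by linarith) ?_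
        · have h2 := Psi_step (S := S) (T := T) (hw y0).le
          have h3 : ∀ x, T - w y0 - (b x - w y0) = T - b x := fun x => by ring
          simp only [h3] at h1
          rw [e1]; linarith
        · intro s t hs1 hs2 ht1 ht2
          have h2 := h s (t + w y0) hs1 hs2 (by linarith [hw y0]) (by linarith)
          rcases h2 with h2 | h2
          · left
            have hmem : y0 ∈ Y.filter (fun y => a y < s) := mem_filter.mpr ⟨hy0, by linarith⟩
            have h3 : (Y.erase y0).filter (fun y => a y < s) = (Y.filter (fun y => a y < s)).erase y0 := by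
              ext v; simp only [mem_filter, mem_erase]; tauto
            rw [h3]
            have h4 := sum_erase_add (Y.filter (fun y => a y < s)) w hmem
            linarith
          · right
            have h3 : W.filter (fun x => b x - w y0 < t) = W.filter (fun x => b x < t + w y0) := by
              ext v; simp only [mem_filter, sub_lt_iff_lt_add]
            rw [h3]; exact h2
    by_cases hx : ∃ x0 ∈ W, b x0 ≤ 0
    · obtain ⟨x0, hx0, hb0⟩ := hx
      have e1 : ∑ x ∈ W, w x * (max (T - b x) 0) ^ 2 =
          ∑ x ∈ W.erase x0, w x * (max (T - b x) 0) ^ 2 + w x0 * (max (T - b x0) 0) ^ 2 :=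
        (sum_erase_add W _ hx0).symm
      have e2 : w x0 * T ^ 2 ≤ w x0 * (max (T - b x0) 0) ^ 2 :=
        mul_le_mul_of_nonneg_left (max_sq_ge hT hb0) (hw x0).le
      by_cases hlt : S ≤ w x0
      · have h1 := Psi_le hT hS
        rw [Psi_symm] at h1
        have h2 : S * T ^ 2 ≤ w x0 * T ^ 2 := mul_le_mul_of_nonneg_right hlt (sq_nonneg _)
        have h3 := nnY Y
        have h4 := nnW (W.erase x0)
        rw [e1]; linarith
      · rw [not_le] at hlt
        have hcard : Y.card + (W.erase x0).card = n := by
          rw [card_erase_of_mem hx0]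
          have : 0 < W.card := card_pos.mpr ⟨x0, hx0⟩
          omega
        have h1 := ih Y (W.erase x0) (fun y => a y - w x0) b (S - w x0) T hcard (by linarith) hT ?_
        · have h2 := Psi_step (S := T) (T := S) (hw x0).le
          rw [Psi_symm, Psi_symm T] at h2
          have h3 : ∀ y, S - w x0 - (a y - w x0) = S - a y := fun x => by ring
          simp only [h3] at h1
          rw [e1]; linarith
        · intro s t hs1 hs2 ht1 ht2
          have h2 := h (s + w x0) t (by linarith [hw x0]) (by linarith) ht1 ht2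
          rcases h2 with h2 | h2
          · left
            have h3 : Y.filter (fun y => a y - w x0 < s) = Y.filter (fun y => a y < s + w x0) := by
              ext v; simp only [mem_filter, sub_lt_iff_lt_add]
            rw [h3]; exact h2
          · right
            have hmem : x0 ∈ W.filter (fun x => b x < t) := mem_filter.mpr ⟨hx0, by linarith⟩
            have h3 : (W.erase x0).filter (fun x => b x < t) = (W.filter (fun x => b x < t)).erase x0 := by
              ext v; simp only [mem_filter, mem_erase]; tauto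
            rw [h3]
            have h4 := sum_erase_add (W.filter (fun x => b x < t)) w hmem
            linarith
    · exfalso
      -- all values positive: choose small s and t
      have hs : ∃ s, 0 < s ∧ s ≤ S ∧ Y.filter (fun y => a y < s) = ∅ := by
        rcases Y.eq_empty_or_nonempty with hYe | hYn
        · exact ⟨S, hS0, le_rfl, by rw [hYe]; rfl⟩
        · obtain ⟨y1, hy1, hmin⟩ := exists_min_image Y a hYn
          have hp : 0 < a y1 := by
            by_contra hc'
            exact hy ⟨y1, hy1, not_lt.mp hc'⟩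
          refine ⟨min S (a y1), lt_min hS0 hp, min_le_left _ _, ?_⟩
          rw [filter_eq_empty_iff]
          intro v hv hlt
          have := hmin v hv
          have h2 := min_le_right S (a y1)
          linarith
      have ht : ∃ t, 0 < t ∧ t ≤ T ∧ W.filter (fun x => b x < t) = ∅ := by
        rcases W.eq_empty_or_nonempty with hWe | hWn
        · exact ⟨T, hT0, le_rfl, by rw [hWe]; rfl⟩
        · obtain ⟨x1, hx1, hmin⟩ := exists_min_image W b hWn
          have hp : 0 < b x1 := by
            by_contra hc'
            exact hx ⟨x1, hx1, not_lt.mp hc'⟩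
          refine ⟨min T (b x1), lt_min hT0 hp, min_le_left _ _, ?_⟩
          rw [filter_eq_empty_iff]
          intro v hv hlt
          have := hmin v hv
          have h2 := min_le_right T (b x1)
          linarith
      obtain ⟨s, hs1, hs2, hs3⟩ := hs
      obtain ⟨t, ht1, ht2, ht3⟩ := ht
      have := h s t hs1 hs2 ht1 ht2
      rw [hs3, ht3, sum_empty] at this
      rcases this with h3 | h3 <;> linarith

theorem young {w : V → ℝ} (hw : ∀ v, 0 < w v) (Y W : Finset V) (a b : V → ℝ) {L p : ℝ}
    (hp : L ≤ p)
    (h : ∀ s t, L < s → s ≤ p → L < t → t ≤ p →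
      (t - L ≤ ∑ y ∈ Y.filter (fun y => a y < s), w y ∨
        s - L ≤ ∑ x ∈ W.filter (fun x => b x < t), w x)) :
    2 / 3 * (p - L) ^ 3 ≤
      ∑ y ∈ Y, w y * (max (p - a y) 0) ^ 2 + ∑ x ∈ W, w x * (max (p - b x) 0) ^ 2 := by
  have h1 := young_aux w hw _ Y W (fun y => a y - L) (fun x => b x - L) (p - L) (p - L) rfl
    (by linarith) (by linarith) ?_
  · have e1 : Psi (p - L) (p - L) = 2 / 3 * (p - L) ^ 3 := by
      unfold Psi
      rw [sub_self, max_self]; ring
    have e2 : ∀ c : ℝ, p - L - (c - L) = p - c := fun c => by ring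
    simp only [e2] at h1
    rw [e1] at h1
    exact h1
  · intro s t hs1 hs2 ht1 ht2
    have h2 := h (s + L) (t + L) (by linarith) (by linarith) (by linarith) (by linarith)
    simp only [sub_lt_iff_lt_add]
    rcases h2 with h2 | h2
    · left; linarith
    · right; linarith

end Pool.Agent.W841.FF
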