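import Pool.Agent.W841.FF.CL
import Pool.Agent.W841.FF.Young

/-! Forced variance between two parts. -/

set_option autoImplicit false

open Finset
open scoped Classical

namespace Pool.Agent.W841.FF

variable {V : Type}

theorem TT_mono {A : V → V → Prop} {w : V → ℝ} (hw : ∀ v, 0 < w v) {Y W Y' W' : Finset V}
    (hY : Y' ⊆ Y) (hW : W' ⊆ W) : TT A w Y' W' ≤ TT A w Y W := by
  have h1 : ∀ {Z Z' : Finset V}, Z' ⊆ Z → NN A w Z' ≤ NN A w Z := by
    intro Z Z' h
    unfold NN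
    refine (sum_le_sum_of_subset_of_nonneg h ?_).trans (sum_le_sum fun x _ => ?_)
    · intro u _ _
      exact sum_nonneg fun v _ => mul_nonneg (mul_nonneg (hw _).le (hw _).le) (ad_nonneg _ _ _)
    · exact sum_le_sum_of_subset_of_nonneg h
        (fun v _ _ => mul_nonneg (mul_nonneg (hw _).le (hw _).le) (ad_nonneg _ _ _))
  have h2 : MM A w Y' W' ≤ MM A w Y W := by
    unfold MM
    refine (sum_le_sum_of_subset_of_nonneg hY ?_).trans (sum_le_sum fun x _ => ?_)
    · intro u _ _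
      exact sum_nonneg fun v _ => mul_nonneg (mul_nonneg (hw _).le (hw _).le)
        (by linarith [ad_le_one A u v])
    · exact sum_le_sum_of_subset_of_nonneg hW
        (fun v _ _ => mul_nonneg (mul_nonneg (hw _).le (hw _).le) (by linarith [ad_le_one A x v]))
  unfold TT
  linarith [h1 hY, h1 hW]

theorem chain_var {A : V → V → Prop} (hA : Good A) {w : V → ℝ} (hw : ∀ v, 0 < w v)
    (Y W : Finset V) {L p : ℝ} (hL : 0 ≤ L) (hT : TT A w Y W ≤ 3 / 8 * L ^ 2) (hp : L ≤ p)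
    (hpY : p ≤ ∑ y ∈ Y, w y) :
    2 / 3 * (p - L) ^ 3 ≤ ∑ y ∈ Y, w y * (max (p - ∑ u ∈ W, w u * ar A y u) 0) ^ 2 +
      ∑ x ∈ W, w x * (max (p - ∑ u ∈ Y, w u * ar A x u) 0) ^ 2 := by
  refine young hw Y W (fun y => ∑ u ∈ W, w u * ar A y u) (fun x => ∑ u ∈ Y, w u * ar A x u) hp ?_
  intro s t _ _ _ ht
  by_contra hcon
  rw [not_or, not_le, not_le] at hcon
  obtain ⟨h1, h2⟩ := hcon
  set f := ∑ y ∈ Y.filter (fun y => ∑ u ∈ W, w u * ar A y u < s), w y with hf
  set g := ∑ x ∈ W.filter (fun x => ∑ u ∈ Y, w u * ar A x u < t), w x with hg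
  set Y' := Y.filter (fun y => ¬ (∑ u ∈ W, w u * ar A y u < s)) with hY'
  set W' := W.filter (fun x => ¬ (∑ u ∈ Y, w u * ar A x u < t)) with hW'
  have hsY : f + ∑ y ∈ Y', w y = ∑ y ∈ Y, w y := sum_filter_add_sum_filter_not _ _ _
  have hYne : Y'.Nonempty := by
    have : 0 < ∑ y ∈ Y', w y := by linarith
    exact nonempty_of_sum_ne_zero this.ne'
  set L2 := min (s - g) (t - f) with hL2
  have hL2' : L < L2 := lt_min (by linarith) (by linarith)
  have hL2a : L2 ≤ s - g := min_le_left _ _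
  have hL2b : L2 ≤ t - f := min_le_right _ _
  have up : ∀ (Z : Finset V) (y : V), ∑ u ∈ Z, w u * ar A y u ≤ ∑ u ∈ Z, w u := by
    intro Z y
    refine sum_le_sum fun u _ => ?_
    have := mul_le_mul_of_nonneg_left (ar_le_one A y u) (hw u).le
    linarith
  have h3 := CL hA hw Y' W' (lt_of_le_of_lt hL hL2') hYne ?_ ?_
  · have h4 := TT_mono (A := A) hw (filter_subset _ _ : Y' ⊆ Y) (filter_subset _ _ : W' ⊆ W)
    have h5 : L2 ^ 2 ≤ L ^ 2 := by linarith
    have h6 : L ^ 2 < L2 ^ 2 := pow_lt_pow_left₀ hL2' hL two_ne_zero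
    linarith
  · intro y hy
    rw [hY', mem_filter, not_lt] at hy
    have e : ∑ u ∈ W, w u * ar A y u = ∑ u ∈ W.filter (fun x => ∑ u ∈ Y, w u * ar A x u < t), w u * ar A y u
      + ∑ u ∈ W', w u * ar A y u := (sum_filter_add_sum_filter_not _ _ _).symm
    have h4 := up (W.filter (fun x => ∑ u ∈ Y, w u * ar A x u < t)) y
    have h5 := hy.2
    linarith
  · intro x hx
    rw [hW', mem_filter, not_lt] at hx
    have e : ∑ u ∈ Y, w u * ar A x u = ∑ u ∈ Y.filter (fun y => ∑ u ∈ W, w u * ar A y u < s), w u * ar A x u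
      + ∑ u ∈ Y', w u * ar A x u := (sum_filter_add_sum_filter_not _ _ _).symm
    have h4 := up (Y.filter (fun y => ∑ u ∈ W, w u * ar A y u < s)) x
    have h5 := hx.2
    linarith

end Pool.Agent.W841.FF
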