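import Mathlib

/-! A numerical lemma on one vertex and a nearly balanced partition. -/

set_option autoImplicit false

namespace Pool.Agent.W841.FF

theorem two_ends {a n : ℝ} (ha : 1121 / 5000 ≤ a) (h : n * (a - n) ≤ 94082 / 10000000) :
    n ≤ 56 / 1000 ∨ a - 56 / 1000 ≤ n := by
  by_contra hc
  rw [not_or, not_le, not_le] at hc
  obtain ⟨h1, h2⟩ := hc
  nlinarith [mul_pos (sub_pos.mpr h1) (sub_pos.mpr h2)]

theorem pw {a0 a1 a2 n0 n1 n2 : ℝ} (hs : a0 + a1 + a2 = 1)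
    (h0 : 0 ≤ n0) (h1 : 0 ≤ n1) (h2 : 0 ≤ n2) (h0' : n0 ≤ a0) (h1' : n1 ≤ a1) (h2' : n2 ≤ a2)
    (b0 : 1121 / 5000 ≤ a0) (b1 : 1121 / 5000 ≤ a1) (b2 : 1121 / 5000 ≤ a2)
    (c1 : a1 ≤ 4425 / 10000) (c2 : a2 ≤ 4425 / 10000)
    (l1 : a0 - 2 * n0 ≤ a1 - 2 * n1) (l2 : a0 - 2 * n0 ≤ a2 - 2 * n2)
    (hQ : (n0 + n1 + n2 - 1 / 3) ^ 2 + 1 / 40 * (n0 + n1 + n2 - 1 / 3) +
      2 * (n0 * (a0 - n0) + n1 * (a1 - n1) + n2 * (a2 - n2)) ≤ 933 / 50000) :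
    (a0 - n0) + n1 + n2 ≤ 534 / 10000 := by
  have p0 : 0 ≤ n0 * (a0 - n0) := mul_nonneg h0 (by linarith)
  have p1 : 0 ≤ n1 * (a1 - n1) := mul_nonneg h1 (by linarith)
  have p2 : 0 ≤ n2 * (a2 - n2) := mul_nonneg h2 (by linarith)
  have q : -(1 / 6400) ≤ (n0 + n1 + n2 - 1 / 3) ^ 2 + 1 / 40 * (n0 + n1 + n2 - 1 / 3) := by
    nlinarith [sq_nonneg (n0 + n1 + n2 - 1 / 3 + 1 / 80)]
  have e0 := two_ends b0 (show n0 * (a0 - n0) ≤ 94082 / 10000000 by linarith)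
  have e1 := two_ends b1 (show n1 * (a1 - n1) ≤ 94082 / 10000000 by linarith)
  have e2 := two_ends b2 (show n2 * (a2 - n2) ≤ 94082 / 10000000 by linarith)
  -- n0 is large
  have f0 : a0 - 56 / 1000 ≤ n0 := by
    rcases e0 with e0 | e0
    · exfalso
      have g1 : n1 ≤ 56 / 1000 := by
        rcases e1 with e1 | e1
        · exact e1
        · exfalso; linarith
      have g2 : n2 ≤ 56 / 1000 := by
        rcases e2 with e2 | e2
        · exact e2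
        · exfalso; linarith
      have t0 : n0 * (1682 / 10000) ≤ n0 * (a0 - n0) := mul_le_mul_of_nonneg_left (by linarith) h0
      have t1 : n1 * (1682 / 10000) ≤ n1 * (a1 - n1) := mul_le_mul_of_nonneg_left (by linarith) h1
      have t2 : n2 * (1682 / 10000) ≤ n2 * (a2 - n2) := mul_le_mul_of_nonneg_left (by linarith) h2
      nlinarith [sq_nonneg (n0 + n1 + n2 - 153 / 1000)]
    · exact e0
  -- n1, n2 are small
  have far : ∀ a n a' : ℝ, a0 + a + a' = 1 → 1121 / 5000 ≤ a → a' ≤ 4425 / 10000 → n ≤ a →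
      a - 56 / 1000 ≤ n →
      (n0 + n1 + n2 - 1 / 3) ^ 2 + 1 / 40 * (n0 + n1 + n2 - 1 / 3) +
      2 * (n0 * (a0 - n0) + n * (a - n)) ≤ 933 / 50000 → n0 + n ≤ n0 + n1 + n2 → False := by
    intro a n a' hs' ha ha' hna hn hq hle
    have hpos : 0 ≤ n0 + n - 1 / 3 := by linarith
    have s1 : (n0 + n - 1 / 3) ^ 2 ≤ (n0 + n1 + n2 - 1 / 3) ^ 2 :=
      pow_le_pow_left₀ hpos (by linarith) 2
    have t0 : (1682 / 10000) * (a0 - n0) ≤ n0 * (a0 - n0) :=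
      mul_le_mul_of_nonneg_right (by linarith) (by linarith)
    have t1 : (1682 / 10000) * (a - n) ≤ n * (a - n) :=
      mul_le_mul_of_nonneg_right (by linarith) (by linarith)
    have hz : 2241 / 10000 - ((a0 - n0) + (a - n)) ≤ n0 + n - 1 / 3 := by linarith
    have hz0 : 0 ≤ 2241 / 10000 - ((a0 - n0) + (a - n)) := by linarith
    have s2 : (2241 / 10000 - ((a0 - n0) + (a - n))) ^ 2 ≤ (n0 + n - 1 / 3) ^ 2 :=
      pow_le_pow_left₀ hz0 hz 2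
    nlinarith [sq_nonneg ((a0 - n0) + (a - n) - 56 / 1000)]
  have f1 : n1 ≤ 56 / 1000 := by
    rcases e1 with e1 | e1
    · exact e1
    · exact (far a1 n1 a2 hs b1 c2 h1' e1 (by linarith) (by linarith)).elim
  have f2 : n2 ≤ 56 / 1000 := by
    rcases e2 with e2 | e2
    · exact e2
    · exact (far a2 n2 a1 (by linarith) b2 c1 h2' e2 (by linarith) (by linarith)).elim
  -- the final estimate
  obtain ⟨s, hsd⟩ : ∃ s, s = a0 - n0 := ⟨_, rfl⟩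
  have hs0 : 0 ≤ s := by linarith
  have hs1 : s ≤ 56 / 1000 := by linarith
  have hn0 : n0 = a0 - s := by linarith
  have ha0 : a0 = 1 - a1 - a2 := by linarith
  have hexp : (n0 + n1 + n2 - 1 / 3) ^ 2 + 1 / 40 * (n0 + n1 + n2 - 1 / 3) +
      2 * (n0 * (a0 - n0) + n1 * (a1 - n1) + n2 * (a2 - n2)) =
      ((a0 - 1 / 3) ^ 2 + 1 / 40 * (a0 - 1 / 3)) + s * (2 / 3 - 1 / 40 - s) + 2 * (n1 * n2) +
      n1 * (2 * (2 / 3 - a2) - 2 * s - n1 + 1 / 40) + n2 * (2 * (2 / 3 - a1) - 2 * s - n2 + 1 / 40) := by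
    rw [hn0, ha0]; ring
  rw [hexp] at hQ
  have r0 : -(1 / 6400) ≤ (a0 - 1 / 3) ^ 2 + 1 / 40 * (a0 - 1 / 3) := by
    nlinarith [sq_nonneg (a0 - 1 / 3 + 1 / 80)]
  have r1 : s * (5856 / 10000) ≤ s * (2 / 3 - 1 / 40 - s) := mul_le_mul_of_nonneg_left (by linarith) hs0
  have r2 : 0 ≤ n1 * n2 := mul_nonneg h1 h2
  have r3 : n1 * (28 / 100) ≤ n1 * (2 * (2 / 3 - a2) - 2 * s - n1 + 1 / 40) :=
    mul_le_mul_of_nonneg_left (by linarith) h1
  have r4 : n2 * (28 / 100) ≤ n2 * (2 * (2 / 3 - a1) - 2 * s - n2 + 1 / 40) :=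
    mul_le_mul_of_nonneg_left (by linarith) h2
  have hs2 : s ≤ 3214 / 100000 := by nlinarith
  have r5 : n1 * (3531 / 10000) ≤ n1 * (2 * (2 / 3 - a2) - 2 * s - n1 + 1 / 40) :=
    mul_le_mul_of_nonneg_left (by linarith) h1
  have r6 : n2 * (3531 / 10000) ≤ n2 * (2 * (2 / 3 - a1) - 2 * s - n2 + 1 / 40) :=
    mul_le_mul_of_nonneg_left (by linarith) h2
  nlinarith

end Pool.Agent.W841.FF
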