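import Pool.Agent.W841.FF.Opti
import Pool.Agent.W841.FF.Chain
import Pool.Agent.W841.FF.Bounds
import Pool.Agent.W841.FF.Pw

/-! Preparations for the main argument. -/

set_option autoImplicit false

open Finset
open scoped Classical

namespace Pool.Agent.W841.FF

variable {V : Type} [Fintype V]

theorem Zs_nonneg {A : V → V → Prop} {w : V → ℝ} (hw : ∀ v, 0 ≤ w v) : 0 ≤ Zs A w :=
  sum_nonneg fun v _ => mul_nonneg (hw v) (sq_nonneg _)

omit [Fintype V] in
theorem II_nonneg (P : V → Fin 3) (i : Fin 3) (v : V) : 0 ≤ II P i v := by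
  unfold II; split_ifs <;> norm_num

theorem nn_nonneg {A : V → V → Prop} {w : V → ℝ} (hw : ∀ v, 0 ≤ w v) (P : V → Fin 3) (i : Fin 3) :
    0 ≤ nn A w P i := sum_nonneg fun u _ => mul_nonneg (hw u) <| sum_nonneg fun v _ =>
      mul_nonneg (hw v) (mul_nonneg (mul_nonneg (II_nonneg _ _ _) (II_nonneg _ _ _)) (ad_nonneg _ _ _))

theorem mm_nonneg {A : V → V → Prop} {w : V → ℝ} (hw : ∀ v, 0 ≤ w v) (P : V → Fin 3)
    (i j : Fin 3) : 0 ≤ mm A w P i j := sum_nonneg fun u _ => mul_nonneg (hw u) <|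
      sum_nonneg fun v _ => mul_nonneg (hw v) (mul_nonneg (mul_nonneg (II_nonneg _ _ _)
        (II_nonneg _ _ _)) (by linarith [ad_le_one A u v]))

theorem nv_nonneg {A : V → V → Prop} {w : V → ℝ} (hw : ∀ v, 0 ≤ w v) (P : V → Fin 3) (v : V)
    (i : Fin 3) : 0 ≤ nv A w P v i := sum_nonneg fun u _ => mul_nonneg (hw u)
      (mul_nonneg (II_nonneg _ _ _) (by linarith [ad_le_one A v u]))

theorem nv_le {A : V → V → Prop} {w : V → ℝ} (hw : ∀ v, 0 ≤ w v) (P : V → Fin 3) (v : V)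
    (i : Fin 3) : nv A w P v i ≤ aa w P i := by
  unfold nv aa
  refine sum_le_sum fun u _ => mul_le_mul_of_nonneg_left ?_ (hw u)
  have h1 := II_nonneg P i u
  have h2 := ad_nonneg A v u
  nlinarith

theorem eta_nonneg {A : V → V → Prop} {w : V → ℝ} (hw : ∀ v, 0 ≤ w v) (P : V → Fin 3) (v : V) :
    0 ≤ eta A w P v := sum_nonneg fun u _ => mul_nonneg (hw u) (hd_nonneg _ _ _ _)

theorem Tot_nonneg {A : V → V → Prop} {w : V → ℝ} (hw : ∀ v, 0 ≤ w v) (P : V → Fin 3) :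
    0 ≤ Tot A w P := sum_nonneg fun v _ => mul_nonneg (hw v) (eta_nonneg hw _ _)

theorem Tot_eq {A : V → V → Prop} {w : V → ℝ} (P : V → Fin 3) :
    Tot A w P = nn A w P 0 + nn A w P 1 + nn A w P 2 +
      2 * (mm A w P 0 1 + mm A w P 0 2 + mm A w P 1 2) := eta_sum P

theorem dev {x y z : ℝ} (h : x ^ 2 + y ^ 2 + z ^ 2 ≤ 178367 / 10000000) (hx : x + y + z = 0) :
    -(1091 / 10000) ≤ x ∧ x ≤ 1091 / 10000 := by
  have h1 : x ^ 2 ≤ (1091 / 10000) ^ 2 := by
    have : z = -x - y := by linarith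
    subst this
    nlinarith [sq_nonneg (x + 2 * y)]
  exact abs_le.mp (abs_le_of_sq_le_sq h1 (by norm_num))

/-- numerical information on an optimal partition -/
theorem info {A : V → V → Prop} (hA : Good A) {w : V → ℝ} (hw : ∀ v, 0 < w v)
    (hs : ∑ v, w v = 1) (hD : DD A w < 4 / 9) {P : V → Fin 3}
    (hP : ∀ P' : V → Fin 3, Tot A w P ≤ Tot A w P') :
    Tot A w P ≤ 467 / 100000 ∧ 2 / 3 - EE A w ≤ 79 / 6000 ∧
      40 * Zs A w + Tot A w P ≤ 305 / 30000 ∧
      (∀ i, -(1091 / 10000) ≤ aa w P i - 1 / 3 ∧ aa w P i - 1 / 3 ≤ 1091 / 10000) := by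
  have hw' : ∀ v, 0 ≤ w v := fun v => (hw v).le
  have h1 := boundA hA hw' hs
  have h2 := boundB hA hw' hs
  rw [SS_Zs hA hs] at h2
  have h3 := Tot_HH hw' P hP
  have h4 := Zs_nonneg (A := A) hw'
  have h5 := Tot_nonneg (A := A) hw' P
  have hE1 : 6535 / 10000 < EE A w := by linarith
  have h6 : Tot A w P * (6535 / 10000) ≤ HH A w :=
    (mul_le_mul_of_nonneg_left hE1.le h5).trans h3
  have h7 : Tot A w P ≤ 467 / 100000 := by linarith
  have h8 : 2 / 3 - EE A w ≤ 79 / 6000 := by linarith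
  refine ⟨h7, h8, by linarith, ?_⟩
  have h9 := EE_eq (A := A) hs P
  have h10 := aa_sum hs P
  have h11 := Tot_eq (A := A) (w := w) P
  have m1 := mm_nonneg (A := A) hw' P 0 1
  have m2 := mm_nonneg (A := A) hw' P 0 2
  have m3 := mm_nonneg (A := A) hw' P 1 2
  have hsq : (aa w P 0 - 1 / 3) ^ 2 + (aa w P 1 - 1 / 3) ^ 2 + (aa w P 2 - 1 / 3) ^ 2 ≤
      178367 / 10000000 := by nlinarith
  intro i
  fin_cases i
  · exact dev (x := aa w P 0 - 1 / 3) (y := aa w P 1 - 1 / 3) (z := aa w P 2 - 1 / 3)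
      (by linarith) (by linarith)
  · exact dev (x := aa w P 1 - 1 / 3) (y := aa w P 0 - 1 / 3) (z := aa w P 2 - 1 / 3)
      (by linarith) (by linarith)
  · exact dev (x := aa w P 2 - 1 / 3) (y := aa w P 0 - 1 / 3) (z := aa w P 1 - 1 / 3)
      (by linarith) (by linarith)

theorem eta_le {A : V → V → Prop} (hA : Good A) {w : V → ℝ} (hw : ∀ v, 0 < w v)
    (hs : ∑ v, w v = 1) (hD : DD A w < 4 / 9) (hdeg : ∀ v, deg A w v ≤ 4 / 9)
    {P : V → Fin 3} (hP : ∀ P' : V → Fin 3, Tot A w P ≤ Tot A w P') (v : V) :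
    eta A w P v ≤ 534 / 10000 := by
  have hw' : ∀ v, 0 ≤ w v := fun v => (hw v).le
  obtain ⟨i1, i2, i3, i4⟩ := info hA hw hs hD hP
  have h1 := point_le hA hw hs (hdeg v) (l := 1 / 40) (by norm_num)
  have h2 := kp_ge (A := A) hw' P v
  have h3 := Tot_eq (A := A) (w := w) P
  have h4 := aa_sum hs P
  have m1 := mm_nonneg (A := A) hw' P 0 1
  have m2 := mm_nonneg (A := A) hw' P 0 2
  have m3 := mm_nonneg (A := A) hw' P 1 2
  have p0 := nv_nonneg (A := A) hw' P v 0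
  have p1 := nv_nonneg (A := A) hw' P v 1
  have p2 := nv_nonneg (A := A) hw' P v 2
  have q0 := nv_le (A := A) hw' P v 0
  have q1 := nv_le (A := A) hw' P v 1
  have q2 := nv_le (A := A) hw' P v 2
  have a0 := i4 0
  have a1 := i4 1
  have a2 := i4 2
  have l0 := local_opt hA hw P hP v 0
  have l1 := local_opt hA hw P hP v 1
  have l2 := local_opt hA hw P hP v 2
  rw [eta_nv]
  rw [nb_nv P v] at h1 ⊢
  have hQ : (nv A w P v 0 + nv A w P v 1 + nv A w P v 2 - 1 / 3) ^ 2 +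
      1 / 40 * (nv A w P v 0 + nv A w P v 1 + nv A w P v 2 - 1 / 3) +
      2 * (nv A w P v 0 * (aa w P 0 - nv A w P v 0) + nv A w P v 1 * (aa w P 1 - nv A w P v 1) +
        nv A w P v 2 * (aa w P 2 - nv A w P v 2)) ≤ 933 / 50000 := by
    have e : Zs A w / (1 / 40) = 40 * Zs A w := by ring
    rw [e] at h1
    linarith
  rcases II_cases P v with ⟨h, -, -, -⟩ | ⟨h, -, -, -⟩ | ⟨h, -, -, -⟩
  · rw [h] at l0 l1 l2 ⊢
    have := pw (a0 := aa w P 0) (a1 := aa w P 1) (a2 := aa w P 2) (n0 := nv A w P v 0)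
      (n1 := nv A w P v 1) (n2 := nv A w P v 2) h4 p0 p1 p2 q0 q1 q2 (by linarith [a0.1])
      (by linarith [a1.1]) (by linarith [a2.1]) (by linarith [a1.2]) (by linarith [a2.2]) l1 l2 hQ
    linarith
  · rw [h] at l0 l1 l2 ⊢
    have := pw (a0 := aa w P 1) (a1 := aa w P 0) (a2 := aa w P 2) (n0 := nv A w P v 1)
      (n1 := nv A w P v 0) (n2 := nv A w P v 2) (by linarith) p1 p0 p2 q1 q0 q2 (by linarith [a1.1])
      (by linarith [a0.1]) (by linarith [a2.1]) (by linarith [a0.2]) (by linarith [a2.2]) l0 l2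
      (by rw [add_comm (nv A w P v 1) (nv A w P v 0)]; linarith)
    linarith
  · rw [h] at l0 l1 l2 ⊢
    have := pw (a0 := aa w P 2) (a1 := aa w P 1) (a2 := aa w P 0) (n0 := nv A w P v 2)
      (n1 := nv A w P v 1) (n2 := nv A w P v 0) (by linarith) p2 p1 p0 q2 q1 q0 (by linarith [a2.1])
      (by linarith [a1.1]) (by linarith [a0.1]) (by linarith [a1.2]) (by linarith [a0.2]) l1 l0
      (by
        have e : nv A w P v 2 + nv A w P v 1 + nv A w P v 0 =
          nv A w P v 0 + nv A w P v 1 + nv A w P v 2 := by ring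
        rw [e]; linarith)
    linarith

end Pool.Agent.W841.FF
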