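import Pool.Agent.W841.FF.Core1

/-! The variance forced between the two large parts. -/

set_option autoImplicit false

open Finset
open scoped Classical

namespace Pool.Agent.W841.FF

variable {V : Type} [Fintype V]

noncomputable def PP (P : V → Fin 3) (i : Fin 3) : Finset V := univ.filter (fun v => P v = i)

theorem sum_PP (w : V → ℝ) (P : V → Fin 3) (i : Fin 3) (f : V → ℝ) :
    ∑ v ∈ PP P i, w v * f v = ∑ v, w v * (II P i v * f v) := by
  unfold PP II
  rw [sum_filter]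
  refine sum_congr rfl fun v _ => ?_
  split_ifs <;> ring

theorem aa_PP (w : V → ℝ) (P : V → Fin 3) (i : Fin 3) : ∑ v ∈ PP P i, w v = aa w P i := by
  unfold PP aa II
  rw [sum_filter]
  refine sum_congr rfl fun v _ => ?_
  split_ifs <;> ring

theorem nn_PP (A : V → V → Prop) (w : V → ℝ) (P : V → Fin 3) (i : Fin 3) :
    NN A w (PP P i) = nn A w P i := by
  unfold NN nn
  have h : ∀ u, ∑ v ∈ PP P i, w u * w v * ad A u v = w u * ∑ v, w v * (II P i v * ad A u v) := by
    intro u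
    rw [← sum_PP, mul_sum]
    exact sum_congr rfl fun v _ => by ring
  simp only [h]
  rw [sum_PP]
  refine sum_congr rfl fun u _ => ?_
  congr 1
  rw [mul_sum]
  exact sum_congr rfl fun v _ => by ring

theorem mm_PP (A : V → V → Prop) (w : V → ℝ) (P : V → Fin 3) (i j : Fin 3) :
    MM A w (PP P i) (PP P j) = mm A w P i j := by
  unfold MM mm
  have h : ∀ u, ∑ v ∈ PP P j, w u * w v * (1 - ad A u v) =
      w u * ∑ v, w v * (II P j v * (1 - ad A u v)) := by
    intro u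
    rw [← sum_PP, mul_sum]
    exact sum_congr rfl fun v _ => by ring
  simp only [h]
  rw [sum_PP]
  refine sum_congr rfl fun u _ => ?_
  congr 1
  rw [mul_sum]
  exact sum_congr rfl fun v _ => by ring

/-- out-weight of `v` in the part `i` -/
noncomputable def rr (A : V → V → Prop) (w : V → ℝ) (P : V → Fin 3) (i : Fin 3) (v : V) : ℝ :=
  ∑ u ∈ PP P i, w u * ar A v u

theorem rr_nonneg {A : V → V → Prop} {w : V → ℝ} (hw : ∀ v, 0 ≤ w v) (P : V → Fin 3) (i : Fin 3)
    (v : V) : 0 ≤ rr A w P i v := sum_nonneg fun u _ => mul_nonneg (hw u) (ar_nonneg _ _ _)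

theorem rr_le {A : V → V → Prop} {w : V → ℝ} (hw : ∀ v, 0 ≤ w v) (P : V → Fin 3) (i : Fin 3)
    (v : V) : rr A w P i v ≤ aa w P i := by
  rw [← aa_PP]
  refine sum_le_sum fun u _ => ?_
  have := mul_le_mul_of_nonneg_left (ar_le_one A v u) (hw u)
  linarith

theorem op_rr (A : V → V → Prop) (w : V → ℝ) (P : V → Fin 3) (v : V) :
    op A w v = rr A w P 0 v + rr A w P 1 v + rr A w P 2 v := by
  unfold op rr
  rw [sum_PP, sum_PP, sum_PP, ← sum_add_distrib, ← sum_add_distrib]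
  refine sum_congr rfl fun u _ => ?_
  rcases II_cases P u with ⟨h, h0, h1, h2⟩ | ⟨h, h0, h1, h2⟩ | ⟨h, h0, h1, h2⟩ <;>
    rw [h0, h1, h2] <;> ring

theorem rr_half {A : V → V → Prop} (hA : Good A) (w : V → ℝ) (P : V → Fin 3) (i : Fin 3) :
    ∑ v ∈ PP P i, w v * rr A w P i v = nn A w P i / 2 := by
  have h : nn A w P i = ∑ v ∈ PP P i, w v * rr A w P i v + ∑ v ∈ PP P i, w v * rr A w P i v := by
    rw [← nn_PP]
    have e1 : ∑ v ∈ PP P i, w v * rr A w P i v = ∑ u ∈ PP P i, ∑ v ∈ PP P i, w u * w v * ar A u v := by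
      unfold rr
      refine sum_congr rfl fun u _ => ?_
      rw [mul_sum]
      exact sum_congr rfl fun v _ => by ring
    have e2 : ∑ v ∈ PP P i, w v * rr A w P i v = ∑ u ∈ PP P i, ∑ v ∈ PP P i, w u * w v * ar A v u := by
      rw [e1, sum_comm]
      exact sum_congr rfl fun u _ => sum_congr rfl fun v _ => by ring
    nth_rewrite 2 [e2]
    rw [e1, ← sum_add_distrib]
    unfold NN
    refine sum_congr rfl fun u _ => ?_
    rw [← sum_add_distrib]
    refine sum_congr rfl fun v _ => ?_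
    rw [ad_eq hA]; ring
  linarith

theorem sq_drop {π r s o : ℝ} (hπ : 0 ≤ π) (hr : 0 ≤ r) (hs : 0 ≤ s) (ho : o ≤ -π + r + s) :
    (max (π - r) 0) ^ 2 - 2 * π * s ≤ o ^ 2 := by
  rcases le_total (π - r) 0 with h | h
  · rw [max_eq_right h]
    nlinarith [mul_nonneg hπ hs, sq_nonneg o]
  · rw [max_eq_left h]
    rcases le_total (π - r) s with h2 | h2
    · nlinarith [mul_nonneg hπ hs, sq_nonneg o, mul_nonneg h hs, mul_nonneg hr hs]
    · nlinarith [mul_nonneg hπ hs, sq_nonneg o, mul_nonneg h hs, mul_nonneg hr hs,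
        mul_nonneg (sub_nonneg.mpr h2) (sub_nonneg.mpr h2)]

/-- forced variance: parts 1 and 2 are the large ones -/
theorem var_ge {A : V → V → Prop} (hA : Good A) {w : V → ℝ} (hw : ∀ v, 0 < w v)
    (P : V → Fin 3) {π : ℝ} (hπ : 0 ≤ π) (h0 : aa w P 0 ≤ 1 / 3 - π) :
    ∑ y ∈ PP P 1, w y * (max (π - rr A w P 2 y) 0) ^ 2 +
      ∑ y ∈ PP P 2, w y * (max (π - rr A w P 1 y) 0) ^ 2 -
      π * (nn A w P 1 + nn A w P 2) ≤ Zs A w := by
  have hw' : ∀ v, 0 ≤ w v := fun v => (hw v).le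
  have k1 : ∑ y ∈ PP P 1, w y * (max (π - rr A w P 2 y) 0) ^ 2 - π * nn A w P 1 ≤
      ∑ v, w v * (II P 1 v * (op A w v - 1 / 3) ^ 2) := by
    rw [← sum_PP]
    have e : π * nn A w P 1 = ∑ y ∈ PP P 1, w y * (2 * π * rr A w P 1 y) := by
      have := rr_half hA w P 1
      have e2 : ∑ y ∈ PP P 1, w y * (2 * π * rr A w P 1 y) =
          2 * π * ∑ v ∈ PP P 1, w v * rr A w P 1 v := by
        rw [mul_sum]
        exact sum_congr rfl fun y _ => by ring
      rw [e2, this]; ring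
    rw [e, ← sum_sub_distrib]
    refine sum_le_sum fun y _ => ?_
    rw [← mul_sub]
    refine mul_le_mul_of_nonneg_left ?_ (hw' y)
    refine sq_drop hπ (rr_nonneg hw' _ _ _) (rr_nonneg hw' _ _ _) ?_
    rw [op_rr A w P]
    have := rr_le (A := A) hw' P 0 y
    linarith
  have k2 : ∑ y ∈ PP P 2, w y * (max (π - rr A w P 1 y) 0) ^ 2 - π * nn A w P 2 ≤
      ∑ v, w v * (II P 2 v * (op A w v - 1 / 3) ^ 2) := by
    rw [← sum_PP]
    have e : π * nn A w P 2 = ∑ y ∈ PP P 2, w y * (2 * π * rr A w P 2 y) := by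
      have := rr_half hA w P 2
      have e2 : ∑ y ∈ PP P 2, w y * (2 * π * rr A w P 2 y) =
          2 * π * ∑ v ∈ PP P 2, w v * rr A w P 2 v := by
        rw [mul_sum]
        exact sum_congr rfl fun y _ => by ring
      rw [e2, this]; ring
    rw [e, ← sum_sub_distrib]
    refine sum_le_sum fun y _ => ?_
    rw [← mul_sub]
    refine mul_le_mul_of_nonneg_left ?_ (hw' y)
    refine sq_drop hπ (rr_nonneg hw' _ _ _) (rr_nonneg hw' _ _ _) ?_
    rw [op_rr A w P]
    have := rr_le (A := A) hw' P 0 y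
    linarith
  have k3 : ∑ v, w v * (II P 1 v * (op A w v - 1 / 3) ^ 2) +
      ∑ v, w v * (II P 2 v * (op A w v - 1 / 3) ^ 2) ≤ Zs A w := by
    unfold Zs
    rw [← sum_add_distrib]
    refine sum_le_sum fun v _ => ?_
    rw [← mul_add]
    refine mul_le_mul_of_nonneg_left ?_ (hw' v)
    have h := sq_nonneg (op A w v - 1 / 3)
    rcases II_cases P v with ⟨_, g0, g1, g2⟩ | ⟨_, g0, g1, g2⟩ | ⟨_, g0, g1, g2⟩ <;>
      rw [g1, g2] <;> linarith
  linarith

theorem final_poly {p L : ℝ} (hp : 0 < p) (hLp : L ≤ p) :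
    0 < -(3 / 4) * p ^ 3 + 2 * (p - L) ^ 3 + 21348 / 10000 * p * L ^ 2 := by
  have h1 : 0 ≤ (L - 44 / 100 * p) ^ 2 * (6 * p - 2 * L) :=
    mul_nonneg (sq_nonneg _) (by linarith)
  have h2 : 0 < p ^ 2 * (11 / 1000 * p) := by positivity
  have h3 : 0 ≤ p ^ 2 * (p - L) := mul_nonneg (sq_nonneg _) (by linarith)
  have h4 : 0 ≤ p * (L - 44 / 100 * p) ^ 2 := mul_nonneg hp.le (sq_nonneg _)
  nlinarith

end Pool.Agent.W841.FF
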