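import Pool.Agent.W841.FF.Core2

/-! The main argument for optimal weights. -/

set_option autoImplicit false

open Finset
open scoped Classical

namespace Pool.Agent.W841.FF

variable {V : Type} [Fintype V]

theorem eta_sq {A : V → V → Prop} {w : V → ℝ} (hw : ∀ v, 0 ≤ w v) {P : V → Fin 3}
    (h : ∀ v, eta A w P v ≤ 534 / 10000) :
    ∑ v, w v * (eta A w P v) ^ 2 ≤ 534 / 10000 * Tot A w P := by
  unfold Tot
  rw [mul_sum]
  refine sum_le_sum fun v _ => ?_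
  have h1 := eta_nonneg (A := A) hw P v
  have h2 := h v
  have h3 : (eta A w P v) ^ 2 ≤ 534 / 10000 * eta A w P v := by nlinarith
  have := mul_le_mul_of_nonneg_left h3 (hw v)
  linarith

theorem root_p {p : ℝ} (hp : 0 < p) (hp2 : p ≤ 1091 / 10000)
    (h : 3 / 2 * p ^ 2 ≤ 79 / 6000 + 8931 / 10000 * p ^ 3) : p ≤ 966 / 10000 := by
  by_contra hc
  rw [not_le] at hc
  nlinarith [mul_pos (sub_pos.mpr hc) hp, mul_nonneg (sub_pos.mpr hc).le (sub_nonneg.mpr hp2),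
    mul_nonneg (mul_pos (sub_pos.mpr hc) hp).le (sub_nonneg.mpr hp2)]

theorem core_neg {A : V → V → Prop} (hA : Good A) {w : V → ℝ} (hw : ∀ v, 0 < w v)
    (hs : ∑ v, w v = 1) (hD : DD A w < 4 / 9) (hdeg : ∀ v, deg A w v ≤ 4 / 9) {P : V → Fin 3}
    (hP : ∀ P' : V → Fin 3, Tot A w P ≤ Tot A w P') (h0 : aa w P 0 < 1 / 3)
    (h1 : 1 / 3 ≤ aa w P 1) (h2 : 1 / 3 ≤ aa w P 2) : False := by
  have hw' : ∀ v, 0 ≤ w v := fun v => (hw v).le
  obtain ⟨i1, i2, i3, i4⟩ := info hA hw hs hD hP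
  have hF := F_ineq hA hw' hs P
  have hS := eta_sq (A := A) hw' (eta_le hA hw hs hD hdeg hP)
  have hT := Tot_eq (A := A) (w := w) P
  rw [hT] at hS
  have a0 := i4 0
  have a1 := i4 1
  have a2 := i4 2
  have hsum := aa_sum hs P
  have hEE := EE_eq (A := A) hs P
  have n0 := nn_nonneg (A := A) hw' P 0
  have n1 := nn_nonneg (A := A) hw' P 1
  have n2 := nn_nonneg (A := A) hw' P 2
  have m1 := mm_nonneg (A := A) hw' P 0 1
  have m2 := mm_nonneg (A := A) hw' P 0 2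
  have m3 := mm_nonneg (A := A) hw' P 1 2
  have hZ := Zs_nonneg (A := A) hw'
  obtain ⟨p, hp⟩ : ∃ p, p = 1 / 3 - aa w P 0 := ⟨_, rfl⟩
  obtain ⟨x, hx⟩ : ∃ x, x = aa w P 1 - 1 / 3 := ⟨_, rfl⟩
  obtain ⟨y, hy⟩ : ∃ y, y = aa w P 2 - 1 / 3 := ⟨_, rfl⟩
  have hp0 : 0 < p := by linarith
  have hx0 : 0 ≤ x := by linarith
  have hy0 : 0 ≤ y := by linarith
  have hxy : x + y = p := by linarith
  have e0 : aa w P 0 = 1 / 3 - p := by linarith
  have e1 : aa w P 1 = 1 / 3 + x := by linarith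
  have e2 : aa w P 2 = 1 / 3 + y := by linarith
  have hV := var_ge hA hw P hp0.le (by linarith : aa w P 0 ≤ 1 / 3 - p)
  have hTT : TT A w (PP P 1) (PP P 2) = nn A w P 1 + nn A w P 2 + 4 * mm A w P 1 2 := by
    unfold TT
    rw [nn_PP, nn_PP, mm_PP]
  have hbig : p ≤ ∑ v ∈ PP P 1, w v := by
    rw [aa_PP]; linarith
  have hchain : ∀ L, 0 ≤ L → TT A w (PP P 1) (PP P 2) ≤ 3 / 8 * L ^ 2 → L ≤ p →
      2 / 3 * (p - L) ^ 3 ≤ ∑ y ∈ PP P 1, w y * (max (p - rr A w P 2 y) 0) ^ 2 +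
      ∑ y ∈ PP P 2, w y * (max (p - rr A w P 1 y) 0) ^ 2 := fun L hL hT hLp =>
    chain_var hA hw _ _ hL hT hLp hbig
  rw [hTT] at hchain
  rw [e0, e1, e2] at hEE
  rw [e0, e1, e2] at hF
  generalize nn A w P 0 = N0 at *
  generalize nn A w P 1 = N1 at *
  generalize nn A w P 2 = N2 at *
  generalize mm A w P 0 1 = M01 at *
  generalize mm A w P 0 2 = M02 at *
  generalize mm A w P 1 2 = M12 at *
  generalize ∑ y ∈ PP P 1, w y * (max (p - rr A w P 2 y) 0) ^ 2 +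
      ∑ y ∈ PP P 2, w y * (max (p - rr A w P 1 y) 0) ^ 2 = C at *
  generalize ∑ v, w v * (eta A w P v) ^ 2 = ES at *
  generalize Zs A w = Z at *
  have hprod : 3 * p * (x * y) ≤ 3 / 4 * p ^ 3 := by
    have : 4 * (x * y) ≤ p ^ 2 := by rw [← hxy]; nlinarith [sq_nonneg (x - y)]
    nlinarith
  have hx1 : x ≤ 1091 / 10000 := by linarith
  have hy1 : y ≤ 1091 / 10000 := by linarith
  have g1 : 8398 / 10000 * (N0 + N1 + N2) + 2 * M01 * (8398 / 10000 - 3 * y) +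
      2 * M02 * (8398 / 10000 - 3 * x) + 2 * M12 * (8398 / 10000 + 3 * p) + 3 * Z <
      3 / 4 * p ^ 3 := by
    have : 3 * (1 / 3 - p - 1 / 3) * (1 / 3 + x - 1 / 3) * (1 / 3 + y - 1 / 3) = -(3 * p * (x * y)) := by
      ring
    rw [this] at hF
    have e : 2 * (M01 * (2 - 3 * (1 / 3 + y)) + M02 * (2 - 3 * (1 / 3 + x)) +
      M12 * (2 - 3 * (1 / 3 - p))) = 2 * M01 * (1 - 3 * y) + 2 * M02 * (1 - 3 * x) +
      2 * M12 * (1 + 3 * p) := by ring
    rw [e] at hF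
    linarith
  have k1 : 0 ≤ 2 * M01 * (8398 / 10000 - 3 * y) := mul_nonneg (by linarith) (by linarith)
  have k2 : 0 ≤ 2 * M02 * (8398 / 10000 - 3 * x) := mul_nonneg (by linarith) (by linarith)
  have k3 : 0 ≤ 2 * M12 * (8398 / 10000 + 3 * p) := mul_nonneg (by linarith) (by linarith)
  have g2 : p ≤ 966 / 10000 := by
    refine root_p hp0 (by linarith) ?_
    have : x ^ 2 + y ^ 2 + p ^ 2 ≤ 79 / 6000 + (N0 + N1 + N2) := by nlinarith
    have h3 : p ^ 2 ≤ 2 * (x ^ 2 + y ^ 2) := by rw [← hxy]; nlinarith [sq_nonneg (x - y)]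
    have h4 : 0 < p ^ 3 := by positivity
    linarith
  have g3 : 8398 / 10000 * (N1 + N2) + 2 * M12 * (8398 / 10000 + 3 * p) + 3 * Z <
      3 / 4 * p ^ 3 := by linarith
  obtain ⟨T, hTd⟩ : ∃ T, T = N1 + N2 + 4 * M12 := ⟨_, rfl⟩
  have hT0 : 0 ≤ T := by linarith
  have g4 : 5693 / 1000 * p * T ≤ (8398 / 10000 - 3 * p) * (N1 + N2) +
      2 * M12 * (8398 / 10000 + 3 * p) := by
    rw [hTd]
    have q1 : 0 ≤ (N1 + N2) * (966 / 10000 - p) := mul_nonneg (by linarith) (by linarith)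
    have q2 : 0 ≤ M12 * (966 / 10000 - p) := mul_nonneg m3 (by linarith)
    nlinarith
  obtain ⟨L, hL⟩ : ∃ L, L = Real.sqrt (8 / 3 * T) := ⟨_, rfl⟩
  have hL0 : 0 ≤ L := hL ▸ Real.sqrt_nonneg _
  have hL2 : L ^ 2 = 8 / 3 * T := by rw [hL, Real.sq_sqrt (by linarith)]
  rcases le_or_gt L p with hLp | hLp
  · have c1 := hchain L hL0 (by rw [hL2, ← hTd]; linarith) hLp
    have c2 := final_poly hp0 hLp
    have c3 : 5693 / 1000 * p * T = 21348750 / 10000000 * p * L ^ 2 := by rw [hL2]; ring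
    have c4 : 0 ≤ p * L ^ 2 := mul_nonneg hp0.le (sq_nonneg _)
    have c5 : 2 * (p - L) ^ 3 - 3 * (p * (N1 + N2)) ≤ 3 * Z := by linarith
    nlinarith
  · have c3 : 5693 / 1000 * p * T = 21348750 / 10000000 * p * L ^ 2 := by rw [hL2]; ring
    have c4 : p ^ 3 ≤ p * L ^ 2 := by
      have : p ^ 2 ≤ L ^ 2 := pow_le_pow_left₀ hp0.le hLp.le 2
      nlinarith
    have c5 : 0 ≤ p * (N1 + N2) := mul_nonneg hp0.le (by linarith)
    have c6 : 0 < p ^ 3 := by positivity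
    nlinarith

end Pool.Agent.W841.FF
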