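import Pool.Agent.W841.FF.Core3

/-! The density bound for weights with constant degrees. -/

set_option autoImplicit false

open Finset
open scoped Classical

namespace Pool.Agent.W841.FF

variable {V : Type} [Fintype V]

omit [Fintype V] in
theorem hd_comp (A : V → V → Prop) (P : V → Fin 3) (s : Equiv.Perm (Fin 3)) (u v : V) :
    hd A (fun x => s (P x)) u v = hd A P u v := by
  unfold hd sm
  have : (s (P u) = s (P v)) ↔ P u = P v := s.injective.eq_iff
  simp only [this]

theorem Tot_comp (A : V → V → Prop) (w : V → ℝ) (P : V → Fin 3) (s : Equiv.Perm (Fin 3)) :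
    Tot A w (fun x => s (P x)) = Tot A w P := by
  unfold Tot eta
  simp only [hd_comp]

theorem aa_comp (w : V → ℝ) (P : V → Fin 3) (s : Equiv.Perm (Fin 3)) (i : Fin 3) :
    aa w (fun x => s (P x)) (s i) = aa w P i := by
  unfold aa II
  refine sum_congr rfl fun v _ => ?_
  have : (s (P v) = s i) ↔ P v = i := s.injective.eq_iff
  simp only [this]

theorem core_perm {A : V → V → Prop} (hA : Good A) {w : V → ℝ} (hw : ∀ v, 0 < w v)
    (hs : ∑ v, w v = 1) (hD : DD A w < 4 / 9) (hdeg : ∀ v, deg A w v ≤ 4 / 9) {P : V → Fin 3}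
    (hP : ∀ P' : V → Fin 3, Tot A w P ≤ Tot A w P') (s : Equiv.Perm (Fin 3))
    (h0 : aa w P (s 0) < 1 / 3) (h1 : 1 / 3 ≤ aa w P (s 1)) (h2 : 1 / 3 ≤ aa w P (s 2)) : False := by
  have e : ∀ i, aa w (fun x => s.symm (P x)) i = aa w P (s i) := by
    intro i
    have := aa_comp w P s.symm (s i)
    rw [Equiv.symm_apply_apply] at this
    exact this
  refine core_neg hA hw hs hD hdeg (P := fun x => s.symm (P x)) ?_ ?_ ?_ ?_
  · intro P'
    rw [Tot_comp]
    exact hP P'
  · rw [e]; exact h0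
  · rw [e]; exact h1
  · rw [e]; exact h2

/-- the case of a nonnegative product -/
theorem core_pos {A : V → V → Prop} (hA : Good A) {w : V → ℝ} (hw : ∀ v, 0 < w v)
    (hs : ∑ v, w v = 1) (hD : DD A w < 4 / 9) (hdeg : ∀ v, deg A w v ≤ 4 / 9) {P : V → Fin 3}
    (hP : ∀ P' : V → Fin 3, Tot A w P ≤ Tot A w P')
    (h : 0 ≤ (aa w P 0 - 1 / 3) * (aa w P 1 - 1 / 3) * (aa w P 2 - 1 / 3)) : False := by
  have hw' : ∀ v, 0 ≤ w v := fun v => (hw v).le
  obtain ⟨i1, i2, i3, i4⟩ := info hA hw hs hD hP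
  have hF := F_ineq hA hw' hs P
  have hS := eta_sq (A := A) hw' (eta_le hA hw hs hD hdeg hP)
  have hT := Tot_eq (A := A) (w := w) P
  rw [hT] at hS
  have a0 := i4 0
  have a1 := i4 1
  have a2 := i4 2
  have n0 := nn_nonneg (A := A) hw' P 0
  have n1 := nn_nonneg (A := A) hw' P 1
  have n2 := nn_nonneg (A := A) hw' P 2
  have m1 := mm_nonneg (A := A) hw' P 0 1
  have m2 := mm_nonneg (A := A) hw' P 0 2
  have m3 := mm_nonneg (A := A) hw' P 1 2
  have hZ := Zs_nonneg (A := A) hw'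
  have k1 : 0 ≤ mm A w P 0 1 * (8398 / 10000 + 1 - 3 * aa w P 2) := mul_nonneg m1 (by linarith)
  have k2 : 0 ≤ mm A w P 0 2 * (8398 / 10000 + 1 - 3 * aa w P 1) := mul_nonneg m2 (by linarith)
  have k3 : 0 ≤ mm A w P 1 2 * (8398 / 10000 + 1 - 3 * aa w P 0) := mul_nonneg m3 (by linarith)
  nlinarith

theorem core {A : V → V → Prop} (hA : Good A) {w : V → ℝ} (hw : ∀ v, 0 < w v)
    (hs : ∑ v, w v = 1) (hdeg : ∀ v, deg A w v = DD A w) : 4 / 9 ≤ DD A w := by
  by_contra hD
  rw [not_le] at hD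
  have hdeg' : ∀ v, deg A w v ≤ 4 / 9 := fun v => by rw [hdeg v]; exact hD.le
  obtain ⟨P, hP⟩ := Finite.exists_min (fun P : V → Fin 3 => Tot A w P)
  have hsum := aa_sum hs P
  rcases lt_or_ge (aa w P 0) (1 / 3) with a0 | a0 <;> rcases lt_or_ge (aa w P 1) (1 / 3) with a1 | a1 <;>
    rcases lt_or_ge (aa w P 2) (1 / 3) with a2 | a2
  · linarith
  · exact core_pos hA hw hs hD hdeg' hP (mul_nonneg (mul_nonneg_of_nonpos_of_nonpos (by linarith)
      (by linarith)) (by linarith))
  · refine core_pos hA hw hs hD hdeg' hP ?_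
    have : (aa w P 0 - 1 / 3) * (aa w P 1 - 1 / 3) * (aa w P 2 - 1 / 3) =
      ((1 / 3 - aa w P 0) * (1 / 3 - aa w P 2)) * (aa w P 1 - 1 / 3) := by ring
    rw [this]
    exact mul_nonneg (mul_nonneg (by linarith) (by linarith)) (by linarith)
  · exact core_neg hA hw hs hD hdeg' hP a0 a1 a2
  · refine core_pos hA hw hs hD hdeg' hP ?_
    have : (aa w P 0 - 1 / 3) * (aa w P 1 - 1 / 3) * (aa w P 2 - 1 / 3) =
      ((1 / 3 - aa w P 1) * (1 / 3 - aa w P 2)) * (aa w P 0 - 1 / 3) := by ring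
    rw [this]
    exact mul_nonneg (mul_nonneg (by linarith) (by linarith)) (by linarith)
  · exact core_perm hA hw hs hD hdeg' hP (Equiv.swap 0 1) (by simpa using a1) (by simpa using a0)
      (by
        have : (Equiv.swap (0 : Fin 3) 1) 2 = 2 := by decide
        rw [this]; exact a2)
  · exact core_perm hA hw hs hD hdeg' hP (Equiv.swap 0 2) (by simpa using a2)
      (by
        have : (Equiv.swap (0 : Fin 3) 2) 1 = 1 := by decide
        rw [this]; exact a1) (by simpa using a0)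
  · exact core_pos hA hw hs hD hdeg' hP (mul_nonneg (mul_nonneg (by linarith) (by linarith))
      (by linarith))

end Pool.Agent.W841.FF
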