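import Pool.Agent.W841.FF.Min

/-! From weights to counting. -/

set_option autoImplicit false

open Finset
open scoped Classical

namespace Pool.Agent.W841.FF

/-- `t` is a Fon-Der-Flaass triple of `A` -/
def IsT {V : Type} (A : V → V → Prop) (t : Finset V) : Prop :=
  t.card = 3 ∧ ∃ a ∈ t, (∀ x ∈ t, x ≠ a → ¬ A a x ∧ ¬ A x a) ∨ (∀ x ∈ t, x ≠ a → A a x)

theorem isT_of {V : Type} {A : V → V → Prop} {a b c : V} (h1 : a ≠ b) (h2 : a ≠ c)
    (h3 : b ≠ c) (h : FT A a b c) : IsT A {a, b, c} := by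
  refine ⟨card_eq_three.mpr ⟨a, b, c, h1, h2, h3, rfl⟩, ?_⟩
  unfold FT at h
  rcases h with h | h | h | h | h | h
  · refine ⟨a, by simp, Or.inl fun x hx hxa => ?_⟩
    simp only [mem_insert, mem_singleton] at hx
    rcases hx with rfl | rfl | rfl
    · exact absurd rfl hxa
    · exact not_or.mp h.1
    · exact not_or.mp h.2
  · refine ⟨b, by simp, Or.inl fun x hx hxa => ?_⟩
    simp only [mem_insert, mem_singleton] at hx
    rcases hx with rfl | rfl | rfl
    · exact not_or.mp h.1
    · exact absurd rfl hxa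
    · exact not_or.mp h.2
  · refine ⟨c, by simp, Or.inl fun x hx hxa => ?_⟩
    simp only [mem_insert, mem_singleton] at hx
    rcases hx with rfl | rfl | rfl
    · exact not_or.mp h.1
    · exact not_or.mp h.2
    · exact absurd rfl hxa
  · refine ⟨a, by simp, Or.inr fun x hx hxa => ?_⟩
    simp only [mem_insert, mem_singleton] at hx
    rcases hx with rfl | rfl | rfl
    · exact absurd rfl hxa
    · exact h.1
    · exact h.2
  · refine ⟨b, by simp, Or.inr fun x hx hxa => ?_⟩
    simp only [mem_insert, mem_singleton] at hx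
    rcases hx with rfl | rfl | rfl
    · exact h.1
    · exact absurd rfl hxa
    · exact h.2
  · refine ⟨c, by simp, Or.inr fun x hx hxa => ?_⟩
    simp only [mem_insert, mem_singleton] at hx
    rcases hx with rfl | rfl | rfl
    · exact h.1
    · exact h.2
    · exact absurd rfl hxa

theorem cover_spec : (B3 fun r01 n01 => B3 fun r02 n02 => B3 fun r12 n12 => B3 fun r03 n03 =>
    B3 fun r13 n13 => B3 fun r23 n23 => or (c4 (cd r01 r02 r12) (cd r03 r13 r23))
      (or (Nat.beq (fN r01 n01 r02 n02 r12 n12) 1) (or (Nat.beq (fN r01 n01 r03 n03 r13 n13) 1)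
      (or (Nat.beq (fN r02 n02 r03 n03 r23 n23) 1) (Nat.beq (fN r12 n12 r13 n13 r23 n23) 1)))))
    = true := by decide +kernel

theorem FT_of_fN {V : Type} {A : V → V → Prop} (hA : Good A) {a b c : V}
    (h : Nat.beq (fN (rel A a b) (rel A b a) (rel A a c) (rel A c a) (rel A b c) (rel A c b)) 1 = true) :
    FT A a b c := by
  have h1 := fN_rel hA a b c
  rw [Nat.eq_of_beq_eq_true h] at h1
  unfold fd at h1
  by_contra hc
  rw [if_neg hc] at h1
  norm_num at h1

theorem cover {V : Type} {A : V → V → Prop} (hA : Good A) (a b c d : V) :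
    FT A a b c ∨ FT A a b d ∨ FT A a c d ∨ FT A b c d := by
  have h := B3_true (B3_true (B3_true (B3_true (B3_true (B3_true cover_spec hA a b) hA a c) hA b c)
    hA a d) hA b d) hA c d
  have h2 := or_left_false h (c4_false hA a b c d)
  simp only [Bool.or_eq_true] at h2
  rcases h2 with h2 | h2 | h2 | h2
  · exact Or.inl (FT_of_fN hA h2)
  · exact Or.inr (Or.inl (FT_of_fN hA h2))
  · exact Or.inr (Or.inr (Or.inl (FT_of_fN hA h2)))
  · exact Or.inr (Or.inr (Or.inr (FT_of_fN hA h2)))

theorem cover_set {V : Type} {A : V → V → Prop} (hA : Good A) (s : Finset V) (hs : s.card = 4) :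
    ∃ t ⊆ s, IsT A t := by
  obtain ⟨a, t, hat, rfl, ht⟩ := card_eq_succ.mp hs
  obtain ⟨b, c, d, hbc, hbd, hcd, rfl⟩ := card_eq_three.mp ht
  simp only [mem_insert, mem_singleton, not_or] at hat
  rcases cover hA a b c d with h | h | h | h
  · exact ⟨{a, b, c}, by intro x; simp; tauto, isT_of hat.1 hat.2.1 hbc h⟩
  · exact ⟨{a, b, d}, by intro x; simp; tauto, isT_of hat.1 hat.2.2 hbd h⟩
  · exact ⟨{a, c, d}, by intro x; simp; tauto, isT_of hat.2.1 hat.2.2 hcd h⟩
  · exact ⟨{b, c, d}, by intro x; simp; tauto, isT_of hbc hbd hcd h⟩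

variable {V : Type} [Fintype V]

noncomputable def Fam (A : V → V → Prop) : Finset (Finset V) := univ.filter (IsT A)

theorem distinct_le (A : V → V → Prop) :
    (univ.filter fun p : V × V × V => (p.1 ≠ p.2.1 ∧ p.1 ≠ p.2.2 ∧ p.2.1 ≠ p.2.2) ∧
      FT A p.1 p.2.1 p.2.2).card ≤ 6 * (Fam A).card := by
  refine card_le_mul_card_image_of_maps_to (f := fun p : V × V × V => ({p.1, p.2.1, p.2.2} : Finset V))
    ?_ 6 ?_
  · intro p hp
    rw [mem_filter] at hp
    rw [Fam, mem_filter]
    exact ⟨mem_univ _, isT_of hp.2.1.1 hp.2.1.2.1 hp.2.1.2.2 hp.2.2⟩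
  · intro t ht
    rw [Fam, mem_filter] at ht
    obtain ⟨x, y, z, hxy, hxz, hyz, rfl⟩ := card_eq_three.mp ht.2.1
    refine (card_le_card (t := {(x, y, z), (x, z, y), (y, x, z), (y, z, x), (z, x, y), (z, y, x)})
      ?_).trans card_le_six
    rintro ⟨a, b, c⟩ hp
    rw [mem_filter, mem_filter] at hp
    obtain ⟨⟨-, ⟨h1, h2, h3⟩, -⟩, h4⟩ := hp
    simp only at h1 h2 h3 h4
    have ha : a ∈ ({x, y, z} : Finset V) := by rw [← h4]; simp
    have hb : b ∈ ({x, y, z} : Finset V) := by rw [← h4]; simp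
    have hc : c ∈ ({x, y, z} : Finset V) := by rw [← h4]; simp
    simp only [mem_insert, mem_singleton] at ha hb hc
    rcases ha with rfl | rfl | rfl <;> rcases hb with rfl | rfl | rfl <;>
      rcases hc with rfl | rfl | rfl <;> simp_all

omit [Fintype V] in
theorem fd_dec {A : V → V → Prop} (hA : Good A) (a b c : V) :
    fd A a b c = (if (a ≠ b ∧ a ≠ c ∧ b ≠ c) ∧ FT A a b c then (1 : ℝ) else 0) +
      (if a = b then 1 - ar A a c else 0) + (if a = c then 1 - ar A a b else 0) +
      (if b = c then 1 - ar A b a else 0) - 2 * (if a = b then (if a = c then (1 : ℝ) else 0) else 0) := by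
  have s1 : ∀ x y : V, fd A x x y = 1 - ar A x y := by
    intro x y
    unfold fd ar
    have hx : ¬ A x x := fun h => hA.1 x x h h
    by_cases h : A x y
    · have h' := hA.1 x y h
      have : ¬ FT A x x y := by unfold FT; tauto
      simp [this, h]
    · have : FT A x x y := by unfold FT; tauto
      simp [this, h]
  by_cases h1 : a = b
  · subst h1
    by_cases h2 : a = c
    · subst h2
      have := s1 a a
      simp [this]
      have hx : ¬ A a a := fun h => hA.1 a a h h
      simp [ar, hx]; norm_num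
    · simp [h2, s1]
  · by_cases h2 : a = c
    · subst h2
      have h3 : ¬ b = a := fun h => h1 h.symm
      rw [fd_swap2, s1]
      simp [h1, h3]
    · by_cases h3 : b = c
      · subst h3
        rw [fd_swap, fd_swap2, s1]
        simp [h1]
      · unfold fd
        simp [h1, h2, h3]

theorem count {A : V → V → Prop} (hA : Good A) :
    ∑ a, ∑ b, ∑ c, fd A a b c ≤ 6 * ((Fam A).card : ℝ) + 3 * (Fintype.card V : ℝ) ^ 2 -
      3 * ((univ.filter fun p : V × V => A p.1 p.2).card : ℝ) - 2 * (Fintype.card V : ℝ) := by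
  have hm : ∑ a, ∑ b, ar A a b = ((univ.filter fun p : V × V => A p.1 p.2).card : ℝ) := by
    rw [← Fintype.sum_prod_type', card_filter]
    push_cast
    exact sum_congr rfl fun p _ => by unfold ar; congr
  have h1 : ∑ a, ∑ b, ∑ c, (if (a ≠ b ∧ a ≠ c ∧ b ≠ c) ∧ FT A a b c then (1 : ℝ) else 0) ≤
      6 * ((Fam A).card : ℝ) := by
    have h := distinct_le A
    rw [card_filter] at h
    have h' : ((∑ p : V × V × V, if (p.1 ≠ p.2.1 ∧ p.1 ≠ p.2.2 ∧ p.2.1 ≠ p.2.2) ∧
      FT A p.1 p.2.1 p.2.2 then 1 else 0 : ℕ) : ℝ) ≤ ((6 * (Fam A).card : ℕ) : ℝ) := Nat.cast_le.mpr h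
    push_cast at h'
    rw [Fintype.sum_prod_type] at h'
    refine le_trans (le_of_eq ?_) h'
    refine sum_congr rfl fun a _ => ?_
    rw [Fintype.sum_prod_type]
  have h2 : ∑ a : V, ∑ b : V, ∑ c : V, (if a = b then 1 - ar A a c else 0) =
      (Fintype.card V : ℝ) ^ 2 - ∑ a, ∑ b, ar A a b := by
    have : ∀ a b : V, ∑ c : V, (if a = b then 1 - ar A a c else 0) =
        if a = b then ∑ c : V, (1 - ar A a c) else 0 := by
      intro a b; split_ifs <;> simp
    simp only [this, sum_ite_eq, mem_univ, if_true, sum_sub_distrib]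
    simp [sq]
  have h3 : ∑ a : V, ∑ b : V, ∑ c : V, (if a = c then 1 - ar A a b else 0) =
      (Fintype.card V : ℝ) ^ 2 - ∑ a, ∑ b, ar A a b := by
    simp only [sum_ite_eq, mem_univ, if_true, sum_sub_distrib]
    simp [sq]
  have h4 : ∑ a : V, ∑ b : V, ∑ c : V, (if b = c then 1 - ar A b a else 0) =
      (Fintype.card V : ℝ) ^ 2 - ∑ a, ∑ b, ar A a b := by
    simp only [sum_ite_eq, mem_univ, if_true, sum_sub_distrib]
    rw [sum_comm (f := fun a b => ar A b a)]
    simp [sq]
  have h5 : ∑ a : V, ∑ b : V, ∑ c : V, (if a = b then (if a = c then (1 : ℝ) else 0) else 0) =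
      (Fintype.card V : ℝ) := by
    have : ∀ a b : V, ∑ c : V, (if a = b then (if a = c then (1 : ℝ) else 0) else 0) =
        if a = b then 1 else 0 := by
      intro a b; split_ifs <;> simp
    simp only [this]
    simp
  have h6 : ∑ a, ∑ b, ∑ c, fd A a b c =
      ∑ a, ∑ b, ∑ c, (if (a ≠ b ∧ a ≠ c ∧ b ≠ c) ∧ FT A a b c then (1 : ℝ) else 0) +
      ∑ a : V, ∑ b : V, ∑ c : V, (if a = b then 1 - ar A a c else 0) +
      ∑ a : V, ∑ b : V, ∑ c : V, (if a = c then 1 - ar A a b else 0) +
      ∑ a : V, ∑ b : V, ∑ c : V, (if b = c then 1 - ar A b a else 0) -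
      2 * ∑ a : V, ∑ b : V, ∑ c : V, (if a = b then (if a = c then (1 : ℝ) else 0) else 0) := by
    simp only [fd_dec hA, sum_sub_distrib, sum_add_distrib, mul_sum]
  rw [h6, h2, h3, h4, h5, hm]
  linarith

theorem main_count {A : V → V → Prop} (hA : Good A) :
    4 * Fintype.card V ^ 3 + 18 * Fintype.card V +
      27 * (univ.filter fun p : V × V => A p.1 p.2).card ≤
      54 * (Fam A).card + 27 * Fintype.card V ^ 2 := by
  rcases Nat.eq_zero_or_pos (Fintype.card V) with h0 | h0
  · have : IsEmpty V := Fintype.card_eq_zero_iff.mp h0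
    simp
  have hn : (0 : ℝ) < Fintype.card V := by exact_mod_cast h0
  have h1 := DD_ge hA (w := fun _ => 1 / (Fintype.card V : ℝ)) (fun _ => by positivity)
    (by simp; field_simp)
  have h2 : DD A (fun _ => 1 / (Fintype.card V : ℝ)) =
      (1 / (Fintype.card V : ℝ)) ^ 3 * ∑ a, ∑ b, ∑ c, fd A a b c := by
    unfold DD
    simp only [mul_sum]
    exact sum_congr rfl fun a _ => sum_congr rfl fun b _ => sum_congr rfl fun c _ => by ring
  have h3 := count hA
  rw [h2] at h1
  have h4 : 4 / 9 * (Fintype.card V : ℝ) ^ 3 ≤ ∑ a, ∑ b, ∑ c, fd A a b c := by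
    have := mul_le_mul_of_nonneg_left h1 (pow_pos hn 3).le
    have e : (Fintype.card V : ℝ) ^ 3 * ((1 / (Fintype.card V : ℝ)) ^ 3 * ∑ a, ∑ b, ∑ c, fd A a b c) =
      ∑ a, ∑ b, ∑ c, fd A a b c := by field_simp
    rw [e] at this
    linarith
  have h5 : (4 * (Fintype.card V : ℝ) ^ 3 + 18 * (Fintype.card V : ℝ) +
      27 * ((univ.filter fun p : V × V => A p.1 p.2).card : ℝ)) ≤
      54 * ((Fam A).card : ℝ) + 27 * (Fintype.card V : ℝ) ^ 2 := by linarith
  exact_mod_cast h5

end Pool.Agent.W841.FF
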