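import Pool.Agent.W841.FF.Basic

/-! The degree formula. -/

set_option autoImplicit false

open Finset
open scoped Classical

namespace Pool.Agent.W841.FF

variable {V : Type} [Fintype V]

noncomputable def nb (A : V → V → Prop) (w : V → ℝ) (v : V) : ℝ := ∑ u, w u * (1 - ad A v u)
noncomputable def op (A : V → V → Prop) (w : V → ℝ) (v : V) : ℝ := ∑ u, w u * ar A v u
noncomputable def ip (A : V → V → Prop) (w : V → ℝ) (v : V) : ℝ := ∑ u, w u * ar A u v
noncomputable def kp (A : V → V → Prop) (w : V → ℝ) (v : V) : ℝ :=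
  ∑ y, w y * ∑ z, w z * ((1 - ad A v y) * (1 - ad A y z) * ad A v z)
noncomputable def deg (A : V → V → Prop) (w : V → ℝ) (v : V) : ℝ :=
  ∑ b, w b * ∑ c, w c * fd A v b c
noncomputable def Zs (A : V → V → Prop) (w : V → ℝ) : ℝ := ∑ v, w v * (op A w v - 1 / 3) ^ 2

theorem nb_op_ip {A : V → V → Prop} (hA : Good A) {w : V → ℝ} (hs : ∑ v, w v = 1) (v : V) :
    nb A w v + op A w v + ip A w v = 1 := by
  have h : nb A w v + op A w v + ip A w v = ∑ u, w u := by
    unfold nb op ip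
    rw [← sum_add_distrib, ← sum_add_distrib]
    refine sum_congr rfl fun u _ => ?_
    rw [ad_eq hA]; ring
  rw [h, hs]

omit [Fintype V] in
theorem fd_eq {A : V → V → Prop} (hA : Good A) (v b c : V) :
    fd A v b c = (1 - ad A v b) * (1 - ad A v c) + (1 - ad A v b) * (1 - ad A b c) * ad A v c +
      (1 - ad A v c) * (1 - ad A c b) * ad A v b + ar A v b * ar A v c + ar A b v * ar A b c +
      ar A c v * ar A c b := by
  rcases rel_cases hA v b with ⟨_, _, h1, h2⟩ | ⟨_, _, h1, h2⟩ | ⟨_, _, h1, h2⟩ <;>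
  rcases rel_cases hA v c with ⟨_, _, h3, h4⟩ | ⟨_, _, h3, h4⟩ | ⟨_, _, h3, h4⟩ <;>
  rcases rel_cases hA b c with ⟨_, _, h5, h6⟩ | ⟨_, _, h5, h6⟩ | ⟨_, _, h5, h6⟩ <;>
  simp [fd, FT, ad, ar, h1, h2, h3, h4, h5, h6]

theorem E2_mul (w : V → ℝ) (f g : V → ℝ) :
    ∑ b, w b * ∑ c, w c * (f b * g c) = (∑ b, w b * f b) * ∑ c, w c * g c := by
  rw [sum_mul_sum]
  refine sum_congr rfl fun b _ => ?_
  rw [mul_sum]
  exact sum_congr rfl fun c _ => by ring

theorem deg_eq {A : V → V → Prop} (hA : Good A) (w : V → ℝ) (v : V) :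
    deg A w v = nb A w v ^ 2 + 2 * kp A w v + op A w v ^ 2 +
      2 * ∑ b, w b * (ar A b v * op A w b) := by
  unfold deg
  simp only [fd_eq hA, mul_add, sum_add_distrib]
  have h1 : ∑ b, w b * ∑ c, w c * ((1 - ad A v b) * (1 - ad A v c)) = nb A w v ^ 2 := by
    rw [E2_mul]; unfold nb; ring
  have h2 : ∑ b, w b * ∑ c, w c * (ar A v b * ar A v c) = op A w v ^ 2 := by
    rw [E2_mul]; unfold op; ring
  have h3 : ∑ b, w b * ∑ c, w c * (ar A b v * ar A b c) = ∑ b, w b * (ar A b v * op A w b) := by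
    refine sum_congr rfl fun b _ => ?_
    congr 1
    unfold op
    rw [mul_sum]
    exact sum_congr rfl fun c _ => by ring
  have h4 : ∑ b, w b * ∑ c, w c * (ar A c v * ar A c b) = ∑ b, w b * (ar A b v * op A w b) := by
    rw [← h3]
    simp only [mul_sum]
    rw [sum_comm]
    exact sum_congr rfl fun b _ => sum_congr rfl fun c _ => by ring
  have h5 : ∑ b, w b * ∑ c, w c * ((1 - ad A v b) * (1 - ad A b c) * ad A v c) = kp A w v := rfl
  have h6 : ∑ b, w b * ∑ c, w c * ((1 - ad A v c) * (1 - ad A c b) * ad A v b) = kp A w v := by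
    rw [← h5]
    simp only [mul_sum]
    rw [sum_comm]
    exact sum_congr rfl fun b _ => sum_congr rfl fun c _ => by ring
  rw [h1, h2, h3, h4, h5, h6]
  ring

/-- the pointwise bound -/
theorem point_le {A : V → V → Prop} (hA : Good A) {w : V → ℝ} (hw : ∀ v, 0 < w v)
    (hs : ∑ v, w v = 1) {v : V} (hd : deg A w v ≤ 4 / 9) {l : ℝ} (hl : 0 < l) :
    (nb A w v - 1 / 3) ^ 2 + l * (nb A w v - 1 / 3) + 2 * kp A w v ≤
      l / 3 + l ^ 2 / 4 + Zs A w / l := by
  have h1 := deg_eq hA w v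
  have h2 := nb_op_ip hA hs v
  have h3 : ∑ b, w b * (ar A b v * op A w b) =
      ∑ b, w b * (ar A b v * (op A w b - 1 / 3)) + ip A w v / 3 := by
    unfold ip
    rw [sum_div, ← sum_add_distrib]
    exact sum_congr rfl fun b _ => by ring
  have h4 : -(l * ip A w v + Zs A w / l) / 2 ≤ ∑ b, w b * (ar A b v * (op A w b - 1 / 3)) := by
    have e : -(l * ip A w v + Zs A w / l) / 2 =
        ∑ b, w b * (-(l * ar A b v + (op A w b - 1 / 3) ^ 2 / l) / 2) := by
      unfold ip Zs
      rw [mul_sum, sum_div, ← sum_add_distrib, ← sum_neg_distrib, sum_div]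
      exact sum_congr rfl fun b _ => by ring
    rw [e]
    refine sum_le_sum fun b _ => mul_le_mul_of_nonneg_left ?_ (hw b).le
    have h0 := ar_nonneg A b v
    have key : 0 ≤ ar A b v * l + (op A w b - 1 / 3) ^ 2 / l + 2 * (ar A b v * (op A w b - 1 / 3)) := by
      by_cases hb : A b v
      · rw [ar_one hb]
        have : 1 * l + (op A w b - 1 / 3) ^ 2 / l + 2 * (1 * (op A w b - 1 / 3)) =
          (l + (op A w b - 1 / 3)) ^ 2 / l := by field_simp; ring
        rw [this]; positivity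
      · rw [ar_zero hb]
        have : (0 : ℝ) ≤ (op A w b - 1 / 3) ^ 2 / l := by positivity
        linarith
    linarith
  have h5 : 0 ≤ (op A w v - 1 / 3 + l / 2) ^ 2 := sq_nonneg _
  rw [h3] at h1
  nlinarith

end Pool.Agent.W841.FF
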