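import Pool.Agent.W841.FF.Spec

/-! Densities as weighted sums, and the values of the flag functionals. -/

set_option autoImplicit false
set_option maxRecDepth 100000

open Finset
open scoped Classical

namespace Pool.Agent.W841.FF

variable {V : Type} [Fintype V]

/-- weighted density of Fon-Der-Flaass triples -/
noncomputable def DD (A : V → V → Prop) (w : V → ℝ) : ℝ :=
  ∑ a, w a * ∑ b, w b * ∑ c, w c * fd A a b c
/-- weighted arc density -/
noncomputable def EE (A : V → V → Prop) (w : V → ℝ) : ℝ := ∑ a, w a * ∑ b, w b * ad A a b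
/-- second moment of the out-degree -/
noncomputable def SS (A : V → V → Prop) (w : V → ℝ) : ℝ := ∑ a, w a * (∑ b, w b * ar A a b) ^ 2
/-- mean defect of the partition of a random pair -/
noncomputable def HH (A : V → V → Prop) (w : V → ℝ) : ℝ :=
  ∑ a, w a * ∑ b, w b * ∑ c, w c * ∑ d, w d * dd A a b c d

theorem perm3 (w : V → ℝ) (g : V → V → V → ℝ) (s : Fin 3 → Fin 3) (hs : Function.Bijective s) :
    En w 3 (fun x => g (x (s 0)) (x (s 1)) (x (s 2))) =
      ∑ a, w a * ∑ b, w b * ∑ c, w c * g a b c := by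
  rw [← En3]
  exact En_perm w 3 (fun x => g (x 0) (x 1) (x 2)) s hs

theorem SS_eq (A : V → V → Prop) (w : V → ℝ) :
    ∑ a, w a * ∑ b, w b * ∑ c, w c * (ar A a b * ar A a c) = SS A w := by
  unfold SS
  refine sum_congr rfl fun a _ => ?_
  congr 1
  rw [sq, sum_mul_sum]
  refine sum_congr rfl fun b _ => ?_
  rw [mul_sum]
  exact sum_congr rfl fun c _ => by ring

theorem bij3 (s : Fin 3 → Fin 3) (h : ∀ i j, s i = s j → i = j) : Function.Bijective s :=
  Finite.injective_iff_bijective.mp h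

theorem E3_ch (A : V → V → Prop) (w : V → ℝ) :
    En w 3 (fun x => ar A (x 0) (x 1) * ar A (x 0) (x 2) + ar A (x 1) (x 0) * ar A (x 1) (x 2)
      + ar A (x 2) (x 0) * ar A (x 2) (x 1)) = 3 * SS A w := by
  rw [En_add w 3 (fun x => ar A (x 0) (x 1) * ar A (x 0) (x 2) + ar A (x 1) (x 0) * ar A (x 1) (x 2)),
    En_add w 3 (fun x => ar A (x 0) (x 1) * ar A (x 0) (x 2))]
  have h0 := perm3 w (fun a b c => ar A a b * ar A a c) ![0, 1, 2] (bij3 _ (by decide))
  have h1 := perm3 w (fun a b c => ar A a b * ar A a c) ![1, 0, 2] (bij3 _ (by decide))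
  have h2 := perm3 w (fun a b c => ar A a b * ar A a c) ![2, 0, 1] (bij3 _ (by decide))
  rw [SS_eq] at h0 h1 h2
  have g0 : En w 3 (fun x => ar A (x 0) (x 1) * ar A (x 0) (x 2)) = SS A w := h0
  have g1 : En w 3 (fun x => ar A (x 1) (x 0) * ar A (x 1) (x 2)) = SS A w := h1
  have g2 : En w 3 (fun x => ar A (x 2) (x 0) * ar A (x 2) (x 1)) = SS A w := h2
  rw [g0, g1, g2]
  ring

theorem E3_two {w : V → ℝ} (hs : ∑ v, w v = 1) (g : V → V → ℝ) :
    ∑ a, w a * ∑ b, w b * ∑ c, w c * g a b = ∑ a, w a * ∑ b, w b * g a b := by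
  simp only [← sum_mul, hs, one_mul]

theorem E3_ad {A : V → V → Prop} {w : V → ℝ} (hs : ∑ v, w v = 1) :
    En w 3 (fun x => ad A (x 0) (x 1) + ad A (x 0) (x 2) + ad A (x 1) (x 2)) = 3 * EE A w := by
  rw [En_add w 3 (fun x => ad A (x 0) (x 1) + ad A (x 0) (x 2)), En_add w 3 (fun x => ad A (x 0) (x 1))]
  have h0 := perm3 w (fun a b _ => ad A a b) ![0, 1, 2] (bij3 _ (by decide))
  have h1 := perm3 w (fun a b _ => ad A a b) ![0, 2, 1] (bij3 _ (by decide))
  have h2 := perm3 w (fun a b _ => ad A a b) ![1, 2, 0] (bij3 _ (by decide))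
  rw [E3_two hs] at h0 h1 h2
  have g0 : En w 3 (fun x => ad A (x 0) (x 1)) = EE A w := h0
  have g1 : En w 3 (fun x => ad A (x 0) (x 2)) = EE A w := h1
  have g2 : En w 3 (fun x => ad A (x 1) (x 2)) = EE A w := h2
  rw [g0, g1, g2]
  ring

theorem Ft_val {A : V → V → Prop} {w : V → ℝ} (hs : ∑ v, w v = 1) (t3 : ℕ → ℕ) (OFF cF ce cz : ℝ)
    (h : ∀ a b c : V, ((t3 (cd (rel A a b) (rel A a c) (rel A b c)) : ℕ) : ℝ) =
      OFF + cF * fd A a b c + ce * (ad A a b + ad A a c + ad A b c) -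
      cz * (ar A a b * ar A a c + ar A b a * ar A b c + ar A c a * ar A c b)) :
    En w 5 (Ft t3 A) = OFF + cF * DD A w + 3 * ce * EE A w - 3 * cz * SS A w := by
  have h1 := En5 w (fun a b c _ _ => ((t3 (cd (rel A a b) (rel A a c) (rel A b c)) : ℕ) : ℝ))
  have h2 : En w 5 (Ft t3 A) = _ := h1
  rw [h2]
  simp only [← sum_mul, hs, one_mul]
  have h3 := En3 w (fun a b c => ((t3 (cd (rel A a b) (rel A a c) (rel A b c)) : ℕ) : ℝ))
  rw [← h3]
  have h4 : En w 3 (fun x => ((t3 (cd (rel A (x 0) (x 1)) (rel A (x 0) (x 2)) (rel A (x 1) (x 2))) : ℕ) : ℝ))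
    = En w 3 (fun x => (OFF + cF * fd A (x 0) (x 1) (x 2)) +
      (ce * (ad A (x 0) (x 1) + ad A (x 0) (x 2) + ad A (x 1) (x 2)) +
      (-cz) * (ar A (x 0) (x 1) * ar A (x 0) (x 2) + ar A (x 1) (x 0) * ar A (x 1) (x 2)
      + ar A (x 2) (x 0) * ar A (x 2) (x 1)))) := by
    congr 1
    funext x
    rw [h]
    ring
  rw [h4, En_add w 3 (fun x => OFF + cF * fd A (x 0) (x 1) (x 2)),
    En_add w 3 (fun _ => OFF), En_one w hs,
    En_add w 3 (fun x => ce * (ad A (x 0) (x 1) + ad A (x 0) (x 2) + ad A (x 1) (x 2))),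
    En_smul, En_smul, En_smul, E3_ad hs, E3_ch]
  have h5 : En w 3 (fun x => fd A (x 0) (x 1) (x 2)) = DD A w := En3 w (fun a b c => fd A a b c)
  rw [h5]
  ring

def S12 : List (Fin 4 → Fin 4) := [![0, 1, 2, 3], ![1, 0, 2, 3], ![0, 2, 1, 3], ![2, 0, 1, 3],
  ![0, 3, 1, 2], ![3, 0, 1, 2], ![1, 2, 0, 3], ![2, 1, 0, 3], ![1, 3, 0, 2], ![3, 1, 0, 2],
  ![2, 3, 0, 1], ![3, 2, 0, 1]]

theorem S12_bij : ∀ s ∈ S12, Function.Bijective s := fun s hs =>
  Finite.injective_iff_bijective.mp ((by decide +kernel : ∀ s ∈ S12, ∀ i j, s i = s j → i = j) s hs)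

theorem h4_rel {A : V → V → Prop} (hA : Good A) (x : Fin 4 → V) :
    ((h4 (cd (rel A (x 0) (x 1)) (rel A (x 0) (x 2)) (rel A (x 1) (x 2)))
      (cd (rel A (x 0) (x 3)) (rel A (x 1) (x 3)) (rel A (x 2) (x 3))) : ℕ) : ℝ) =
      (S12.map fun s => dd A (x (s 0)) (x (s 1)) (x (s 2)) (x (s 3))).sum := by
  have h := B3_true (B3_true (B3_true (B3_true (B3_true (B3_true h4_spec hA (x 0) (x 1)) hA
    (x 0) (x 2)) hA (x 1) (x 2)) hA (x 0) (x 3)) hA (x 1) (x 3)) hA (x 2) (x 3)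
  have h2 := Nat.eq_of_beq_eq_true h
  rw [h2]
  simp only [Nat.add_eq, Nat.cast_add, ddN_rel hA]
  simp only [S12, List.map_cons, List.map_nil, List.sum_cons, List.sum_nil, add_zero]
  rfl

theorem Fh_val {A : V → V → Prop} (hA : Good A) {w : V → ℝ} (hs : ∑ v, w v = 1) :
    En w 5 (Fh A) = 12 * HH A w := by
  have h1 := En5 w (fun a b c d _ => ((h4 (cd (rel A a b) (rel A a c) (rel A b c))
      (cd (rel A a d) (rel A b d) (rel A c d)) : ℕ) : ℝ))
  have h2 : En w 5 (Fh A) = _ := h1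
  rw [h2]
  simp only [← sum_mul, hs, one_mul]
  have h3 := En4 w (fun a b c d => ((h4 (cd (rel A a b) (rel A a c) (rel A b c))
      (cd (rel A a d) (rel A b d) (rel A c d)) : ℕ) : ℝ))
  rw [← h3]
  simp only [h4_rel hA]
  have h4 := En_list w 4 (fun x => dd A (x 0) (x 1) (x 2) (x 3)) S12 S12_bij
  rw [h4]
  have h5 : En w 4 (fun x => dd A (x 0) (x 1) (x 2) (x 3)) = HH A w := En4 w (fun a b c d => dd A a b c d)
  rw [h5]
  norm_num [S12]

/-- table of the linear part -/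
theorem t3_of {A : V → V → Prop} (hA : Good A) (T OFF cF ce cz : ℕ)
    (h : (B3 fun r01 n01 => B3 fun r02 n02 => B3 fun r12 n12 =>
      Nat.beq (Nat.add (lk T (cd r01 r02 r12)) (Nat.mul cz (chN r01 n01 r02 n02 r12 n12)))
      (Nat.add OFF (Nat.add (Nat.mul cF (fN r01 n01 r02 n02 r12 n12)) (Nat.mul ce (eN r01 r02 r12)))))
      = true) (a b c : V) : ((lk T (cd (rel A a b) (rel A a c) (rel A b c)) : ℕ) : ℝ) =
      (OFF : ℝ) + (cF : ℝ) * fd A a b c + (ce : ℝ) * (ad A a b + ad A a c + ad A b c) -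
      (cz : ℝ) * (ar A a b * ar A a c + ar A b a * ar A b c + ar A c a * ar A c b) := by
  have h1 := Nat.eq_of_beq_eq_true (B3_true (B3_true (B3_true h hA a b) hA a c) hA b c)
  simp only [Nat.add_eq, Nat.mul_eq] at h1
  have h2 : ((_ : ℕ) : ℝ) = ((_ : ℕ) : ℝ) := congrArg Nat.cast h1
  simp only [Nat.cast_add, Nat.cast_mul, fN_rel hA, eN_rel hA, chN_rel hA] at h2
  linarith

end Pool.Agent.W841.FF
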