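import Mathlib

/-! Weighted sums over tuples. -/

set_option autoImplicit false

open Finset

namespace Pool.Agent.W841.FF

variable {V : Type} [Fintype V]

/-- the weighted sum of `f` over all `n`-tuples -/
noncomputable def En (w : V → ℝ) (n : ℕ) (f : (Fin n → V) → ℝ) : ℝ :=
  ∑ x : Fin n → V, (∏ i, w (x i)) * f x

theorem En_add (w : V → ℝ) (n : ℕ) (f g : (Fin n → V) → ℝ) :
    En w n (fun x => f x + g x) = En w n f + En w n g := by
  unfold En
  rw [← sum_add_distrib]
  exact sum_congr rfl fun x _ => by ring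

theorem En_smul (w : V → ℝ) (n : ℕ) (c : ℝ) (f : (Fin n → V) → ℝ) :
    En w n (fun x => c * f x) = c * En w n f := by
  unfold En
  rw [mul_sum]
  exact sum_congr rfl fun x _ => by ring

theorem En_mono (w : V → ℝ) (hw : ∀ v, 0 ≤ w v) (n : ℕ) (f g : (Fin n → V) → ℝ)
    (h : ∀ x, f x ≤ g x) : En w n f ≤ En w n g := by
  unfold En
  exact sum_le_sum fun x _ => mul_le_mul_of_nonneg_left (h x) (prod_nonneg fun i _ => hw _)

theorem En_perm (w : V → ℝ) (n : ℕ) (f : (Fin n → V) → ℝ) (s : Fin n → Fin n)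
    (hs : Function.Bijective s) : En w n (fun x => f (fun i => x (s i))) = En w n f := by
  unfold En
  let σ : Fin n ≃ Fin n := Equiv.ofBijective s hs
  refine Fintype.sum_equiv (Equiv.arrowCongr σ.symm (Equiv.refl V)) _ _ ?_
  intro x
  have h1 : (Equiv.arrowCongr σ.symm (Equiv.refl V)) x = fun i => x (s i) := by
    funext i
    simp [Equiv.arrowCongr, σ]
  rw [h1]
  congr 1
  exact (Equiv.prod_comp σ (fun i => w (x i))).symm

theorem En_succ (w : V → ℝ) (n : ℕ) (f : (Fin (n + 1) → V) → ℝ) :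
    En w (n + 1) f = ∑ a, w a * En w n (fun y => f (Fin.cons a y)) := by
  unfold En
  rw [← (Fin.consEquiv (fun _ : Fin (n + 1) => V)).sum_comp, Fintype.sum_prod_type]
  refine sum_congr rfl fun a _ => ?_
  rw [mul_sum]
  refine sum_congr rfl fun y _ => ?_
  have h : (Fin.consEquiv fun _ : Fin (n + 1) => V) (a, y) = Fin.cons a y := rfl
  rw [h]
  simp only [Fin.prod_univ_succ, Fin.cons_zero, Fin.cons_succ]
  ring

theorem En_zero (w : V → ℝ) (f : (Fin 0 → V) → ℝ) : En w 0 f = f ![] := by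
  unfold En
  simp only [univ_unique, univ_eq_empty, prod_empty, one_mul, sum_singleton]
  congr 1

theorem En_list (w : V → ℝ) (n : ℕ) (f : (Fin n → V) → ℝ) (l : List (Fin n → Fin n))
    (hl : ∀ s ∈ l, Function.Bijective s) :
    En w n (fun x => (l.map fun s => f (fun i => x (s i))).sum) = (l.length : ℝ) * En w n f := by
  induction l with
  | nil => simp [En]
  | cons s l ih =>
    simp only [List.map_cons, List.sum_cons, List.length_cons]
    rw [En_add, En_perm w n f s (hl s (by simp)), ih (fun t ht => hl t (by simp [ht]))]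
    push_cast
    ring

/-- iterated forms -/
theorem En2 (w : V → ℝ) (f : V → V → ℝ) :
    En w 2 (fun x => f (x 0) (x 1)) = ∑ a, w a * ∑ b, w b * f a b := by
  simp only [En_succ, En_zero]
  rfl

theorem En3 (w : V → ℝ) (f : V → V → V → ℝ) :
    En w 3 (fun x => f (x 0) (x 1) (x 2)) = ∑ a, w a * ∑ b, w b * ∑ c, w c * f a b c := by
  simp only [En_succ, En_zero]
  rfl

theorem En4 (w : V → ℝ) (f : V → V → V → V → ℝ) :
    En w 4 (fun x => f (x 0) (x 1) (x 2) (x 3)) =
      ∑ a, w a * ∑ b, w b * ∑ c, w c * ∑ d, w d * f a b c d := by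
  simp only [En_succ, En_zero]
  rfl

theorem En5 (w : V → ℝ) (f : V → V → V → V → V → ℝ) :
    En w 5 (fun x => f (x 0) (x 1) (x 2) (x 3) (x 4)) =
      ∑ a, w a * ∑ b, w b * ∑ c, w c * ∑ d, w d * ∑ e, w e * f a b c d e := by
  simp only [En_succ, En_zero]
  rfl

end Pool.Agent.W841.FF
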