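import Mathlib

/-! Five-vertex flags for oriented graphs without induced directed 4-cycles: the leaf functional. -/

set_option autoImplicit false
set_option maxRecDepth 100000

namespace Pool.Agent.W841.FF

def cd (x y z : ℕ) : ℕ := Nat.add x (Nat.add (Nat.mul 3 y) (Nat.mul 9 z))
def B3 (f : ℕ → ℕ → Bool) : Bool := and (f 0 0) (and (f 1 2) (f 2 1))
def RHO : ℕ := 0x16cd5b46e76a8ca65c248
def PC : ℕ := 0x1a8a2ee2d162cc0f66926a0e1e6ab07248357a45cb41459b4e0d51c81c564f624c306b38bdab49ca307b9ac5a928398a418820d671183d0735ed57358520e9392d491041ace2307a0e6bdaae6b0a41d2725a92208359c5ed5a4e5183dcd62d4941cc520c4106af48b96828b369c1aa39038ac9ec49860d671183d0735ed57358520e9392d491041ace2307a0e6bdaae6b0a41d2725a9220835146607c3cd7716cd25583a2c535064906b38bdab49ca307b9ac5a928398a418820d5e99b4f15945cb8354f6250511c8130c1abd3369e2b28b9706a9ec4a0a23902618359c5ed5a4e5183dcd62d4941cc520c4106b38bdab49ca307b9ac5a928398a418820d671183d0735ed57358520e9392d491041ace2307a0e6bdaae6b0a41d2725a92208359c5ed5a4e5183dcd62d4941cc520c4106a28cc0f879aee2d9a4ab07458a6a0c920d45177168b16607b34935070f355839241a8a3303e1e6bb8b6692ac1d1629a8324835146607c3cd7716cd25583a2c535064906a28cc0f879aee2d9a4ab07458a6a0c920d5e99b4f15945cb8354f6250511c8130c1a8a2ee2d162cc0f66926a0e1e6ab07248357a45cb41459b4e0d51c81c564f624c306b38bdab49ca307b9ac5a928398a418820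
def TH : ℕ := 0xcc0cc0006cc0cc0006006006660cc0cc0006cc0cc0006006006660006006666006006666004004442cc0cc0006cc0cc0006006006660cc0cc0006cc0cc0006006006660006006666006006666004004442006006004006006004666666442006006004006006004666666442660660442660660442442442440cc0cc0006cc0cc0006006006660cc0cc0006cc0cc0006006006660006006666006006666004004442cc0cc0006cc0cc0006006006660cc0cc0006cc0cc0006006006660006006666006006666004004442006006004006006004666666442006006004006006004666666442660660442660660442442442440000000664000000664664664662000000664000000664664664662664664002664664002444444220000000664000000664664664662000000664000000664664664662664664002664664002444444220664664444664664444002002220664664444664664444002002220662662220662662220220220000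
def TC : ℕ := 0x400000000020000000000000000000000000000004000000000000000000000000080000000000000000000000001000000000001000000000000000000000000000000000000000
def rho (t : ℕ) : ℕ := Nat.land (Nat.shiftRight RHO (Nat.mul 3 t)) 7
def pc (t i : ℕ) : ℕ := Nat.land (Nat.shiftRight PC (Nat.mul 5 (Nat.add (Nat.mul 27 t) i))) 31
def h4 (t i : ℕ) : ℕ := Nat.land (Nat.shiftRight TH (Nat.mul 4 (Nat.add (Nat.mul 27 i) t))) 15
def c4 (t i : ℕ) : Bool := Nat.beq (Nat.land (Nat.shiftRight TC (Nat.add (Nat.mul 27 i) t)) 1) 1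
def lk (T n : ℕ) : ℕ := Nat.land (Nat.shiftRight T (Nat.mul 48 n)) 281474976710655
def Q3 (T t i j : ℕ) : ℕ := lk T (Nat.add (Nat.mul 729 (rho t)) (Nat.add (Nat.mul 27 (pc t i)) (pc t j)))
def Q1 (T i j : ℕ) : ℕ := lk T (Nat.add (Nat.mul 27 i) j)

def leaf3 (q3 : ℕ → ℕ → ℕ → ℕ) (r01 r02 r12 r03 r13 r23 r04 r14 r24 r34 n01 n02 n12 n03 n13 n23 n04 n14 n24 n34 : ℕ) : ℕ :=
  (Nat.add (q3 (cd r01 r02 r12) (cd r03 r13 r23) (cd r04 r14 r24))
    (Nat.add (q3 (cd r01 r03 r13) (cd r02 r12 n23) (cd r04 r14 r34))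
    (Nat.add (q3 (cd r01 r04 r14) (cd r02 r12 n24) (cd r03 r13 n34))
    (Nat.add (q3 (cd r02 r03 r23) (cd r01 n12 n13) (cd r04 r24 r34))
    (Nat.add (q3 (cd r02 r04 r24) (cd r01 n12 n14) (cd r03 r23 n34))
    (Nat.add (q3 (cd r03 r04 r34) (cd r01 n13 n14) (cd r02 n23 n24))
    (Nat.add (q3 (cd r12 r13 r23) (cd n01 n02 n03) (cd r14 r24 r34))
    (Nat.add (q3 (cd r12 r14 r24) (cd n01 n02 n04) (cd r13 r23 n34))
    (Nat.add (q3 (cd r13 r14 r34) (cd n01 n03 n04) (cd r12 n23 n24))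
    (q3 (cd r23 r24 r34) (cd n02 n03 n04) (cd n12 n13 n14)))))))))))

def leaf1 (q1 : ℕ → ℕ → ℕ) (r01 r02 r12 r03 r13 r23 r04 r14 r24 r34 n01 n02 n12 n03 n13 n23 n04 n14 n24 n34 : ℕ) : ℕ :=
  (Nat.add (q1 (cd r01 r02 r12) (cd r03 r04 r34))
    (Nat.add (q1 (cd r01 r03 r13) (cd r02 r04 r24))
    (Nat.add (q1 (cd r01 r04 r14) (cd r02 r03 r23))
    (Nat.add (q1 (cd n01 r12 r02) (cd r13 r14 r34))
    (Nat.add (q1 (cd n01 r13 r03) (cd r12 r14 r24))
    (Nat.add (q1 (cd n01 r14 r04) (cd r12 r13 r23))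
    (Nat.add (q1 (cd n02 n12 r01) (cd r23 r24 r34))
    (Nat.add (q1 (cd n02 r23 r03) (cd n12 r24 r14))
    (Nat.add (q1 (cd n02 r24 r04) (cd n12 r23 r13))
    (Nat.add (q1 (cd n03 n13 r01) (cd n23 r34 r24))
    (Nat.add (q1 (cd n03 n23 r02) (cd n13 r34 r14))
    (Nat.add (q1 (cd n03 r34 r04) (cd n13 n23 r12))
    (Nat.add (q1 (cd n04 n14 r01) (cd n24 n34 r23))
    (Nat.add (q1 (cd n04 n24 r02) (cd n14 n34 r13))
    (q1 (cd n04 n34 r03) (cd n14 n24 r12))))))))))))))))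

def leaft (t3 : ℕ → ℕ) (r01 r02 r12 r03 r13 r23 r04 r14 r24 r34 : ℕ) : ℕ :=
  (Nat.add (t3 (cd r01 r02 r12))
    (Nat.add (t3 (cd r01 r03 r13))
    (Nat.add (t3 (cd r01 r04 r14))
    (Nat.add (t3 (cd r02 r03 r23))
    (Nat.add (t3 (cd r02 r04 r24))
    (Nat.add (t3 (cd r03 r04 r34))
    (Nat.add (t3 (cd r12 r13 r23))
    (Nat.add (t3 (cd r12 r14 r24))
    (Nat.add (t3 (cd r13 r14 r34))
    (t3 (cd r23 r24 r34)))))))))))

def leafh (r01 r02 r12 r03 r13 r23 r04 r14 r24 r34 : ℕ) : ℕ :=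
  (Nat.add (h4 (cd r01 r02 r12) (cd r03 r13 r23))
    (Nat.add (h4 (cd r01 r02 r12) (cd r04 r14 r24))
    (Nat.add (h4 (cd r01 r03 r13) (cd r04 r14 r34))
    (Nat.add (h4 (cd r02 r03 r23) (cd r04 r24 r34))
    (h4 (cd r12 r13 r23) (cd r14 r24 r34))))))

/-- the inequality to be checked at a leaf -/
def okl (q3 : ℕ → ℕ → ℕ → ℕ) (q1 : ℕ → ℕ → ℕ) (t3 : ℕ → ℕ) (CST CH : ℕ) (r01 r02 r12 r03 r13 r23 r04 r14 r24 r34 n01 n02 n12 n03 n13 n23 n04 n14 n24 n34 : ℕ) : Bool :=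
  Nat.ble (Nat.add (leaf3 q3 r01 r02 r12 r03 r13 r23 r04 r14 r24 r34 n01 n02 n12 n03 n13 n23 n04 n14 n24 n34) (Nat.add (Nat.mul 4 (leaf1 q1 r01 r02 r12 r03 r13 r23 r04 r14 r24 r34 n01 n02 n12 n03 n13 n23 n04 n14 n24 n34))
    (Nat.mul CH (leafh r01 r02 r12 r03 r13 r23 r04 r14 r24 r34)))) (Nat.add (leaft t3 r01 r02 r12 r03 r13 r23 r04 r14 r24 r34) CST)

def chk4 (q3 : ℕ → ℕ → ℕ → ℕ) (q1 : ℕ → ℕ → ℕ) (t3 : ℕ → ℕ) (CST CH : ℕ) (r01 n01 r02 n02 r12 n12 : ℕ) : Bool :=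
  B3 fun r03 n03 => B3 fun r13 n13 => B3 fun r23 n23 =>
  or (c4 (cd r01 r02 r12) (cd r03 r13 r23)) (
  B3 fun r04 n04 => B3 fun r14 n14 => B3 fun r24 n24 =>
  or (c4 (cd r01 r02 r12) (cd r04 r14 r24)) (
  B3 fun r34 n34 =>
  or (c4 (cd r01 r03 r13) (cd r04 r14 r34)) (or (c4 (cd r02 r03 r23) (cd r04 r24 r34)) (or (c4 (cd r12 r13 r23) (cd r14 r24 r34))
  (okl q3 q1 t3 CST CH r01 r02 r12 r03 r13 r23 r04 r14 r24 r34 n01 n02 n12 n03 n13 n23 n04 n14 n24 n34)))))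

end Pool.Agent.W841.FF
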