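import Pool.Agent.W841.FF.Exp
import Pool.Agent.W841.FF.Leaf

/-! Oriented graphs without induced directed 4-cycles, and the soundness of the flag checks. -/

set_option autoImplicit false
set_option maxRecDepth 100000

open Finset
open scoped Classical

namespace Pool.Agent.W841.FF

variable {V : Type}

/-- `A` is an oriented graph (no loops, no opposite arcs) without induced directed 4-cycles. -/
def Good (A : V → V → Prop) : Prop :=
  (∀ u v, A u v → ¬ A v u) ∧
    ∀ a b c d, A a b → A b c → A c d → A d a → (A a c ∨ A c a) ∨ (A b d ∨ A d b)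

noncomputable def rel (A : V → V → Prop) (u v : V) : ℕ := if A u v then 1 else if A v u then 2 else 0

/-- adjacency indicator -/
noncomputable def ad (A : V → V → Prop) (u v : V) : ℝ := if A u v ∨ A v u then 1 else 0

/-- arc indicator -/
noncomputable def ar (A : V → V → Prop) (u v : V) : ℝ := if A u v then 1 else 0

/-- the Fon-Der-Flaass triples (with multiplicity allowed) -/
def FT (A : V → V → Prop) (a b c : V) : Prop :=
  (¬ (A a b ∨ A b a) ∧ ¬ (A a c ∨ A c a)) ∨ (¬ (A b a ∨ A a b) ∧ ¬ (A b c ∨ A c b)) ∨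
    (¬ (A c a ∨ A a c) ∧ ¬ (A c b ∨ A b c)) ∨ (A a b ∧ A a c) ∨ (A b a ∧ A b c) ∨ (A c a ∧ A c b)

noncomputable def fd (A : V → V → Prop) (a b c : V) : ℝ := if FT A a b c then 1 else 0

/-- the part of `x` with respect to the pair `a`, `b` -/
noncomputable def pt (A : V → V → Prop) (a b x : V) : ℕ :=
  if ¬ (A a x ∨ A x a) then 0 else if ¬ (A b x ∨ A x b) then 1 else 2

noncomputable def dd (A : V → V → Prop) (a b u v : V) : ℝ :=
  if (A a b ∨ A b a) ∧ (pt A a b u = pt A a b v ↔ (A u v ∨ A v u)) then 1 else 0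

theorem rel_cases {A : V → V → Prop} (hA : Good A) (u v : V) :
    (rel A u v = 0 ∧ rel A v u = 0 ∧ ¬ A u v ∧ ¬ A v u) ∨
    (rel A u v = 1 ∧ rel A v u = 2 ∧ A u v ∧ ¬ A v u) ∨
    (rel A u v = 2 ∧ rel A v u = 1 ∧ ¬ A u v ∧ A v u) := by
  unfold rel
  by_cases h1 : A u v
  · have h2 := hA.1 u v h1
    simp [h1, h2]
  · by_cases h2 : A v u
    · simp [h1, h2]
    · simp [h1, h2]

theorem B3_true {f : ℕ → ℕ → Bool} (h : B3 f = true) {A : V → V → Prop} (hA : Good A) (u v : V) :
    f (rel A u v) (rel A v u) = true := by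
  unfold B3 at h
  rw [Bool.and_eq_true, Bool.and_eq_true] at h
  rcases rel_cases hA u v with h1 | h1 | h1
  · rw [h1.1, h1.2.1]; exact h.1
  · rw [h1.1, h1.2.1]; exact h.2.1
  · rw [h1.1, h1.2.1]; exact h.2.2

theorem rel_lt (A : V → V → Prop) (u v : V) : rel A u v < 3 := by
  unfold rel
  split_ifs <;> omega

theorem cd_lt {x y z : ℕ} (hx : x < 3) (hy : y < 3) (hz : z < 3) : cd x y z < 27 := by
  unfold cd
  simp only [Nat.add_eq, Nat.mul_eq]
  omega

/-- one pattern of an induced directed 4-cycle -/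
def pat (ab bc cd da ac bd : ℕ) : Bool :=
  and (Nat.beq ab 1) (and (Nat.beq bc 1) (and (Nat.beq cd 1) (and (Nat.beq da 1)
    (and (Nat.beq ac 0) (Nat.beq bd 0)))))

theorem c4_spec : (B3 fun r01 n01 => B3 fun r02 n02 => B3 fun r12 n12 => B3 fun r03 n03 =>
    B3 fun r13 n13 => B3 fun r23 n23 => or (not (c4 (cd r01 r02 r12) (cd r03 r13 r23)))
      (or (pat r01 r12 r23 n03 r02 r13) (or (pat r01 r13 n23 n02 r03 r12)
      (or (pat r02 n12 r13 n03 r01 r23) (or (pat r02 r23 n13 n01 r03 n12)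
      (or (pat r03 n13 r12 n02 r01 n23) (pat r03 n23 n12 n01 r02 n13)))))))
    = true := by decide +kernel

theorem pat_false {A : V → V → Prop} (hA : Good A) (a b c d : V) :
    pat (rel A a b) (rel A b c) (rel A c d) (rel A d a) (rel A a c) (rel A b d) = false := by
  by_contra h
  rw [Bool.not_eq_false] at h
  unfold pat at h
  simp only [Bool.and_eq_true] at h
  obtain ⟨h1, h2, h3, h4, h5, h6⟩ := h
  have h1 := Nat.eq_of_beq_eq_true h1
  have h2 := Nat.eq_of_beq_eq_true h2
  have h3 := Nat.eq_of_beq_eq_true h3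
  have h4 := Nat.eq_of_beq_eq_true h4
  have h5 := Nat.eq_of_beq_eq_true h5
  have h6 := Nat.eq_of_beq_eq_true h6
  have k : ∀ u v, rel A u v = 1 → A u v := by
    intro u v h
    rcases rel_cases hA u v with q | q | q
    · omega
    · exact q.2.2.1
    · omega
  have k0 : ∀ u v, rel A u v = 0 → ¬ (A u v ∨ A v u) := by
    intro u v h
    rcases rel_cases hA u v with q | q | q
    · tauto
    · omega
    · omega
  rcases hA.2 a b c d (k _ _ h1) (k _ _ h2) (k _ _ h3) (k _ _ h4) with q | q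
  · exact k0 _ _ h5 q
  · exact k0 _ _ h6 q

theorem c4_false {A : V → V → Prop} (hA : Good A) (a b c d : V) :
    c4 (cd (rel A a b) (rel A a c) (rel A b c)) (cd (rel A a d) (rel A b d) (rel A c d)) = false := by
  have h := B3_true (B3_true (B3_true (B3_true (B3_true (B3_true c4_spec hA a b) hA a c) hA b c)
    hA a d) hA b d) hA c d
  simp only [pat_false hA, Bool.or_false, Bool.not_eq_true'] at h
  exact h

theorem or_left_false {a b : Bool} (h : or a b = true) (ha : a = false) : b = true := by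
  subst ha; exact h

theorem okl_true {A : V → V → Prop} (hA : Good A) {q3 : ℕ → ℕ → ℕ → ℕ} {q1 : ℕ → ℕ → ℕ}
    {t3 : ℕ → ℕ} {CST CH : ℕ}
    (h : (B3 fun r01 n01 => B3 fun r02 n02 => B3 fun r12 n12 =>
      chk4 q3 q1 t3 CST CH r01 n01 r02 n02 r12 n12) = true) (x : Fin 5 → V) :
    okl q3 q1 t3 CST CH (rel A (x 0) (x 1)) (rel A (x 0) (x 2)) (rel A (x 1) (x 2))
      (rel A (x 0) (x 3)) (rel A (x 1) (x 3)) (rel A (x 2) (x 3)) (rel A (x 0) (x 4))
      (rel A (x 1) (x 4)) (rel A (x 2) (x 4)) (rel A (x 3) (x 4))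
      (rel A (x 1) (x 0)) (rel A (x 2) (x 0)) (rel A (x 2) (x 1))
      (rel A (x 3) (x 0)) (rel A (x 3) (x 1)) (rel A (x 3) (x 2)) (rel A (x 4) (x 0))
      (rel A (x 4) (x 1)) (rel A (x 4) (x 2)) (rel A (x 4) (x 3)) = true := by
  have h1 := B3_true (B3_true (B3_true h hA (x 0) (x 1)) hA (x 0) (x 2)) hA (x 1) (x 2)
  unfold chk4 at h1
  have h2 := or_left_false (B3_true (B3_true (B3_true h1 hA (x 0) (x 3)) hA (x 1) (x 3)) hA
    (x 2) (x 3)) (c4_false hA _ _ _ _)
  have h3 := or_left_false (B3_true (B3_true (B3_true h2 hA (x 0) (x 4)) hA (x 1) (x 4)) hA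
    (x 2) (x 4)) (c4_false hA _ _ _ _)
  exact or_left_false (or_left_false (or_left_false (B3_true h3 hA (x 3) (x 4))
    (c4_false hA _ _ _ _)) (c4_false hA _ _ _ _)) (c4_false hA _ _ _ _)

end Pool.Agent.W841.FF
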