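import Pool.Agent.W841.FF.Basic
import Pool.Agent.W841.FF.CLnum

/-! The chain lemma: one half. -/

set_option autoImplicit false

open Finset
open scoped Classical

namespace Pool.Agent.W841.FF

variable {V : Type}

theorem root_bound {p b n N : ℝ} (hp : 0 ≤ p)
    (h1 : p ≤ b + n) (h2 : 2 * (p * b) ≤ N) : p ≤ n / 2 + Real.sqrt (N / 2 + n ^ 2 / 4) := by
  have h3 : (p - n / 2) ^ 2 ≤ N / 2 + n ^ 2 / 4 := by
    have : p * (p - n) ≤ p * b := mul_le_mul_of_nonneg_left (by linarith) hp
    nlinarith
  have h4 : p - n / 2 ≤ Real.sqrt (N / 2 + n ^ 2 / 4) := Real.le_sqrt_of_sq_le h3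
  linarith

/-- If `x0` is not adjacent to `x` and its out-weight into `Y` is not larger, then the set of
`u ∈ Y` with `x0 → u → x` is small. -/
theorem half {A : V → V → Prop} (hA : Good A) {w : V → ℝ} (hw : ∀ v, 0 < w v) (Y : Finset V)
    (x0 x : V) (hna : ¬ (A x0 x ∨ A x x0))
    (hmin : ∑ u ∈ Y, w u * ar A x0 u ≤ ∑ u ∈ Y, w u * ar A x u) :
    ∑ u ∈ Y, w u * (ar A x0 u * ar A u x) ≤
      (∑ u ∈ Y, w u * (1 - ad A x0 u)) / 2 + Real.sqrt ((∑ u ∈ Y, ∑ v ∈ Y, w u * w v * ad A u v) / 2
        + (∑ u ∈ Y, w u * (1 - ad A x0 u)) ^ 2 / 4) := by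
  have hw0 : ∀ v, 0 ≤ w v := fun v => (hw v).le
  apply root_bound (b := ∑ u ∈ Y, w u * (ar A x u * ar A u x0))
  · exact sum_nonneg fun u _ => mul_nonneg (hw0 u) (mul_nonneg (ar_nonneg _ _ _) (ar_nonneg _ _ _))
  · have h : ∑ u ∈ Y, (w u * (ar A x0 u * ar A u x) - w u * (ar A x u * ar A u x0)
        - w u * (1 - ad A x0 u)) ≤ ∑ u ∈ Y, (w u * ar A x0 u - w u * ar A x u) := by
      refine sum_le_sum fun u _ => ?_
      have : ar A x0 u * ar A u x - ar A x u * ar A u x0 - (1 - ad A x0 u) ≤ ar A x0 u - ar A x u := by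
        unfold ar ad
        by_cases a1 : A x0 u
        · have b1 := hA.1 _ _ a1
          by_cases a2 : A x u
          · have b2 := hA.1 _ _ a2
            simp [a1, b1, a2, b2]
          · by_cases a3 : A u x <;> simp [a1, b1, a2, a3]
        · by_cases b1 : A u x0
          · by_cases a2 : A x u
            · simp [a1, b1, a2]
            · simp [a1, b1, a2]
          · by_cases a2 : A x u <;> simp [a1, b1, a2]
      nlinarith [hw0 u]
    rw [sum_sub_distrib, sum_sub_distrib, sum_sub_distrib] at h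
    linarith
  · have h : ∑ u ∈ Y, ∑ v ∈ Y, (w u * (ar A x0 u * ar A u x)) * (w v * (ar A x v * ar A v x0)) +
        ∑ u ∈ Y, ∑ v ∈ Y, (w u * (ar A x u * ar A u x0)) * (w v * (ar A x0 v * ar A v x)) ≤
        ∑ u ∈ Y, ∑ v ∈ Y, w u * w v * ad A u v := by
      rw [← sum_add_distrib]
      refine sum_le_sum fun u _ => ?_
      rw [← sum_add_distrib]
      refine sum_le_sum fun v _ => ?_
      have key : (ar A x0 u * ar A u x) * (ar A x v * ar A v x0) +
          (ar A x u * ar A u x0) * (ar A x0 v * ar A v x) ≤ ad A u v := by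
        by_cases c1 : A x0 u ∧ A u x ∧ A x v ∧ A v x0
        · obtain ⟨a1, a2, a3, a4⟩ := c1
          have b1 := hA.1 _ _ a1
          have e : A u v ∨ A v u := (hA.2 x0 u x v a1 a2 a3 a4).resolve_left hna
          rw [ad_one e, ar_one a1, ar_one a2, ar_one a3, ar_one a4, ar_zero b1]
          norm_num
        · have z1 : (ar A x0 u * ar A u x) * (ar A x v * ar A v x0) = 0 := by
            by_contra hne
            apply c1
            unfold ar at hne
            by_cases a1 : A x0 u <;> by_cases a2 : A u x <;> by_cases a3 : A x v <;>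
              by_cases a4 : A v x0 <;> simp [a1, a2, a3, a4] at hne ⊢
          rw [z1, zero_add]
          by_cases c2 : A x u ∧ A u x0 ∧ A x0 v ∧ A v x
          · obtain ⟨a1, a2, a3, a4⟩ := c2
            have e : A u v ∨ A v u := (hA.2 x u x0 v a1 a2 a3 a4).resolve_left
              (fun h => hna h.symm)
            rw [ad_one e, ar_one a1, ar_one a2, ar_one a3, ar_one a4]
            norm_num
          · have z2 : (ar A x u * ar A u x0) * (ar A x0 v * ar A v x) = 0 := by
              by_contra hne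
              apply c2
              unfold ar at hne
              by_cases a1 : A x u <;> by_cases a2 : A u x0 <;> by_cases a3 : A x0 v <;>
                by_cases a4 : A v x <;> simp [a1, a2, a3, a4] at hne ⊢
            rw [z2]
            exact ad_nonneg _ _ _
      have hwuv : 0 ≤ w u * w v := mul_nonneg (hw0 u) (hw0 v)
      calc _ = w u * w v * ((ar A x0 u * ar A u x) * (ar A x v * ar A v x0) +
          (ar A x u * ar A u x0) * (ar A x0 v * ar A v x)) := by ring
        _ ≤ _ := mul_le_mul_of_nonneg_left key hwuv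
    rw [← sum_mul_sum, ← sum_mul_sum] at h
    linarith

end Pool.Agent.W841.FF
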