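import Pool.Agent.W841.FF.Sound

/-! The integrated flag inequality. -/

set_option autoImplicit false
set_option maxRecDepth 100000

open Finset
open scoped Classical

namespace Pool.Agent.W841.FF

variable {V : Type} [Fintype V]

theorem F3_ge {A : V → V → Prop} {w : V → ℝ} (hw : ∀ v, 0 ≤ w v) (hs : ∑ v, w v = 1)
    (q3 : ℕ → ℕ → ℕ → ℕ) (K : ℕ) (l : ℕ → ℕ → ℕ → ℝ) (OFF : ℝ)
    (hq : ∀ t i j, t < 27 → i < 27 → j < 27 →
      (q3 t i j : ℝ) = ∑ k ∈ range K, l t i k * l t j k + OFF) :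
    OFF ≤ En w 5 (F3 q3 A) := by
  have h := En5 w (fun a b c d e => ((q3 (cd (rel A a b) (rel A a c) (rel A b c))
    (cd (rel A a d) (rel A b d) (rel A c d)) (cd (rel A a e) (rel A b e) (rel A c e)) : ℕ) : ℝ))
  have h2 : En w 5 (F3 q3 A) = _ := h
  rw [h2]
  have hc : ∀ x y z u v t : V, cd (rel A x y) (rel A z u) (rel A v t) < 27 := fun _ _ _ _ _ _ =>
    cd_lt (rel_lt _ _ _) (rel_lt _ _ _) (rel_lt _ _ _)
  have key : ∀ a b c : V, OFF ≤ ∑ d, w d * ∑ e, w e *
      ((q3 (cd (rel A a b) (rel A a c) (rel A b c))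
        (cd (rel A a d) (rel A b d) (rel A c d)) (cd (rel A a e) (rel A b e) (rel A c e)) : ℕ) : ℝ) := by
    intro a b c
    have g := gram_nonneg w K (fun d k => l (cd (rel A a b) (rel A a c) (rel A b c))
      (cd (rel A a d) (rel A b d) (rel A c d)) k)
    have e1 : ∑ d, w d * ∑ e, w e *
      ((q3 (cd (rel A a b) (rel A a c) (rel A b c))
        (cd (rel A a d) (rel A b d) (rel A c d)) (cd (rel A a e) (rel A b e) (rel A c e)) : ℕ) : ℝ)
        = (∑ d, w d * ∑ e, w e * ∑ k ∈ range K,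
          l (cd (rel A a b) (rel A a c) (rel A b c)) (cd (rel A a d) (rel A b d) (rel A c d)) k *
          l (cd (rel A a b) (rel A a c) (rel A b c)) (cd (rel A a e) (rel A b e) (rel A c e)) k)
          + OFF := by
      have : ∀ d, ∑ e, w e *
        ((q3 (cd (rel A a b) (rel A a c) (rel A b c))
        (cd (rel A a d) (rel A b d) (rel A c d)) (cd (rel A a e) (rel A b e) (rel A c e)) : ℕ) : ℝ)
        = (∑ e, w e * ∑ k ∈ range K,
          l (cd (rel A a b) (rel A a c) (rel A b c)) (cd (rel A a d) (rel A b d) (rel A c d)) k *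
          l (cd (rel A a b) (rel A a c) (rel A b c)) (cd (rel A a e) (rel A b e) (rel A c e)) k)
          + OFF := by
        intro d
        have h3 : ∀ e, w e * ((q3 (cd (rel A a b) (rel A a c) (rel A b c))
          (cd (rel A a d) (rel A b d) (rel A c d)) (cd (rel A a e) (rel A b e) (rel A c e)) : ℕ) : ℝ)
          = w e * (∑ k ∈ range K,
          l (cd (rel A a b) (rel A a c) (rel A b c)) (cd (rel A a d) (rel A b d) (rel A c d)) k *
          l (cd (rel A a b) (rel A a c) (rel A b c)) (cd (rel A a e) (rel A b e) (rel A c e)) k)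
          + w e * OFF := by
          intro e
          rw [hq _ _ _ (hc _ _ _ _ _ _) (hc _ _ _ _ _ _) (hc _ _ _ _ _ _)]
          ring
        rw [sum_congr rfl fun e _ => h3 e, sum_add_distrib, ← sum_mul, hs, one_mul]
      simp only [this, mul_add, sum_add_distrib]
      rw [← sum_mul, hs, one_mul]
    rw [e1]
    linarith
  calc OFF = ∑ a, w a * ∑ b, w b * ∑ c, w c * OFF := by
        simp only [← sum_mul, hs, one_mul]
    _ ≤ _ := by
        refine sum_le_sum fun a _ => mul_le_mul_of_nonneg_left ?_ (hw a)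
        refine sum_le_sum fun b _ => mul_le_mul_of_nonneg_left ?_ (hw b)
        exact sum_le_sum fun c _ => mul_le_mul_of_nonneg_left (key a b c) (hw c)

theorem pair_sum {w : V → ℝ} (g : V → V → ℝ) :
    ∑ b, w b * ∑ c, w c * g b c = ∑ p : V × V, (w p.1 * w p.2) * g p.1 p.2 := by
  rw [Fintype.sum_prod_type]
  refine sum_congr rfl fun b _ => ?_
  rw [mul_sum]
  exact sum_congr rfl fun c _ => by ring

theorem F1_ge {A : V → V → Prop} {w : V → ℝ} (hw : ∀ v, 0 ≤ w v) (hs : ∑ v, w v = 1)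
    (q1 : ℕ → ℕ → ℕ) (K : ℕ) (l : ℕ → ℕ → ℝ) (OFF : ℝ)
    (hq : ∀ i j, i < 27 → j < 27 → (q1 i j : ℝ) = ∑ k ∈ range K, l i k * l j k + OFF) :
    OFF ≤ En w 5 (F1 q1 A) := by
  have h := En5 w (fun a b c d e => ((q1 (cd (rel A a b) (rel A a c) (rel A b c))
    (cd (rel A a d) (rel A a e) (rel A d e)) : ℕ) : ℝ))
  have h2 : En w 5 (F1 q1 A) = _ := h
  rw [h2]
  have hc : ∀ x y z u v t : V, cd (rel A x y) (rel A z u) (rel A v t) < 27 := fun _ _ _ _ _ _ =>
    cd_lt (rel_lt _ _ _) (rel_lt _ _ _) (rel_lt _ _ _)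
  have hu : ∑ p : V × V, w p.1 * w p.2 = 1 := by
    rw [Fintype.sum_prod_type]
    simp only [← mul_sum, hs, mul_one]
  have key : ∀ a : V, OFF ≤ ∑ b, w b * ∑ c, w c * ∑ d, w d * ∑ e, w e *
      ((q1 (cd (rel A a b) (rel A a c) (rel A b c)) (cd (rel A a d) (rel A a e) (rel A d e)) : ℕ) : ℝ) := by
    intro a
    have g := gram_nonneg (fun p : V × V => w p.1 * w p.2) K
      (fun p k => l (cd (rel A a p.1) (rel A a p.2) (rel A p.1 p.2)) k)
    rw [pair_sum (fun b c => ∑ d, w d * ∑ e, w e *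
      ((q1 (cd (rel A a b) (rel A a c) (rel A b c)) (cd (rel A a d) (rel A a e) (rel A d e)) : ℕ) : ℝ))]
    have e1 : ∀ p : V × V, ∑ d, w d * ∑ e, w e *
      ((q1 (cd (rel A a p.1) (rel A a p.2) (rel A p.1 p.2)) (cd (rel A a d) (rel A a e) (rel A d e)) : ℕ) : ℝ)
      = (∑ q : V × V, (w q.1 * w q.2) * ∑ k ∈ range K,
        l (cd (rel A a p.1) (rel A a p.2) (rel A p.1 p.2)) k *
        l (cd (rel A a q.1) (rel A a q.2) (rel A q.1 q.2)) k) + OFF := by
      intro p
      rw [pair_sum (fun d e => ((q1 (cd (rel A a p.1) (rel A a p.2) (rel A p.1 p.2))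
        (cd (rel A a d) (rel A a e) (rel A d e)) : ℕ) : ℝ))]
      have h3 : ∀ q : V × V, (w q.1 * w q.2) * ((q1 (cd (rel A a p.1) (rel A a p.2) (rel A p.1 p.2))
        (cd (rel A a q.1) (rel A a q.2) (rel A q.1 q.2)) : ℕ) : ℝ) =
        (w q.1 * w q.2) * (∑ k ∈ range K,
        l (cd (rel A a p.1) (rel A a p.2) (rel A p.1 p.2)) k *
        l (cd (rel A a q.1) (rel A a q.2) (rel A q.1 q.2)) k) + (w q.1 * w q.2) * OFF := by
        intro q
        rw [hq _ _ (hc _ _ _ _ _ _) (hc _ _ _ _ _ _)]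
        ring
      rw [sum_congr rfl fun q _ => h3 q, sum_add_distrib, ← sum_mul, hu, one_mul]
    rw [sum_congr rfl fun p _ => by rw [e1 p]]
    simp only [mul_add, sum_add_distrib]
    rw [← sum_mul, hu, one_mul]
    linarith
  calc OFF = ∑ a, w a * OFF := by rw [← sum_mul, hs, one_mul]
    _ ≤ _ := sum_le_sum fun a _ => mul_le_mul_of_nonneg_left (key a) (hw a)

theorem flag_main {A : V → V → Prop} (hA : Good A) {w : V → ℝ} (hw : ∀ v, 0 ≤ w v)
    (hs : ∑ v, w v = 1) {q3 : ℕ → ℕ → ℕ → ℕ} {q1 : ℕ → ℕ → ℕ} {t3 : ℕ → ℕ} {CST CH : ℕ}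
    (h : (B3 fun r01 n01 => B3 fun r02 n02 => B3 fun r12 n12 =>
      chk4 q3 q1 t3 CST CH r01 n01 r02 n02 r12 n12) = true)
    (K K1 : ℕ) (l : ℕ → ℕ → ℕ → ℝ) (l1 : ℕ → ℕ → ℝ) (OFF : ℝ)
    (hq : ∀ t i j, t < 27 → i < 27 → j < 27 →
      (q3 t i j : ℝ) = ∑ k ∈ range K, l t i k * l t j k + OFF)
    (hq1 : ∀ i j, i < 27 → j < 27 → (q1 i j : ℝ) = ∑ k ∈ range K1, l1 i k * l1 j k + OFF) :
    70 * OFF + CH * (5 * En w 5 (Fh A)) ≤ 10 * En w 5 (Ft t3 A) + CST := by
  have hb : ∀ x : Fin 5 → V,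
      (S10.map fun s => F3 q3 A (fun i => x (s i))).sum +
        (4 * (S15.map fun s => F1 q1 A (fun i => x (s i))).sum +
        CH * (S5.map fun s => Fh A (fun i => x (s i))).sum) ≤
      (S10.map fun s => Ft t3 A (fun i => x (s i))).sum + CST := by
    intro x
    have h1 := okl_true hA h x
    unfold okl at h1
    have h2 := Nat.le_of_ble_eq_true h1
    simp only [Nat.add_eq, Nat.mul_eq] at h2
    have h3 : ((_ : ℕ) : ℝ) ≤ ((_ : ℕ) : ℝ) := Nat.cast_le.mpr h2
    simp only [Nat.cast_add, Nat.cast_mul, Nat.cast_ofNat] at h3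
    rw [leaf3_eq, leaf1_eq, leafh_eq, leaft_eq] at h3
    exact h3
  have h2 := En_mono w hw 5 _ _ hb
  have e1 : En w 5 (fun x => (S10.map fun s => F3 q3 A (fun i => x (s i))).sum +
        (4 * (S15.map fun s => F1 q1 A (fun i => x (s i))).sum +
        CH * (S5.map fun s => Fh A (fun i => x (s i))).sum)) =
        10 * En w 5 (F3 q3 A) + (4 * (15 * En w 5 (F1 q1 A)) + CH * (5 * En w 5 (Fh A))) := by
    rw [En_add w 5 (fun x => (S10.map fun s => F3 q3 A (fun i => x (s i))).sum),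
      En_add w 5 (fun x => 4 * (S15.map fun s => F1 q1 A (fun i => x (s i))).sum), En_smul, En_smul,
      En_list w 5 (F3 q3 A) S10 S10_bij, En_list w 5 (F1 q1 A) S15 S15_bij,
      En_list w 5 (Fh A) S5 S5_bij]
    norm_num [S10, S15, S5]
  have e2 : En w 5 (fun x => (S10.map fun s => Ft t3 A (fun i => x (s i))).sum + CST) =
        10 * En w 5 (Ft t3 A) + CST := by
    rw [En_add w 5 (fun x => (S10.map fun s => Ft t3 A (fun i => x (s i))).sum) (fun _ => (CST : ℝ)),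
      En_one w hs, En_list w 5 (Ft t3 A) S10 S10_bij]
    norm_num [S10]
  rw [e1, e2] at h2
  have g3 := F3_ge (A := A) hw hs q3 K l OFF hq
  have g1 := F1_ge (A := A) hw hs q1 K1 l1 OFF hq1
  linarith

end Pool.Agent.W841.FF
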