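import Pool.Agent.W841.FF.Core4

/-! Optimal weights. -/

set_option autoImplicit false

open Finset
open scoped Classical

namespace Pool.Agent.W841.FF

variable {V : Type}

theorem fd_swap (A : V → V → Prop) (a b c : V) : fd A a b c = fd A b a c := by
  have : FT A a b c ↔ FT A b a c := by unfold FT; tauto
  unfold fd
  simp only [this]

theorem fd_swap2 (A : V → V → Prop) (a b c : V) : fd A a b c = fd A a c b := by
  have : FT A a b c ↔ FT A a c b := by unfold FT; tauto
  unfold fd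
  simp only [this]

theorem fd_nonneg (A : V → V → Prop) (a b c : V) : 0 ≤ fd A a b c := by
  unfold fd; split_ifs <;> norm_num

theorem fd_le_one (A : V → V → Prop) (a b c : V) : fd A a b c ≤ 1 := by
  unfold fd; split_ifs <;> norm_num

variable [Fintype V]

noncomputable def tri (A : V → V → Prop) (x y z : V → ℝ) : ℝ :=
  ∑ a, x a * ∑ b, y b * ∑ c, z c * fd A a b c

theorem tri_swap (A : V → V → Prop) (x y z : V → ℝ) : tri A x y z = tri A y x z := by
  unfold tri
  simp only [mul_sum]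
  rw [sum_comm]
  exact sum_congr rfl fun a _ => sum_congr rfl fun b _ => sum_congr rfl fun c _ => by
    rw [fd_swap]; ring

theorem tri_swap2 (A : V → V → Prop) (x y z : V → ℝ) : tri A x y z = tri A x z y := by
  unfold tri
  refine sum_congr rfl fun a _ => ?_
  congr 1
  simp only [mul_sum]
  rw [sum_comm]
  exact sum_congr rfl fun b _ => sum_congr rfl fun c _ => by rw [fd_swap2]; ring

theorem tri_lin (A : V → V → Prop) (x x' y z : V → ℝ) (s t : ℝ) :
    tri A (fun u => s * x u + t * x' u) y z = s * tri A x y z + t * tri A x' y z := by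
  unfold tri
  rw [mul_sum, mul_sum, ← sum_add_distrib]
  exact sum_congr rfl fun a _ => by ring

theorem tri_le_one {A : V → V → Prop} {x y z : V → ℝ} (hx : ∀ v, 0 ≤ x v) (hy : ∀ v, 0 ≤ y v)
    (hz : ∀ v, 0 ≤ z v) (sx : ∑ v, x v = 1) (sy : ∑ v, y v = 1) (sz : ∑ v, z v = 1) :
    tri A x y z ≤ 1 := by
  have key : ∀ {w : V → ℝ} {f : V → ℝ}, (∀ v, 0 ≤ w v) → ∑ v, w v = 1 → (∀ v, f v ≤ 1) →
      ∑ v, w v * f v ≤ 1 := by
    intro w f hw hs hf
    calc ∑ v, w v * f v ≤ ∑ v, w v * 1 := sum_le_sum fun v _ => mul_le_mul_of_nonneg_left (hf v) (hw v)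
      _ = 1 := by simp only [mul_one, hs]
  exact key hx sx fun a => key hy sy fun b => key hz sz fun c => fd_le_one _ _ _ _

theorem tri_nonneg {A : V → V → Prop} {x y z : V → ℝ} (hx : ∀ v, 0 ≤ x v) (hy : ∀ v, 0 ≤ y v)
    (hz : ∀ v, 0 ≤ z v) : 0 ≤ tri A x y z :=
  sum_nonneg fun a _ => mul_nonneg (hx a) <| sum_nonneg fun b _ => mul_nonneg (hy b) <|
    sum_nonneg fun c _ => mul_nonneg (hz c) (fd_nonneg _ _ _ _)

theorem tri_cube (A : V → V → Prop) (x e : V → ℝ) (s t : ℝ) :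
    tri A (fun u => s * x u + t * e u) (fun u => s * x u + t * e u) (fun u => s * x u + t * e u) =
      s ^ 3 * tri A x x x + 3 * (s ^ 2 * t * tri A e x x) + 3 * (s * t ^ 2 * tri A e e x) +
      t ^ 3 * tri A e e e := by
  have h1 : ∀ y, tri A y (fun u => s * x u + t * e u) (fun u => s * x u + t * e u) =
      s ^ 2 * tri A y x x + 2 * (s * t * tri A y e x) + t ^ 2 * tri A y e e := by
    intro y
    have h2 : ∀ p q, tri A y (fun u => s * p u + t * q u) (fun u => s * x u + t * e u) =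
        s * tri A y p (fun u => s * x u + t * e u) + t * tri A y q (fun u => s * x u + t * e u) := by
      intro p q
      rw [tri_swap, tri_lin, tri_swap A p, tri_swap A q]
    have h3 : ∀ p, tri A y p (fun u => s * x u + t * e u) = s * tri A y p x + t * tri A y p e := by
      intro p
      rw [tri_swap2, tri_swap, tri_lin, tri_swap A x, tri_swap A e, tri_swap2 A y x,
        tri_swap2 A y e]
    rw [h2, h3, h3, tri_swap2 A y x e]
    ring
  rw [h1, tri_lin, tri_lin, tri_lin, tri_swap A x e x, tri_swap2 A e x x, tri_swap A x e e,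
    tri_swap2 A e x e]
  ring

noncomputable def dl (v : V) : V → ℝ := fun u => if u = v then 1 else 0

theorem dl_sum (v : V) (f : V → ℝ) : ∑ u, dl v u * f u = f v := by
  unfold dl
  simp

theorem tri_dl (A : V → V → Prop) (w : V → ℝ) (v : V) : tri A (dl v) w w = deg A w v := by
  unfold tri
  rw [dl_sum]
  rfl

theorem exists_min [Nonempty V] (A : V → V → Prop) :
    ∃ w : V → ℝ, (∀ v, 0 ≤ w v) ∧ ∑ v, w v = 1 ∧
      ∀ w' : V → ℝ, (∀ v, 0 ≤ w' v) → ∑ v, w' v = 1 → DD A w ≤ DD A w' := by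
  have hc : Continuous (fun w : V → ℝ => DD A w) := by
    unfold DD
    fun_prop
  have hne : (stdSimplex ℝ V).Nonempty := by
    obtain ⟨v⟩ := ‹Nonempty V›
    refine ⟨dl v, fun u => ?_, ?_⟩
    · unfold dl; split_ifs <;> norm_num
    · have := dl_sum v (fun _ => 1)
      simpa using this
  obtain ⟨w, hw, hmin⟩ := (isCompact_stdSimplex ℝ V).exists_isMinOn hne hc.continuousOn
  exact ⟨w, hw.1, hw.2, fun w' h1 h2 => hmin ⟨h1, h2⟩⟩

theorem deg_ge {A : V → V → Prop} {w : V → ℝ} (hw : ∀ v, 0 ≤ w v) (hs : ∑ v, w v = 1)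
    (hmin : ∀ w' : V → ℝ, (∀ v, 0 ≤ w' v) → ∑ v, w' v = 1 → DD A w ≤ DD A w') (v : V) :
    DD A w ≤ deg A w v := by
  by_contra hc
  rw [not_le] at hc
  have hdl : ∀ u, 0 ≤ dl v u := fun u => by unfold dl; split_ifs <;> norm_num
  have hdls : ∑ u, dl v u = 1 := by
    have := dl_sum v (fun _ => 1)
    simpa using this
  have d0 : 0 ≤ deg A w v := by rw [← tri_dl]; exact tri_nonneg hdl hw hw
  have D1 : DD A w ≤ 1 := tri_le_one (x := w) (y := w) (z := w) hw hw hw hs hs hs
  have D0 : 0 ≤ DD A w := tri_nonneg (x := w) (y := w) (z := w) hw hw hw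
  have X1 : tri A (dl v) (dl v) w ≤ 1 := tri_le_one hdl hdl hw hdls hdls hs
  have Y1 : tri A (dl v) (dl v) (dl v) ≤ 1 := tri_le_one hdl hdl hdl hdls hdls hdls
  obtain ⟨t, ht⟩ : ∃ t, t = (DD A w - deg A w v) / 8 := ⟨_, rfl⟩
  have ht0 : 0 < t := by rw [ht]; linarith
  have ht1 : t ≤ 1 / 8 := by rw [ht]; linarith
  have h1 := hmin (fun u => (1 - t) * w u + t * dl v u)
    (fun u => add_nonneg (mul_nonneg (by linarith) (hw u)) (mul_nonneg ht0.le (hdl u)))
    (by rw [sum_add_distrib, ← mul_sum, ← mul_sum, hs, hdls]; ring)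
  have h2 : DD A (fun u => (1 - t) * w u + t * dl v u) = _ := tri_cube A w (dl v) (1 - t) t
  rw [h2, tri_dl] at h1
  have h3 : tri A w w w = DD A w := rfl
  rw [h3] at h1
  have h4 : 0 ≤ (1 - t) * t ^ 2 := mul_nonneg (by linarith) (sq_nonneg t)
  have h5 : 0 < t ^ 3 := by positivity
  have h6 : (1 - t) * t ^ 2 * tri A (dl v) (dl v) w ≤ (1 - t) * t ^ 2 := by nlinarith
  have h7 : t ^ 3 * tri A (dl v) (dl v) (dl v) ≤ t ^ 3 := by nlinarith
  have h8 : DD A w ≤ (1 - t) ^ 3 * DD A w + 3 * ((1 - t) ^ 2 * t * deg A w v) +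
      3 * ((1 - t) * t ^ 2) + t ^ 3 := by linarith
  -- divide by t
  have h9 : deg A w v = DD A w - 8 * t := by rw [ht]; ring
  rw [h9] at h8
  have h10 : t * (DD A w * (3 - 3 * t + t ^ 2)) ≤ t * (3 * (1 - t) ^ 2 * (DD A w - 8 * t) +
      3 * (1 - t) * t + t ^ 2) := by nlinarith
  have h11 := le_of_mul_le_mul_left h10 ht0
  have h12 : 0 ≤ DD A w * (t * (3 - 2 * t)) := mul_nonneg D0 (mul_nonneg ht0.le (by linarith))
  have h13 : 24 * (1 - t) ^ 2 ≤ 3 * (1 - t) + t := by
    have : t * (24 * (1 - t) ^ 2) ≤ t * (3 * (1 - t) + t) := by nlinarith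
    exact le_of_mul_le_mul_left this ht0
  nlinarith

theorem deg_eq_DD {A : V → V → Prop} {w : V → ℝ} (hw : ∀ v, 0 ≤ w v) (hs : ∑ v, w v = 1)
    (hmin : ∀ w' : V → ℝ, (∀ v, 0 ≤ w' v) → ∑ v, w' v = 1 → DD A w ≤ DD A w') (v : V)
    (hv : 0 < w v) : deg A w v = DD A w := by
  have h1 : ∑ u, w u * (deg A w u - DD A w) = 0 := by
    have : ∑ u, w u * (deg A w u - DD A w) = ∑ u, w u * deg A w u - (∑ u, w u) * DD A w := by
      rw [sum_mul, ← sum_sub_distrib]
      exact sum_congr rfl fun u _ => by ring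
    rw [this, hs]
    have : DD A w = ∑ u, w u * deg A w u := rfl
    rw [← this]; ring
  have h2 := (sum_eq_zero_iff_of_nonneg fun u _ =>
    mul_nonneg (hw u) (sub_nonneg.mpr (deg_ge hw hs hmin u))).mp h1 v (mem_univ v)
  rcases mul_eq_zero.mp h2 with h | h
  · exact absurd h hv.ne'
  · linarith

theorem sum_supp {w : V → ℝ} (hw : ∀ v, 0 ≤ w v) (f : V → ℝ) :
    ∑ s : {v // 0 < w v}, w s * f s = ∑ v, w v * f v := by
  rw [← sum_subtype (univ.filter fun v => 0 < w v) (fun x => by simp) (fun v => w v * f v)]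
  refine sum_filter_of_ne fun v _ h => ?_
  rcases (hw v).lt_or_eq with h1 | h1
  · exact h1
  · exact absurd (by rw [← h1]; ring) h

/-- **The density bound.** -/
theorem DD_ge {A : V → V → Prop} (hA : Good A) {w : V → ℝ} (hw : ∀ v, 0 ≤ w v)
    (hs : ∑ v, w v = 1) : 4 / 9 ≤ DD A w := by
  have hne : Nonempty V := by
    by_contra h
    rw [not_nonempty_iff] at h
    simp at hs
  obtain ⟨w0, hw0, hs0, hmin⟩ := exists_min A
  refine le_trans ?_ (hmin w hw hs)
  have e1 : ∑ s : {v // 0 < w0 v}, w0 s = 1 := by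
    have := sum_supp hw0 (fun _ => 1)
    simpa [hs0] using this
  have e2 : ∀ f : V → V → ℝ, ∑ b : {v // 0 < w0 v}, w0 b * ∑ c : {v // 0 < w0 v}, w0 c * f b c =
      ∑ b, w0 b * ∑ c, w0 c * f b c := by
    intro f
    simp only [sum_supp hw0]
    exact sum_supp hw0 (fun b => ∑ c, w0 c * f b c)
  have e3 : DD (fun a b : {v // 0 < w0 v} => A a b) (fun s => w0 s) = DD A w0 := by
    have h := sum_supp hw0 (fun a => ∑ b, w0 b * ∑ c, w0 c * fd A a b c)
    have h2 : DD (fun a b : {v // 0 < w0 v} => A a b) (fun s => w0 s) =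
        ∑ a : {v // 0 < w0 v}, w0 a * ∑ b, w0 b * ∑ c, w0 c * fd A a b c := by
      unfold DD
      refine sum_congr rfl fun a _ => ?_
      congr 1
      exact e2 (fun b c => fd A a b c)
    rw [h2, h]; rfl
  rw [← e3]
  refine core (V := {v // 0 < w0 v}) ⟨fun u v => hA.1 u v, fun a b c d => hA.2 a b c d⟩
    (fun s => s.2) e1 fun s => ?_
  rw [e3, ← deg_eq_DD hw0 hs0 hmin s s.2]
  exact e2 (fun b c => fd A s b c)

end Pool.Agent.W841.FF
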