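import Pool.Agent.W841.FF.Part2

/-! The partition with the least defect. -/

set_option autoImplicit false

open Finset
open scoped Classical

namespace Pool.Agent.W841.FF

variable {V : Type}

theorem hd_nonneg (A : V → V → Prop) (P : V → Fin 3) (u v : V) : 0 ≤ hd A P u v := by
  unfold hd sm
  have h1 := ad_nonneg A u v
  have h2 := ad_le_one A u v
  split_ifs <;> linarith

noncomputable def ptF (A : V → V → Prop) (a b x : V) : Fin 3 :=
  if ¬ (A a x ∨ A x a) then 0 else if ¬ (A b x ∨ A x b) then 1 else 2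

theorem dd_eq (A : V → V → Prop) (a b u v : V) :
    dd A a b u v = ad A a b * hd A (ptF A a b) u v := by
  unfold dd hd sm
  have e : (ptF A a b u = ptF A a b v) ↔ (pt A a b u = pt A a b v) := by
    unfold ptF pt
    by_cases h1 : (A a u ∨ A u a) <;> by_cases h2 : (A b u ∨ A u b) <;>
    by_cases h3 : (A a v ∨ A v a) <;> by_cases h4 : (A b v ∨ A v b) <;> simp [h1, h2, h3, h4]
  by_cases h1 : (A a b ∨ A b a)
  · rw [ad_one h1]
    by_cases h2 : (A u v ∨ A v u)
    · rw [ad_one h2]
      by_cases h3 : pt A a b u = pt A a b v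
      · rw [if_pos (e.mpr h3), if_pos ⟨h1, by simp [h2, h3]⟩]; ring
      · rw [if_neg (fun h => h3 (e.mp h)), if_neg (fun h => h3 (h.2.mpr h2))]; ring
    · rw [ad_zero h2]
      by_cases h3 : pt A a b u = pt A a b v
      · rw [if_pos (e.mpr h3), if_neg (fun h => h2 (h.2.mp h3))]; ring
      · rw [if_neg (fun h => h3 (e.mp h)), if_pos ⟨h1, by simp [h2, h3]⟩]; ring
  · rw [ad_zero h1, if_neg (fun h => h1 h.1)]; ring

variable [Fintype V]

noncomputable def nv (A : V → V → Prop) (w : V → ℝ) (P : V → Fin 3) (v : V) (i : Fin 3) : ℝ :=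
  ∑ u, w u * (II P i u * (1 - ad A v u))

noncomputable def Tot (A : V → V → Prop) (w : V → ℝ) (P : V → Fin 3) : ℝ :=
  ∑ v, w v * eta A w P v

theorem Tot_HH {A : V → V → Prop} {w : V → ℝ} (hw : ∀ v, 0 ≤ w v) (P : V → Fin 3)
    (hP : ∀ P' : V → Fin 3, Tot A w P ≤ Tot A w P') : Tot A w P * EE A w ≤ HH A w := by
  unfold HH EE
  rw [mul_sum]
  refine sum_le_sum fun a _ => ?_
  have h1 : Tot A w P * (w a * ∑ b, w b * ad A a b) = w a * ∑ b, w b * (Tot A w P * ad A a b) := by
    rw [← mul_assoc, mul_comm (Tot A w P) (w a), mul_assoc, mul_sum]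
    congr 1
    exact sum_congr rfl fun b _ => by ring
  rw [h1]
  refine mul_le_mul_of_nonneg_left (sum_le_sum fun b _ => mul_le_mul_of_nonneg_left ?_ (hw b)) (hw a)
  have h2 : ∑ c, w c * ∑ d, w d * dd A a b c d = ad A a b * Tot A w (ptF A a b) := by
    unfold Tot eta
    rw [← dsum_smul]
    exact dsum_congr w fun u v => dd_eq A a b u v
  rw [h2, mul_comm]
  exact mul_le_mul_of_nonneg_left (hP _) (ad_nonneg _ _ _)

theorem split_sum (w : V → ℝ) (h : V → V → ℝ) (v : V) (hsym : ∀ u x, h u x = h x u)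
    (h0 : h v v = 0) :
    ∑ u, w u * ∑ x, w x * h u x = ∑ u ∈ univ.erase v, w u * ∑ x ∈ univ.erase v, w x * h u x +
      2 * (w v * ∑ x ∈ univ.erase v, w x * h v x) := by
  have h1 : ∀ u, ∑ x, w x * h u x = ∑ x ∈ univ.erase v, w x * h u x + w v * h u v := fun u =>
    (sum_erase_add univ _ (mem_univ v)).symm
  rw [← sum_erase_add univ _ (mem_univ v)]
  simp only [h1, h0, mul_add, sum_add_distrib]
  have h2 : ∑ x ∈ univ.erase v, w x * (w v * h x v) = w v * ∑ x ∈ univ.erase v, w x * h v x := by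
    rw [mul_sum]
    exact sum_congr rfl fun u _ => by rw [hsym]; ring
  rw [h2]
  ring

theorem hd_self {A : V → V → Prop} (hA : Good A) (P : V → Fin 3) (v : V) : hd A P v v = 0 := by
  unfold hd sm
  rw [ad_self hA, if_pos rfl]; ring

theorem local_opt {A : V → V → Prop} (hA : Good A) {w : V → ℝ} (hw : ∀ v, 0 < w v) (P : V → Fin 3)
    (hP : ∀ P' : V → Fin 3, Tot A w P ≤ Tot A w P') (v : V) (j : Fin 3) :
    aa w P (P v) - 2 * nv A w P v (P v) ≤ aa w P j - 2 * nv A w P v j := by
  by_cases hj : j = P v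
  · rw [hj]
  have h1 := hP (Function.update P v j)
  unfold Tot eta at h1
  rw [split_sum w (hd A P) v (hd_symm A P) (hd_self hA P v),
    split_sum w (hd A (Function.update P v j)) v (hd_symm A _) (hd_self hA _ v)] at h1
  have h2 : ∑ u ∈ univ.erase v, w u * ∑ x ∈ univ.erase v, w x * hd A (Function.update P v j) u x =
      ∑ u ∈ univ.erase v, w u * ∑ x ∈ univ.erase v, w x * hd A P u x := by
    refine sum_congr rfl fun u hu => ?_
    congr 1
    refine sum_congr rfl fun x hx => ?_
    have e1 : Function.update P v j u = P u := Function.update_of_ne (ne_of_mem_erase hu) _ _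
    have e2 : Function.update P v j x = P x := Function.update_of_ne (ne_of_mem_erase hx) _ _
    unfold hd sm
    rw [e1, e2]
  rw [h2] at h1
  have h3 : ∑ x ∈ univ.erase v, w x * hd A P v x ≤
      ∑ x ∈ univ.erase v, w x * hd A (Function.update P v j) v x := by
    have : w v * ∑ x ∈ univ.erase v, w x * hd A P v x ≤
      w v * ∑ x ∈ univ.erase v, w x * hd A (Function.update P v j) v x := by linarith
    exact le_of_mul_le_mul_left this (hw v)
  -- rewrite both sides
  have e : ∀ i : Fin 3, ∑ x ∈ univ.erase v, w x * (II P i x * ad A v x + (1 - II P i x) * (1 - ad A v x)) =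
      aa w P i - 2 * nv A w P v i + nb A w v - w v * (1 - II P i v) := by
    intro i
    have h4 : ∑ x, w x * (II P i x * ad A v x + (1 - II P i x) * (1 - ad A v x)) =
        aa w P i - 2 * nv A w P v i + nb A w v := by
      unfold aa nv nb
      rw [mul_sum, ← sum_sub_distrib, ← sum_add_distrib]
      exact sum_congr rfl fun x _ => by ring
    have h5 := sum_erase_add univ (fun x => w x * (II P i x * ad A v x + (1 - II P i x) * (1 - ad A v x)))
      (mem_univ v)
    simp only [ad_self hA] at h5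
    linarith
  have f1 : ∑ x ∈ univ.erase v, w x * hd A P v x =
      ∑ x ∈ univ.erase v, w x * (II P (P v) x * ad A v x + (1 - II P (P v) x) * (1 - ad A v x)) := by
    refine sum_congr rfl fun x _ => ?_
    unfold hd sm II
    by_cases hx : P v = P x
    · rw [if_pos hx, if_pos hx.symm]
    · rw [if_neg hx, if_neg (fun h => hx h.symm)]
  have f2 : ∑ x ∈ univ.erase v, w x * hd A (Function.update P v j) v x =
      ∑ x ∈ univ.erase v, w x * (II P j x * ad A v x + (1 - II P j x) * (1 - ad A v x)) := by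
    refine sum_congr rfl fun x hx => ?_
    have e2 : Function.update P v j x = P x := Function.update_of_ne (ne_of_mem_erase hx) _ _
    unfold hd sm II
    rw [e2, Function.update_self]
    by_cases hx : j = P x
    · rw [if_pos hx, if_pos hx.symm]
    · rw [if_neg hx, if_neg (fun h => hx h.symm)]
  rw [f1, f2, e, e] at h3
  have g1 : II P (P v) v = 1 := by unfold II; rw [if_pos rfl]
  have g2 : II P j v = 0 := by unfold II; rw [if_neg (fun h => hj h.symm)]
  rw [g1, g2] at h3
  have := hw v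
  linarith

theorem nb_nv {A : V → V → Prop} {w : V → ℝ} (P : V → Fin 3) (v : V) :
    nb A w v = nv A w P v 0 + nv A w P v 1 + nv A w P v 2 := by
  unfold nb nv
  rw [← sum_add_distrib, ← sum_add_distrib]
  refine sum_congr rfl fun u _ => ?_
  rcases II_cases P u with ⟨h, h0, h1, h2⟩ | ⟨h, h0, h1, h2⟩ | ⟨h, h0, h1, h2⟩ <;>
    rw [h0, h1, h2] <;> ring

theorem eta_nv {A : V → V → Prop} {w : V → ℝ} (P : V → Fin 3) (v : V) :
    eta A w P v = aa w P (P v) - 2 * nv A w P v (P v) + nb A w v := by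
  unfold eta aa nv nb
  rw [mul_sum, ← sum_sub_distrib, ← sum_add_distrib]
  refine sum_congr rfl fun x _ => ?_
  unfold hd sm II
  by_cases hx : P v = P x
  · rw [if_pos hx, if_pos hx.symm]; ring
  · rw [if_neg hx, if_neg (fun h => hx h.symm)]; ring

theorem kp_ge {A : V → V → Prop} {w : V → ℝ} (hw : ∀ v, 0 ≤ w v) (P : V → Fin 3) (v : V) :
    nv A w P v 0 * (aa w P 0 - nv A w P v 0) + nv A w P v 1 * (aa w P 1 - nv A w P v 1) +
      nv A w P v 2 * (aa w P 2 - nv A w P v 2) -
      (nn A w P 0 + nn A w P 1 + nn A w P 2) / 2 ≤ kp A w v := by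
  have hN : nn A w P 0 + nn A w P 1 + nn A w P 2 = ∑ u, w u * ∑ x, w x * (sm P u x * ad A u x) := by
    unfold nn
    rw [← dsum_add, ← dsum_add]
    refine dsum_congr w fun u x => ?_
    unfold sm
    rcases II_cases P u with ⟨h, h0, h1, h2⟩ | ⟨h, h0, h1, h2⟩ | ⟨h, h0, h1, h2⟩ <;>
    rcases II_cases P x with ⟨g, g0, g1, g2⟩ | ⟨g, g0, g1, g2⟩ | ⟨g, g0, g1, g2⟩ <;>
    rw [h, h0, h1, h2, g, g0, g1, g2] <;> simp
  have hM : nv A w P v 0 * (aa w P 0 - nv A w P v 0) + nv A w P v 1 * (aa w P 1 - nv A w P v 1) +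
      nv A w P v 2 * (aa w P 2 - nv A w P v 2) =
      ∑ y, w y * ∑ z, w z * ((1 - ad A v y) * ad A v z * sm P y z) := by
    have e : ∀ i, nv A w P v i * (aa w P i - nv A w P v i) =
        ∑ y, w y * ∑ z, w z * ((II P i y * (1 - ad A v y)) * (II P i z * ad A v z)) := by
      intro i
      rw [E2_mul]
      unfold nv aa
      rw [← sum_sub_distrib]
      congr 1
      exact sum_congr rfl fun z _ => by ring
    rw [e, e, e, ← dsum_add, ← dsum_add]
    refine dsum_congr w fun u x => ?_
    unfold sm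
    rcases II_cases P u with ⟨h, h0, h1, h2⟩ | ⟨h, h0, h1, h2⟩ | ⟨h, h0, h1, h2⟩ <;>
    rcases II_cases P x with ⟨g, g0, g1, g2⟩ | ⟨g, g0, g1, g2⟩ | ⟨g, g0, g1, g2⟩ <;>
    rw [h, h0, h1, h2, g, g0, g1, g2] <;> simp
  have hX : 2 * ∑ y, w y * ∑ z, w z * ((1 - ad A v y) * ad A v z * (sm P y z * ad A y z)) ≤
      ∑ u, w u * ∑ x, w x * (sm P u x * ad A u x) := by
    have e1 : ∑ y, w y * ∑ z, w z * ((1 - ad A v y) * ad A v z * (sm P y z * ad A y z)) =
        ∑ y, w y * ∑ z, w z * ((1 - ad A v z) * ad A v y * (sm P y z * ad A y z)) := by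
      simp only [mul_sum]
      rw [sum_comm]
      refine sum_congr rfl fun u _ => sum_congr rfl fun x _ => ?_
      rw [sm_symm, ad_symm A x u]; ring
    rw [two_mul]
    nth_rewrite 2 [e1]
    rw [← dsum_add]
    refine sum_le_sum fun y _ => mul_le_mul_of_nonneg_left
      (sum_le_sum fun z _ => mul_le_mul_of_nonneg_left ?_ (hw z)) (hw y)
    have h1 : 0 ≤ sm P y z * ad A y z := by
      unfold sm
      have := ad_nonneg A y z
      split_ifs <;> linarith
    have h2 : (1 - ad A v y) * ad A v z + (1 - ad A v z) * ad A v y ≤ 1 := by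
      rcases ad_cases A v y with h | h <;> rcases ad_cases A v z with g | g <;> rw [h, g] <;> norm_num
    nlinarith
  have hK : ∑ y, w y * ∑ z, w z * ((1 - ad A v y) * ad A v z * sm P y z) -
      ∑ y, w y * ∑ z, w z * ((1 - ad A v y) * ad A v z * (sm P y z * ad A y z)) ≤ kp A w v := by
    have e2 : ∑ y, w y * ∑ z, w z * ((1 - ad A v y) * ad A v z * sm P y z) -
      ∑ y, w y * ∑ z, w z * ((1 - ad A v y) * ad A v z * (sm P y z * ad A y z)) =
      ∑ y, w y * ∑ z, w z * ((1 - ad A v y) * ad A v z * sm P y z * (1 - ad A y z)) := by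
      rw [← sum_sub_distrib]
      refine sum_congr rfl fun y _ => ?_
      rw [← mul_sub, ← sum_sub_distrib]
      congr 1
      exact sum_congr rfl fun z _ => by ring
    rw [e2]
    unfold kp
    refine sum_le_sum fun y _ => mul_le_mul_of_nonneg_left
      (sum_le_sum fun z _ => mul_le_mul_of_nonneg_left ?_ (hw z)) (hw y)
    have h1 := ad_nonneg A v y
    have h2 := ad_le_one A v y
    have h3 := ad_nonneg A v z
    have h4 := ad_le_one A y z
    have h5 : 0 ≤ (1 - ad A v y) * ad A v z * (1 - ad A y z) :=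
      mul_nonneg (mul_nonneg (by linarith) h3) (by linarith)
    have h6 : sm P y z ≤ 1 := by unfold sm; split_ifs <;> norm_num
    nlinarith
  rw [hM, hN]
  linarith

end Pool.Agent.W841.FF
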