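import Pool.Agent.W841.FF.Deg
import Pool.Agent.W841.FF.Dens

/-! The lower bound on the density from a partition into three parts. -/

set_option autoImplicit false

open Finset
open scoped Classical

namespace Pool.Agent.W841.FF

variable {V : Type}

noncomputable def sm (P : V → Fin 3) (u v : V) : ℝ := if P u = P v then 1 else 0
noncomputable def II (P : V → Fin 3) (i : Fin 3) (v : V) : ℝ := if P v = i then 1 else 0
/-- defects: adjacent pairs inside parts, non-adjacent pairs across -/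
noncomputable def hd (A : V → V → Prop) (P : V → Fin 3) (u v : V) : ℝ :=
  sm P u v * ad A u v + (1 - sm P u v) * (1 - ad A u v)

theorem sm_symm (P : V → Fin 3) (u v : V) : sm P u v = sm P v u := by
  unfold sm; congr 1; exact propext eq_comm

theorem hd_symm (A : V → V → Prop) (P : V → Fin 3) (u v : V) : hd A P u v = hd A P v u := by
  unfold hd; rw [sm_symm, ad_symm]

theorem ad_cases (A : V → V → Prop) (u v : V) : ad A u v = 0 ∨ ad A u v = 1 := by
  unfold ad; split_ifs <;> simp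

theorem sm_cases (P : V → Fin 3) (u v x : V) :
    (sm P u v = 1 ∧ sm P u x = 1 ∧ sm P v x = 1) ∨ (sm P u v = 1 ∧ sm P u x = 0 ∧ sm P v x = 0) ∨
    (sm P u v = 0 ∧ sm P u x = 1 ∧ sm P v x = 0) ∨ (sm P u v = 0 ∧ sm P u x = 0 ∧ sm P v x = 1) ∨
    (sm P u v = 0 ∧ sm P u x = 0 ∧ sm P v x = 0) := by
  unfold sm
  by_cases h1 : P u = P v
  · by_cases h2 : P u = P x
    · have h3 : P v = P x := h1 ▸ h2
      simp [h1, h3]
    · have h3 : ¬ P v = P x := fun h => h2 (h1.trans h)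
      simp [h1, h3]
  · by_cases h2 : P u = P x
    · have h3 : ¬ P v = P x := fun h => h1 (h2.trans h.symm)
      have h4 : ¬ P x = P v := fun h => h3 h.symm
      simp [h2, h3, h4]
    · by_cases h3 : P v = P x
      · simp [h1, h2, h3]
      · simp [h1, h2, h3]

theorem tri_le {A : V → V → Prop} (hA : Good A) (P : V → Fin 3) (u v x : V) :
    sm P u v * sm P u x + (1 - sm P u v) * (1 - ad A u v) * (sm P u x + sm P v x) +
      (1 - sm P u x) * (1 - ad A u x) * (sm P u v + sm P x v) +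
      (1 - sm P v x) * (1 - ad A v x) * (sm P v u + sm P x u) -
      (hd A P u v * hd A P u x + hd A P v u * hd A P v x + hd A P x u * hd A P x v) +
      (ar A u v * ar A u x + ar A v u * ar A v x + ar A x u * ar A x v) ≤ fd A u v x := by
  rw [fd_eq hA, hd_symm A P v u, hd_symm A P x u, hd_symm A P x v, sm_symm P v u, sm_symm P x u,
    sm_symm P x v, ad_symm A x v]
  unfold hd
  have key : ∀ s1 s2 s3 p q r : ℝ, (p = 0 ∨ p = 1) → (q = 0 ∨ q = 1) → (r = 0 ∨ r = 1) →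
    ((s1 = 1 ∧ s2 = 1 ∧ s3 = 1) ∨ (s1 = 1 ∧ s2 = 0 ∧ s3 = 0) ∨ (s1 = 0 ∧ s2 = 1 ∧ s3 = 0) ∨
      (s1 = 0 ∧ s2 = 0 ∧ s3 = 1) ∨ (s1 = 0 ∧ s2 = 0 ∧ s3 = 0)) →
    s1 * s2 + (1 - s1) * (1 - p) * (s2 + s3) + (1 - s2) * (1 - q) * (s1 + s3) +
      (1 - s3) * (1 - r) * (s1 + s2) - ((s1 * p + (1 - s1) * (1 - p)) * (s2 * q + (1 - s2) * (1 - q)) +
      (s1 * p + (1 - s1) * (1 - p)) * (s3 * r + (1 - s3) * (1 - r)) +
      (s2 * q + (1 - s2) * (1 - q)) * (s3 * r + (1 - s3) * (1 - r))) ≤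
      (1 - p) * (1 - q) + (1 - p) * (1 - r) * q + (1 - q) * (1 - r) * p := by
    intro s1 s2 s3 p q r hp hq hr hs
    rcases hs with ⟨h1, h2, h3⟩ | ⟨h1, h2, h3⟩ | ⟨h1, h2, h3⟩ | ⟨h1, h2, h3⟩ | ⟨h1, h2, h3⟩ <;>
    rcases hp with hp | hp <;> rcases hq with hq | hq <;> rcases hr with hr | hr <;>
    rw [h1, h2, h3, hp, hq, hr] <;> norm_num
  have h := key (sm P u v) (sm P u x) (sm P v x) (ad A u v) (ad A u x) (ad A v x)
    (ad_cases A u v) (ad_cases A u x) (ad_cases A v x) (sm_cases P u v x)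
  linarith

variable [Fintype V]

noncomputable def aa (w : V → ℝ) (P : V → Fin 3) (i : Fin 3) : ℝ := ∑ v, w v * II P i v
noncomputable def eta (A : V → V → Prop) (w : V → ℝ) (P : V → Fin 3) (v : V) : ℝ :=
  ∑ u, w u * hd A P v u
noncomputable def mm (A : V → V → Prop) (w : V → ℝ) (P : V → Fin 3) (i j : Fin 3) : ℝ :=
  ∑ u, w u * ∑ v, w v * (II P i u * II P j v * (1 - ad A u v))
noncomputable def nn (A : V → V → Prop) (w : V → ℝ) (P : V → Fin 3) (i : Fin 3) : ℝ :=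
  ∑ u, w u * ∑ v, w v * (II P i u * II P i v * ad A u v)

theorem sum_sm (w : V → ℝ) (P : V → Fin 3) (u : V) : ∑ c, w c * sm P u c = aa w P (P u) := by
  unfold aa sm II
  refine sum_congr rfl fun c _ => ?_
  congr 2
  exact propext eq_comm

theorem D_ge {A : V → V → Prop} (hA : Good A) {w : V → ℝ} (hw : ∀ v, 0 ≤ w v)
    (P : V → Fin 3) :
    ∑ u, w u * (aa w P (P u)) ^ 2 + 3 * ∑ u, w u * ∑ v, w v * ((1 - sm P u v) * (1 - ad A u v) *
      (aa w P (P u) + aa w P (P v))) - 3 * ∑ v, w v * (eta A w P v) ^ 2 + 3 * SS A w ≤ DD A w := by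
  have h1 : DD A w = En w 3 (fun x => fd A (x 0) (x 1) (x 2)) := (En3 w (fun a b c => fd A a b c)).symm
  rw [h1]
  refine le_trans (le_of_eq ?_) (En_mono w hw 3 _ _ (fun x => tri_le hA P (x 0) (x 1) (x 2)))
  set g : V → V → V → ℝ := fun a b c => (1 - sm P a b) * (1 - ad A a b) * (sm P a c + sm P b c) with hg
  set h : V → V → V → ℝ := fun a b c => hd A P a b * hd A P a c with hh
  have e : (fun x : Fin 3 → V => sm P (x 0) (x 1) * sm P (x 0) (x 2) +
      (1 - sm P (x 0) (x 1)) * (1 - ad A (x 0) (x 1)) * (sm P (x 0) (x 2) + sm P (x 1) (x 2)) +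
      (1 - sm P (x 0) (x 2)) * (1 - ad A (x 0) (x 2)) * (sm P (x 0) (x 1) + sm P (x 2) (x 1)) +
      (1 - sm P (x 1) (x 2)) * (1 - ad A (x 1) (x 2)) * (sm P (x 1) (x 0) + sm P (x 2) (x 0)) -
      (hd A P (x 0) (x 1) * hd A P (x 0) (x 2) + hd A P (x 1) (x 0) * hd A P (x 1) (x 2) +
        hd A P (x 2) (x 0) * hd A P (x 2) (x 1)) +
      (ar A (x 0) (x 1) * ar A (x 0) (x 2) + ar A (x 1) (x 0) * ar A (x 1) (x 2) +
        ar A (x 2) (x 0) * ar A (x 2) (x 1))) =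
      (fun x => (sm P (x 0) (x 1) * sm P (x 0) (x 2) + (g (x 0) (x 1) (x 2) + (g (x 0) (x 2) (x 1) +
        g (x 1) (x 2) (x 0)))) + ((-1) * (h (x 0) (x 1) (x 2) + (h (x 1) (x 0) (x 2) +
        h (x 2) (x 0) (x 1))) + (ar A (x 0) (x 1) * ar A (x 0) (x 2) + ar A (x 1) (x 0) * ar A (x 1) (x 2) +
        ar A (x 2) (x 0) * ar A (x 2) (x 1)))) := by
    funext x
    simp only [hg, hh]
    ring
  rw [e]
  rw [En_add w 3 (fun x => sm P (x 0) (x 1) * sm P (x 0) (x 2) + (g (x 0) (x 1) (x 2) + (g (x 0) (x 2) (x 1) +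
        g (x 1) (x 2) (x 0)))), En_add w 3 (fun x => sm P (x 0) (x 1) * sm P (x 0) (x 2)),
    En_add w 3 (fun x => g (x 0) (x 1) (x 2)), En_add w 3 (fun x => g (x 0) (x 2) (x 1)),
    En_add w 3 (fun x => (-1) * (h (x 0) (x 1) (x 2) + (h (x 1) (x 0) (x 2) + h (x 2) (x 0) (x 1)))),
    En_smul, En_add w 3 (fun x => h (x 0) (x 1) (x 2)), En_add w 3 (fun x => h (x 1) (x 0) (x 2)),
    E3_ch]
  have g0 : En w 3 (fun x => g (x 0) (x 1) (x 2)) = ∑ a, w a * ∑ b, w b * ∑ c, w c * g a b c :=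
    perm3 w g ![0, 1, 2] (bij3 _ (by decide))
  have g1 : En w 3 (fun x => g (x 0) (x 2) (x 1)) = ∑ a, w a * ∑ b, w b * ∑ c, w c * g a b c :=
    perm3 w g ![0, 2, 1] (bij3 _ (by decide))
  have g2 : En w 3 (fun x => g (x 1) (x 2) (x 0)) = ∑ a, w a * ∑ b, w b * ∑ c, w c * g a b c :=
    perm3 w g ![1, 2, 0] (bij3 _ (by decide))
  have h0 : En w 3 (fun x => h (x 0) (x 1) (x 2)) = ∑ a, w a * ∑ b, w b * ∑ c, w c * h a b c :=
    perm3 w h ![0, 1, 2] (bij3 _ (by decide))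
  have h1 : En w 3 (fun x => h (x 1) (x 0) (x 2)) = ∑ a, w a * ∑ b, w b * ∑ c, w c * h a b c :=
    perm3 w h ![1, 0, 2] (bij3 _ (by decide))
  have h2 : En w 3 (fun x => h (x 2) (x 0) (x 1)) = ∑ a, w a * ∑ b, w b * ∑ c, w c * h a b c :=
    perm3 w h ![2, 0, 1] (bij3 _ (by decide))
  rw [g0, g1, g2, h0, h1, h2, En3 w (fun a b c => sm P a b * sm P a c)]
  have t1 : ∑ a, w a * ∑ b, w b * ∑ c, w c * (sm P a b * sm P a c) = ∑ u, w u * (aa w P (P u)) ^ 2 := by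
    refine sum_congr rfl fun a _ => ?_
    rw [E2_mul, sum_sm, sq]
  have t2 : ∑ a, w a * ∑ b, w b * ∑ c, w c * g a b c = ∑ u, w u * ∑ v, w v *
      ((1 - sm P u v) * (1 - ad A u v) * (aa w P (P u) + aa w P (P v))) := by
    refine sum_congr rfl fun a _ => ?_
    congr 1
    refine sum_congr rfl fun b _ => ?_
    congr 1
    rw [← sum_sm w P a, ← sum_sm w P b, ← sum_add_distrib, mul_sum]
    refine sum_congr rfl fun c _ => ?_
    simp only [hg]; ring
  have t3 : ∑ a, w a * ∑ b, w b * ∑ c, w c * h a b c = ∑ v, w v * (eta A w P v) ^ 2 := by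
    refine sum_congr rfl fun a _ => ?_
    simp only [hh]
    rw [E2_mul]
    unfold eta
    rw [sq]
  rw [t1, t2, t3]
  ring

end Pool.Agent.W841.FF
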