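import Pool.Agent.W841.FF.Part

/-! The partition inequality in terms of part sizes. -/

set_option autoImplicit false

open Finset
open scoped Classical

namespace Pool.Agent.W841.FF

variable {V : Type}

theorem II_cases (P : V → Fin 3) (v : V) :
    (P v = 0 ∧ II P 0 v = 1 ∧ II P 1 v = 0 ∧ II P 2 v = 0) ∨
    (P v = 1 ∧ II P 0 v = 0 ∧ II P 1 v = 1 ∧ II P 2 v = 0) ∨
    (P v = 2 ∧ II P 0 v = 0 ∧ II P 1 v = 0 ∧ II P 2 v = 1) := by
  unfold II
  have : P v = 0 ∨ P v = 1 ∨ P v = 2 := by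
    generalize P v = i
    fin_cases i <;> simp
  rcases this with h | h | h <;> simp [h]

variable [Fintype V]

theorem sum_phi (w : V → ℝ) (P : V → Fin 3) (φ : Fin 3 → ℝ) :
    ∑ u, w u * φ (P u) = φ 0 * aa w P 0 + φ 1 * aa w P 1 + φ 2 * aa w P 2 := by
  unfold aa
  rw [mul_sum, mul_sum, mul_sum, ← sum_add_distrib, ← sum_add_distrib]
  refine sum_congr rfl fun u _ => ?_
  rcases II_cases P u with ⟨h, h0, h1, h2⟩ | ⟨h, h0, h1, h2⟩ | ⟨h, h0, h1, h2⟩ <;>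
    rw [h, h0, h1, h2] <;> ring

theorem aa_sum {w : V → ℝ} (hs : ∑ v, w v = 1) (P : V → Fin 3) :
    aa w P 0 + aa w P 1 + aa w P 2 = 1 := by
  have h := sum_phi w P (fun _ => 1)
  simp only [mul_one, one_mul, hs] at h
  exact h.symm

theorem mm_symm (A : V → V → Prop) (w : V → ℝ) (P : V → Fin 3) (i j : Fin 3) :
    mm A w P i j = mm A w P j i := by
  unfold mm
  simp only [mul_sum]
  rw [sum_comm]
  refine sum_congr rfl fun u _ => sum_congr rfl fun v _ => ?_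
  rw [ad_symm]; ring

/-- a double sum as a linear combination of double sums -/
theorem dsum_add (w : V → ℝ) (f g : V → V → ℝ) :
    ∑ u, w u * ∑ v, w v * (f u v + g u v) = ∑ u, w u * ∑ v, w v * f u v +
      ∑ u, w u * ∑ v, w v * g u v := by
  simp only [mul_add, sum_add_distrib]

theorem dsum_smul (w : V → ℝ) (c : ℝ) (f : V → V → ℝ) :
    ∑ u, w u * ∑ v, w v * (c * f u v) = c * ∑ u, w u * ∑ v, w v * f u v := by
  simp only [mul_sum]
  exact sum_congr rfl fun u _ => sum_congr rfl fun v _ => by ring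

theorem dsum_congr (w : V → ℝ) {f g : V → V → ℝ} (h : ∀ u v, f u v = g u v) :
    ∑ u, w u * ∑ v, w v * f u v = ∑ u, w u * ∑ v, w v * g u v := by
  simp only [h]

theorem cross_sum (A : V → V → Prop) (w : V → ℝ) (P : V → Fin 3) :
    ∑ u, w u * ∑ v, w v * ((1 - sm P u v) * (1 - ad A u v) * (aa w P (P u) + aa w P (P v))) =
      2 * ((aa w P 0 + aa w P 1) * mm A w P 0 1 + (aa w P 0 + aa w P 2) * mm A w P 0 2 +
        (aa w P 1 + aa w P 2) * mm A w P 1 2) := by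
  have h : ∀ u v, (1 - sm P u v) * (1 - ad A u v) * (aa w P (P u) + aa w P (P v)) =
      (aa w P 0 + aa w P 1) * (II P 0 u * II P 1 v * (1 - ad A u v)) +
      ((aa w P 0 + aa w P 1) * (II P 1 u * II P 0 v * (1 - ad A u v)) +
      ((aa w P 0 + aa w P 2) * (II P 0 u * II P 2 v * (1 - ad A u v)) +
      ((aa w P 0 + aa w P 2) * (II P 2 u * II P 0 v * (1 - ad A u v)) +
      ((aa w P 1 + aa w P 2) * (II P 1 u * II P 2 v * (1 - ad A u v)) +
      (aa w P 1 + aa w P 2) * (II P 2 u * II P 1 v * (1 - ad A u v)))))) := by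
    intro u v
    unfold sm
    rcases II_cases P u with ⟨h, h0, h1, h2⟩ | ⟨h, h0, h1, h2⟩ | ⟨h, h0, h1, h2⟩ <;>
    rcases II_cases P v with ⟨g, g0, g1, g2⟩ | ⟨g, g0, g1, g2⟩ | ⟨g, g0, g1, g2⟩ <;>
    rw [h, h0, h1, h2, g, g0, g1, g2] <;> simp <;> ring
  rw [dsum_congr w h, dsum_add, dsum_add, dsum_add, dsum_add, dsum_add, dsum_smul, dsum_smul,
    dsum_smul, dsum_smul, dsum_smul, dsum_smul]
  have e1 : ∑ u, w u * ∑ v, w v * (II P 0 u * II P 1 v * (1 - ad A u v)) = mm A w P 0 1 := rfl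
  have e2 : ∑ u, w u * ∑ v, w v * (II P 1 u * II P 0 v * (1 - ad A u v)) = mm A w P 1 0 := rfl
  have e3 : ∑ u, w u * ∑ v, w v * (II P 0 u * II P 2 v * (1 - ad A u v)) = mm A w P 0 2 := rfl
  have e4 : ∑ u, w u * ∑ v, w v * (II P 2 u * II P 0 v * (1 - ad A u v)) = mm A w P 2 0 := rfl
  have e5 : ∑ u, w u * ∑ v, w v * (II P 1 u * II P 2 v * (1 - ad A u v)) = mm A w P 1 2 := rfl
  have e6 : ∑ u, w u * ∑ v, w v * (II P 2 u * II P 1 v * (1 - ad A u v)) = mm A w P 2 1 := rfl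
  rw [e1, e2, e3, e4, e5, e6, mm_symm A w P 1 0, mm_symm A w P 2 0, mm_symm A w P 2 1]
  ring

theorem EE_eq {A : V → V → Prop} {w : V → ℝ} (hs : ∑ v, w v = 1) (P : V → Fin 3) :
    EE A w = 1 - (aa w P 0 ^ 2 + aa w P 1 ^ 2 + aa w P 2 ^ 2) +
      (nn A w P 0 + nn A w P 1 + nn A w P 2) - 2 * (mm A w P 0 1 + mm A w P 0 2 + mm A w P 1 2) := by
  have h : ∀ u v, ad A u v = 1 + ((-1) * (II P 0 u * II P 0 v) + ((-1) * (II P 1 u * II P 1 v) +
      ((-1) * (II P 2 u * II P 2 v) + (II P 0 u * II P 0 v * ad A u v + (II P 1 u * II P 1 v * ad A u v +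
      (II P 2 u * II P 2 v * ad A u v +
      ((-1) * (II P 0 u * II P 1 v * (1 - ad A u v)) +
      ((-1) * (II P 1 u * II P 0 v * (1 - ad A u v)) +
      ((-1) * (II P 0 u * II P 2 v * (1 - ad A u v)) +
      ((-1) * (II P 2 u * II P 0 v * (1 - ad A u v)) +
      ((-1) * (II P 1 u * II P 2 v * (1 - ad A u v)) +
      (-1) * (II P 2 u * II P 1 v * (1 - ad A u v))))))))))))) := by
    intro u v
    rcases II_cases P u with ⟨h, h0, h1, h2⟩ | ⟨h, h0, h1, h2⟩ | ⟨h, h0, h1, h2⟩ <;>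
    rcases II_cases P v with ⟨g, g0, g1, g2⟩ | ⟨g, g0, g1, g2⟩ | ⟨g, g0, g1, g2⟩ <;>
    rw [h0, h1, h2, g0, g1, g2] <;> ring
  unfold EE
  rw [dsum_congr w h]
  simp only [dsum_add, dsum_smul]
  have e1 : ∑ u, w u * ∑ v, w v * (II P 0 u * II P 1 v * (1 - ad A u v)) = mm A w P 0 1 := rfl
  have e2 : ∑ u, w u * ∑ v, w v * (II P 1 u * II P 0 v * (1 - ad A u v)) = mm A w P 1 0 := rfl
  have e3 : ∑ u, w u * ∑ v, w v * (II P 0 u * II P 2 v * (1 - ad A u v)) = mm A w P 0 2 := rfl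
  have e4 : ∑ u, w u * ∑ v, w v * (II P 2 u * II P 0 v * (1 - ad A u v)) = mm A w P 2 0 := rfl
  have e5 : ∑ u, w u * ∑ v, w v * (II P 1 u * II P 2 v * (1 - ad A u v)) = mm A w P 1 2 := rfl
  have e6 : ∑ u, w u * ∑ v, w v * (II P 2 u * II P 1 v * (1 - ad A u v)) = mm A w P 2 1 := rfl
  have e7 : ∀ i, ∑ u, w u * ∑ v, w v * (II P i u * II P i v * ad A u v) = nn A w P i := fun _ => rfl
  have e8 : ∀ i, ∑ u, w u * ∑ v, w v * (II P i u * II P i v) = aa w P i ^ 2 := by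
    intro i; rw [E2_mul, sq]; rfl
  have e9 : ∑ u : V, w u * ∑ v, w v * 1 = 1 := by simp only [mul_one, hs]
  rw [e1, e2, e3, e4, e5, e6, e7, e7, e7, e8, e8, e8, e9, mm_symm A w P 1 0, mm_symm A w P 2 0,
    mm_symm A w P 2 1]
  ring

theorem eta_sum {A : V → V → Prop} {w : V → ℝ} (P : V → Fin 3) :
    ∑ v, w v * eta A w P v = nn A w P 0 + nn A w P 1 + nn A w P 2 +
      2 * (mm A w P 0 1 + mm A w P 0 2 + mm A w P 1 2) := by
  have h : ∀ u v, hd A P u v = II P 0 u * II P 0 v * ad A u v + (II P 1 u * II P 1 v * ad A u v +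
      (II P 2 u * II P 2 v * ad A u v +
      ((II P 0 u * II P 1 v * (1 - ad A u v)) +
      ((II P 1 u * II P 0 v * (1 - ad A u v)) +
      ((II P 0 u * II P 2 v * (1 - ad A u v)) +
      ((II P 2 u * II P 0 v * (1 - ad A u v)) +
      ((II P 1 u * II P 2 v * (1 - ad A u v)) +
      (II P 2 u * II P 1 v * (1 - ad A u v))))))))) := by
    intro u v
    unfold hd sm
    rcases II_cases P u with ⟨h, h0, h1, h2⟩ | ⟨h, h0, h1, h2⟩ | ⟨h, h0, h1, h2⟩ <;>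
    rcases II_cases P v with ⟨g, g0, g1, g2⟩ | ⟨g, g0, g1, g2⟩ | ⟨g, g0, g1, g2⟩ <;>
    rw [h, h0, h1, h2, g, g0, g1, g2] <;> simp
  unfold eta
  rw [dsum_congr w h]
  simp only [dsum_add]
  have e1 : ∑ u, w u * ∑ v, w v * (II P 0 u * II P 1 v * (1 - ad A u v)) = mm A w P 0 1 := rfl
  have e2 : ∑ u, w u * ∑ v, w v * (II P 1 u * II P 0 v * (1 - ad A u v)) = mm A w P 1 0 := rfl
  have e3 : ∑ u, w u * ∑ v, w v * (II P 0 u * II P 2 v * (1 - ad A u v)) = mm A w P 0 2 := rfl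
  have e4 : ∑ u, w u * ∑ v, w v * (II P 2 u * II P 0 v * (1 - ad A u v)) = mm A w P 2 0 := rfl
  have e5 : ∑ u, w u * ∑ v, w v * (II P 1 u * II P 2 v * (1 - ad A u v)) = mm A w P 1 2 := rfl
  have e6 : ∑ u, w u * ∑ v, w v * (II P 2 u * II P 1 v * (1 - ad A u v)) = mm A w P 2 1 := rfl
  have e7 : ∀ i, ∑ u, w u * ∑ v, w v * (II P i u * II P i v * ad A u v) = nn A w P i := fun _ => rfl
  rw [e1, e2, e3, e4, e5, e6, e7, e7, e7, mm_symm A w P 1 0, mm_symm A w P 2 0, mm_symm A w P 2 1]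
  ring

theorem sum_op {A : V → V → Prop} (hA : Good A) (w : V → ℝ) :
    ∑ v, w v * op A w v = EE A w / 2 := by
  have h : EE A w = ∑ v, w v * op A w v + ∑ v, w v * op A w v := by
    unfold EE op
    simp only [ad_eq hA, dsum_add]
    congr 1
    simp only [mul_sum]
    rw [sum_comm]
    exact sum_congr rfl fun u _ => sum_congr rfl fun v _ => by ring
  linarith

theorem SS_Zs {A : V → V → Prop} (hA : Good A) {w : V → ℝ} (hs : ∑ v, w v = 1) :
    SS A w = Zs A w + EE A w / 3 - 1 / 9 := by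
  have h : Zs A w = SS A w - 2 / 3 * ∑ v, w v * op A w v + 1 / 9 * ∑ v, w v := by
    unfold Zs SS op
    rw [mul_sum, mul_sum, ← sum_sub_distrib, ← sum_add_distrib]
    exact sum_congr rfl fun v _ => by ring
  rw [sum_op hA, hs] at h
  linarith

theorem F_ineq {A : V → V → Prop} (hA : Good A) {w : V → ℝ} (hw : ∀ v, 0 ≤ w v)
    (hs : ∑ v, w v = 1) (P : V → Fin 3) :
    3 * (aa w P 0 - 1 / 3) * (aa w P 1 - 1 / 3) * (aa w P 2 - 1 / 3) +
      (nn A w P 0 + nn A w P 1 + nn A w P 2) +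
      2 * (mm A w P 0 1 * (2 - 3 * aa w P 2) + mm A w P 0 2 * (2 - 3 * aa w P 1) +
        mm A w P 1 2 * (2 - 3 * aa w P 0)) - 3 * ∑ v, w v * (eta A w P v) ^ 2 + 3 * Zs A w ≤
      DD A w - 4 / 9 := by
  have h1 := D_ge hA hw P
  rw [cross_sum, SS_Zs hA hs] at h1
  have h2 := sum_phi w P (fun i => aa w P i ^ 2)
  have h3 := EE_eq (A := A) hs P
  have h4 := aa_sum hs P
  have h2' : ∑ u, w u * aa w P (P u) ^ 2 = aa w P 0 ^ 2 * aa w P 0 + aa w P 1 ^ 2 * aa w P 1 +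
    aa w P 2 ^ 2 * aa w P 2 := h2
  rw [h2', h3] at h1
  have e : aa w P 2 = 1 - aa w P 0 - aa w P 1 := by linarith
  rw [e] at h1 ⊢
  refine le_trans (le_of_eq ?_) (sub_le_sub_right h1 (4 / 9))
  ring

end Pool.Agent.W841.FF
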