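import Pool.Agent.W841.FF.Dens

/-! Gram form of the tables. -/

set_option autoImplicit false
set_option maxRecDepth 100000

open Finset

namespace Pool.Agent.W841.FF

def nall : ℕ → (ℕ → Bool) → Bool
  | 0, _ => true
  | n + 1, f => and (f n) (nall n f)

def nsum : ℕ → (ℕ → ℕ) → ℕ
  | 0, _ => 0
  | n + 1, f => Nat.add (f n) (nsum n f)

theorem nall_true {n : ℕ} {f : ℕ → Bool} (h : nall n f = true) : ∀ i, i < n → f i = true := by
  induction n with
  | zero => intro i hi; omega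
  | succ n ih =>
    unfold nall at h
    rw [Bool.and_eq_true] at h
    intro i hi
    rcases Nat.lt_succ_iff_lt_or_eq.mp hi with h1 | h1
    · exact ih h.2 i h1
    · rw [h1]; exact h.1

theorem nsum_eq (n : ℕ) (f : ℕ → ℕ) : nsum n f = ∑ k ∈ range n, f k := by
  induction n with
  | zero => rfl
  | succ n ih =>
    unfold nsum
    rw [sum_range_succ, ih, Nat.add_eq, add_comm]

/-- entries of the factor tables -/
def lm (T n : ℕ) : ℕ := Nat.land (Nat.shiftRight T (Nat.mul 24 n)) 16777215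

def gramOK (TQ TL K : ℕ) (r i j : ℕ) : Bool :=
  Nat.beq
    (Nat.add (lk TQ (Nat.add (Nat.mul 729 r) (Nat.add (Nat.mul 27 i) j)))
      (Nat.mul 4194304 (nsum K fun k => Nat.add (lm TL (Nat.add (Nat.mul (Nat.add (Nat.mul 27 r) i) K) k))
        (lm TL (Nat.add (Nat.mul (Nat.add (Nat.mul 27 r) j) K) k)))))
    (Nat.add (Nat.add 140737488355328 (Nat.mul K 17592186044416))
      (nsum K fun k => Nat.mul (lm TL (Nat.add (Nat.mul (Nat.add (Nat.mul 27 r) i) K) k))
        (lm TL (Nat.add (Nat.mul (Nat.add (Nat.mul 27 r) j) K) k))))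

theorem gram_aux (q K : ℕ) (u v : ℕ → ℕ)
    (h : q + 4194304 * ∑ k ∈ range K, (u k + v k) =
      140737488355328 + K * 17592186044416 + ∑ k ∈ range K, u k * v k) :
    (q : ℝ) = ∑ k ∈ range K, ((u k : ℝ) - 4194304) * ((v k : ℝ) - 4194304) + 140737488355328 := by
  have h2 : ((_ : ℕ) : ℝ) = ((_ : ℕ) : ℝ) := congrArg Nat.cast h
  push_cast at h2
  have e1 : ∑ k ∈ range K, ((u k : ℝ) - 4194304) * ((v k : ℝ) - 4194304)
      = ∑ k ∈ range K, (u k : ℝ) * (v k : ℝ)
        - 4194304 * ∑ k ∈ range K, ((u k : ℝ) + (v k : ℝ)) + K * 17592186044416 := by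
    have : ∀ k, ((u k : ℝ) - 4194304) * ((v k : ℝ) - 4194304) =
      (u k : ℝ) * (v k : ℝ) - 4194304 * ((u k : ℝ) + (v k : ℝ)) + 17592186044416 := by
      intro k
      ring
    rw [sum_congr rfl fun k _ => this k, sum_add_distrib, sum_sub_distrib, ← mul_sum, sum_const,
      card_range, nsmul_eq_mul]
  rw [e1]
  linarith

theorem gram_of {TQ TL K r i j : ℕ} (h : gramOK TQ TL K r i j = true) :
    ((lk TQ (Nat.add (Nat.mul 729 r) (Nat.add (Nat.mul 27 i) j)) : ℕ) : ℝ) =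
      ∑ k ∈ range K, (((lm TL (Nat.add (Nat.mul (Nat.add (Nat.mul 27 r) i) K) k) : ℕ) : ℝ) - 4194304) *
        (((lm TL (Nat.add (Nat.mul (Nat.add (Nat.mul 27 r) j) K) k) : ℕ) : ℝ) - 4194304) +
        140737488355328 := by
  unfold gramOK at h
  have h1 := Nat.eq_of_beq_eq_true h
  rw [nsum_eq, nsum_eq] at h1
  exact gram_aux _ K (fun k => lm TL (Nat.add (Nat.mul (Nat.add (Nat.mul 27 r) i) K) k))
    (fun k => lm TL (Nat.add (Nat.mul (Nat.add (Nat.mul 27 r) j) K) k)) h1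

theorem rho_rng : nall 27 (fun t => and (Nat.blt (rho t) 7) (nall 27 fun i => Nat.blt (pc t i) 27))
    = true := by decide +kernel

theorem rho_lt {t : ℕ} (h : t < 27) : rho t < 7 := by
  have := nall_true rho_rng t h
  rw [Bool.and_eq_true] at this
  exact Nat.le_of_ble_eq_true this.1

theorem pc_lt {t i : ℕ} (h : t < 27) (hi : i < 27) : pc t i < 27 := by
  have := nall_true rho_rng t h
  rw [Bool.and_eq_true] at this
  exact Nat.le_of_ble_eq_true (nall_true this.2 i hi)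

theorem Q3_gram {TQ TL K : ℕ} (h : nall 7 (fun r => nall 27 fun i => nall 27 fun j =>
    gramOK TQ TL K r i j) = true) (t i j : ℕ) (ht : t < 27) (hi : i < 27) (hj : j < 27) :
    ((Q3 TQ t i j : ℕ) : ℝ) = ∑ k ∈ range K,
      (((lm TL (Nat.add (Nat.mul (Nat.add (Nat.mul 27 (rho t)) (pc t i)) K) k) : ℕ) : ℝ) - 4194304) *
      (((lm TL (Nat.add (Nat.mul (Nat.add (Nat.mul 27 (rho t)) (pc t j)) K) k) : ℕ) : ℝ) - 4194304) +
      140737488355328 :=
  gram_of (nall_true (nall_true (nall_true h _ (rho_lt ht)) _ (pc_lt ht hi)) _ (pc_lt ht hj))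

theorem Q1_gram {TU TM K : ℕ} (h : nall 27 (fun i => nall 27 fun j => gramOK TU TM K 0 i j) = true)
    (i j : ℕ) (hi : i < 27) (hj : j < 27) :
    ((Q1 TU i j : ℕ) : ℝ) = ∑ k ∈ range K,
      (((lm TM (Nat.add (Nat.mul (Nat.add (Nat.mul 27 0) i) K) k) : ℕ) : ℝ) - 4194304) *
      (((lm TM (Nat.add (Nat.mul (Nat.add (Nat.mul 27 0) j) K) k) : ℕ) : ℝ) - 4194304) +
      140737488355328 := by
  have h1 := gram_of (nall_true (nall_true h _ hi) _ hj)
  have h2 : Q1 TU i j = lk TU (Nat.add (Nat.mul 729 0) (Nat.add (Nat.mul 27 i) j)) := by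
    unfold Q1
    simp only [Nat.add_eq, Nat.mul_eq, mul_zero, zero_add]
  rw [h2]
  exact h1

end Pool.Agent.W841.FF
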