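import Pool.Agent.W841.FF.Gr

/-! Soundness of the flag checks. -/

set_option autoImplicit false
set_option maxRecDepth 100000

open Finset
open scoped Classical

namespace Pool.Agent.W841.FF

variable {V : Type}

noncomputable def F3 (q3 : ℕ → ℕ → ℕ → ℕ) (A : V → V → Prop) (x : Fin 5 → V) : ℝ :=
  (q3 (cd (rel A (x 0) (x 1)) (rel A (x 0) (x 2)) (rel A (x 1) (x 2)))
    (cd (rel A (x 0) (x 3)) (rel A (x 1) (x 3)) (rel A (x 2) (x 3)))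
    (cd (rel A (x 0) (x 4)) (rel A (x 1) (x 4)) (rel A (x 2) (x 4))) : ℕ)

noncomputable def F1 (q1 : ℕ → ℕ → ℕ) (A : V → V → Prop) (x : Fin 5 → V) : ℝ :=
  (q1 (cd (rel A (x 0) (x 1)) (rel A (x 0) (x 2)) (rel A (x 1) (x 2)))
    (cd (rel A (x 0) (x 3)) (rel A (x 0) (x 4)) (rel A (x 3) (x 4))) : ℕ)

noncomputable def Ft (t3 : ℕ → ℕ) (A : V → V → Prop) (x : Fin 5 → V) : ℝ :=
  (t3 (cd (rel A (x 0) (x 1)) (rel A (x 0) (x 2)) (rel A (x 1) (x 2))) : ℕ)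

noncomputable def Fh (A : V → V → Prop) (x : Fin 5 → V) : ℝ :=
  (h4 (cd (rel A (x 0) (x 1)) (rel A (x 0) (x 2)) (rel A (x 1) (x 2)))
    (cd (rel A (x 0) (x 3)) (rel A (x 1) (x 3)) (rel A (x 2) (x 3))) : ℕ)

def S10 : List (Fin 5 → Fin 5) := [![0, 1, 2, 3, 4], ![0, 1, 3, 2, 4], ![0, 1, 4, 2, 3], ![0, 2, 3, 1, 4], ![0, 2, 4, 1, 3], ![0, 3, 4, 1, 2], ![1, 2, 3, 0, 4], ![1, 2, 4, 0, 3], ![1, 3, 4, 0, 2], ![2, 3, 4, 0, 1]]
def S15 : List (Fin 5 → Fin 5) := [![0, 1, 2, 3, 4], ![0, 1, 3, 2, 4], ![0, 1, 4, 2, 3], ![1, 0, 2, 3, 4], ![1, 0, 3, 2, 4], ![1, 0, 4, 2, 3], ![2, 0, 1, 3, 4], ![2, 0, 3, 1, 4], ![2, 0, 4, 1, 3], ![3, 0, 1, 2, 4], ![3, 0, 2, 1, 4], ![3, 0, 4, 1, 2], ![4, 0, 1, 2, 3], ![4, 0, 2, 1, 3], ![4, 0, 3, 1, 2]]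
def S5 : List (Fin 5 → Fin 5) := [![0, 1, 2, 3, 4], ![0, 1, 2, 4, 3], ![0, 1, 3, 4, 2], ![0, 2, 3, 4, 1], ![1, 2, 3, 4, 0]]

theorem S10_bij : ∀ s ∈ S10, Function.Bijective s := fun s hs =>
  Finite.injective_iff_bijective.mp ((by decide +kernel : ∀ s ∈ S10, ∀ i j, s i = s j → i = j) s hs)
theorem S15_bij : ∀ s ∈ S15, Function.Bijective s := fun s hs =>
  Finite.injective_iff_bijective.mp ((by decide +kernel : ∀ s ∈ S15, ∀ i j, s i = s j → i = j) s hs)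
theorem S5_bij : ∀ s ∈ S5, Function.Bijective s := fun s hs =>
  Finite.injective_iff_bijective.mp ((by decide +kernel : ∀ s ∈ S5, ∀ i j, s i = s j → i = j) s hs)

theorem leaf3_eq (q3 : ℕ → ℕ → ℕ → ℕ) (A : V → V → Prop) (x : Fin 5 → V) :
    ((leaf3 q3 (rel A (x 0) (x 1)) (rel A (x 0) (x 2)) (rel A (x 1) (x 2)) (rel A (x 0) (x 3)) (rel A (x 1) (x 3)) (rel A (x 2) (x 3)) (rel A (x 0) (x 4)) (rel A (x 1) (x 4)) (rel A (x 2) (x 4)) (rel A (x 3) (x 4))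
      (rel A (x 1) (x 0)) (rel A (x 2) (x 0)) (rel A (x 2) (x 1)) (rel A (x 3) (x 0)) (rel A (x 3) (x 1)) (rel A (x 3) (x 2)) (rel A (x 4) (x 0)) (rel A (x 4) (x 1)) (rel A (x 4) (x 2)) (rel A (x 4) (x 3)) : ℕ) : ℝ) = (S10.map fun s => F3 q3 A (fun i => x (s i))).sum := by
  unfold leaf3
  simp only [Nat.add_eq, Nat.cast_add]
  simp only [S10, List.map_cons, List.map_nil, List.sum_cons, List.sum_nil, add_zero]
  rfl

theorem leaf1_eq (q1 : ℕ → ℕ → ℕ) (A : V → V → Prop) (x : Fin 5 → V) :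
    ((leaf1 q1 (rel A (x 0) (x 1)) (rel A (x 0) (x 2)) (rel A (x 1) (x 2)) (rel A (x 0) (x 3)) (rel A (x 1) (x 3)) (rel A (x 2) (x 3)) (rel A (x 0) (x 4)) (rel A (x 1) (x 4)) (rel A (x 2) (x 4)) (rel A (x 3) (x 4))
      (rel A (x 1) (x 0)) (rel A (x 2) (x 0)) (rel A (x 2) (x 1)) (rel A (x 3) (x 0)) (rel A (x 3) (x 1)) (rel A (x 3) (x 2)) (rel A (x 4) (x 0)) (rel A (x 4) (x 1)) (rel A (x 4) (x 2)) (rel A (x 4) (x 3)) : ℕ) : ℝ) = (S15.map fun s => F1 q1 A (fun i => x (s i))).sum := by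
  unfold leaf1
  simp only [Nat.add_eq, Nat.cast_add]
  simp only [S15, List.map_cons, List.map_nil, List.sum_cons, List.sum_nil, add_zero]
  rfl

theorem leaft_eq (t3 : ℕ → ℕ) (A : V → V → Prop) (x : Fin 5 → V) :
    ((leaft t3 (rel A (x 0) (x 1)) (rel A (x 0) (x 2)) (rel A (x 1) (x 2)) (rel A (x 0) (x 3)) (rel A (x 1) (x 3)) (rel A (x 2) (x 3)) (rel A (x 0) (x 4)) (rel A (x 1) (x 4)) (rel A (x 2) (x 4)) (rel A (x 3) (x 4)) : ℕ) : ℝ) = (S10.map fun s => Ft t3 A (fun i => x (s i))).sum := by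
  unfold leaft
  simp only [Nat.add_eq, Nat.cast_add]
  simp only [S10, List.map_cons, List.map_nil, List.sum_cons, List.sum_nil, add_zero]
  rfl

theorem leafh_eq (A : V → V → Prop) (x : Fin 5 → V) :
    ((leafh (rel A (x 0) (x 1)) (rel A (x 0) (x 2)) (rel A (x 1) (x 2)) (rel A (x 0) (x 3)) (rel A (x 1) (x 3)) (rel A (x 2) (x 3)) (rel A (x 0) (x 4)) (rel A (x 1) (x 4)) (rel A (x 2) (x 4)) (rel A (x 3) (x 4)) : ℕ) : ℝ) = (S5.map fun s => Fh A (fun i => x (s i))).sum := by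
  unfold leafh
  simp only [Nat.add_eq, Nat.cast_add]
  simp only [S5, List.map_cons, List.map_nil, List.sum_cons, List.sum_nil, add_zero]
  rfl

variable [Fintype V]

theorem En_one (w : V → ℝ) (hs : ∑ v, w v = 1) (n : ℕ) (c : ℝ) : En w n (fun _ => c) = c := by
  induction n with
  | zero => rw [En_zero]
  | succ n ih => rw [En_succ]; simp only [ih]; rw [← sum_mul, hs, one_mul]

/-- a Gram kernel with an offset, evaluated on a pair of independent samples -/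
theorem gram_nonneg {ι : Type} [Fintype ι] (u : ι → ℝ) (K : ℕ) (l : ι → ℕ → ℝ) :
    0 ≤ ∑ d, u d * ∑ e, u e * ∑ k ∈ range K, l d k * l e k := by
  have h : ∑ d, u d * ∑ e, u e * ∑ k ∈ range K, l d k * l e k
      = ∑ k ∈ range K, (∑ d, u d * l d k) ^ 2 := by
    simp only [sq, sum_mul_sum]
    rw [sum_comm]
    refine sum_congr rfl fun d _ => ?_
    rw [sum_comm, mul_sum]
    refine sum_congr rfl fun e _ => ?_
    rw [mul_sum, mul_sum]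
    exact sum_congr rfl fun k _ => by ring
  rw [h]
  exact sum_nonneg fun k _ => sq_nonneg _

end Pool.Agent.W841.FF
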