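import Pool.Agent.W841.FF.Main

/-! Densities and the specification of the small tables. -/

set_option autoImplicit false
set_option maxRecDepth 100000

open Finset
open scoped Classical

namespace Pool.Agent.W841.FF

variable {V : Type}

def zN (r : ℕ) : Bool := Nat.beq r 0
def oN (r : ℕ) : Bool := Nat.beq r 1
def bN (b : Bool) : ℕ := cond b 1 0

def fN (r01 n01 r02 n02 r12 n12 : ℕ) : ℕ :=
  bN (or (and (zN r01) (zN r02)) (or (and (zN n01) (zN r12)) (or (and (zN n02) (zN n12))
    (or (and (oN r01) (oN r02)) (or (and (oN n01) (oN r12)) (and (oN n02) (oN n12)))))))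

def eN (r01 r02 r12 : ℕ) : ℕ :=
  Nat.add (bN (not (zN r01))) (Nat.add (bN (not (zN r02))) (bN (not (zN r12))))

def chN (r01 n01 r02 n02 r12 n12 : ℕ) : ℕ :=
  Nat.add (bN (and (oN r01) (oN r02))) (Nat.add (bN (and (oN n01) (oN r12))) (bN (and (oN n02) (oN n12))))

def ptN (ra rb : ℕ) : ℕ := cond (zN ra) 0 (cond (zN rb) 1 2)

def ddN (rab rau rav rbu rbv ruv : ℕ) : ℕ :=
  bN (and (not (zN rab)) (Bool.xor (Nat.beq (ptN rau rbu) (ptN rav rbv)) (zN ruv)))

theorem zN_rel {A : V → V → Prop} (hA : Good A) (u v : V) :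
    zN (rel A u v) = decide (¬ (A u v ∨ A v u)) := by
  rcases rel_cases hA u v with h | h | h <;> simp [h, zN] <;> rfl

theorem oN_rel {A : V → V → Prop} (hA : Good A) (u v : V) :
    oN (rel A u v) = decide (A u v) := by
  rcases rel_cases hA u v with h | h | h <;> simp [h, oN] <;> rfl

theorem bN_cast (b : Bool) : ((bN b : ℕ) : ℝ) = if b = true then 1 else 0 := by
  cases b <;> simp [bN]

theorem fN_rel {A : V → V → Prop} (hA : Good A) (a b c : V) :
    ((fN (rel A a b) (rel A b a) (rel A a c) (rel A c a) (rel A b c) (rel A c b) : ℕ) : ℝ) = fd A a b c := by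
  unfold fN fd FT
  rw [bN_cast]
  simp only [zN_rel hA, oN_rel hA, Bool.or_eq_true, Bool.and_eq_true, decide_eq_true_eq]
  congr

theorem ad_rel {A : V → V → Prop} (hA : Good A) (a b : V) :
    ((bN (not (zN (rel A a b))) : ℕ) : ℝ) = ad A a b := by
  unfold ad
  rw [bN_cast]
  simp only [zN_rel hA, Bool.not_eq_true', decide_eq_false_iff_not, not_not]

theorem eN_rel {A : V → V → Prop} (hA : Good A) (a b c : V) :
    ((eN (rel A a b) (rel A a c) (rel A b c) : ℕ) : ℝ) = ad A a b + ad A a c + ad A b c := by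
  unfold eN
  simp only [Nat.add_eq, Nat.cast_add, ad_rel hA]
  ring

theorem ch1_rel {A : V → V → Prop} (hA : Good A) (a b c : V) :
    ((bN (and (oN (rel A a b)) (oN (rel A a c))) : ℕ) : ℝ) = ar A a b * ar A a c := by
  unfold ar
  rw [bN_cast]
  simp only [oN_rel hA, Bool.and_eq_true, decide_eq_true_eq]
  by_cases h1 : A a b <;> by_cases h2 : A a c <;> simp [h1, h2]

theorem chN_rel {A : V → V → Prop} (hA : Good A) (a b c : V) :
    ((chN (rel A a b) (rel A b a) (rel A a c) (rel A c a) (rel A b c) (rel A c b) : ℕ) : ℝ) =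
      ar A a b * ar A a c + ar A b a * ar A b c + ar A c a * ar A c b := by
  unfold chN
  simp only [Nat.add_eq, Nat.cast_add, ch1_rel hA]
  ring

theorem ptN_rel {A : V → V → Prop} (hA : Good A) (a b x : V) :
    ptN (rel A a x) (rel A b x) = pt A a b x := by
  unfold ptN pt
  rw [zN_rel hA, zN_rel hA]
  by_cases h1 : (A a x ∨ A x a) <;> by_cases h2 : (A b x ∨ A x b) <;> simp [h1, h2]

theorem beq_dec (m n : ℕ) : Nat.beq m n = decide (m = n) := by
  by_cases h : m = n
  · subst h; simp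
  · rw [decide_eq_false h]
    cases h' : Nat.beq m n
    · rfl
    · exact absurd (Nat.eq_of_beq_eq_true h') h

theorem ddN_rel {A : V → V → Prop} (hA : Good A) (a b u v : V) :
    ((ddN (rel A a b) (rel A a u) (rel A a v) (rel A b u) (rel A b v) (rel A u v) : ℕ) : ℝ) =
      dd A a b u v := by
  unfold ddN dd
  rw [bN_cast, ptN_rel hA, ptN_rel hA, zN_rel hA, zN_rel hA, beq_dec]
  by_cases h1 : (A a b ∨ A b a) <;> by_cases h2 : (A u v ∨ A v u) <;>
    by_cases h3 : pt A a b u = pt A a b v <;> simp [h1, h2, h3]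

theorem h4_spec : (B3 fun r01 n01 => B3 fun r02 n02 => B3 fun r12 n12 => B3 fun r03 n03 =>
    B3 fun r13 n13 => B3 fun r23 n23 => Nat.beq (h4 (cd r01 r02 r12) (cd r03 r13 r23))
      (Nat.add (ddN r01 r02 r03 r12 r13 r23) (Nat.add (ddN n01 r12 r13 r02 r03 r23)
      (Nat.add (ddN r02 r01 r03 n12 r23 r13) (Nat.add (ddN n02 n12 r23 r01 r03 r13)
      (Nat.add (ddN r03 r01 r02 n13 n23 r12) (Nat.add (ddN n03 n13 n23 r01 r02 r12)
      (Nat.add (ddN r12 n01 r13 n02 r23 r03) (Nat.add (ddN n12 n02 r23 n01 r13 r03)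
      (Nat.add (ddN r13 n01 r12 n03 n23 r02) (Nat.add (ddN n13 n03 n23 n01 r12 r02)
      (Nat.add (ddN r23 n02 n12 n03 n13 r01) (ddN n23 n03 n13 n02 n12 r01)))))))))))))
    = true := by decide +kernel

end Pool.Agent.W841.FF
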